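import Pool.Agent.L0h60.QS.Wmat

/-! Blocks of the matrix `w` and the elements `Π(b, v)`. -/

set_option autoImplicit false
set_option linter.unusedSectionVars false

namespace Pool.Agent.L0h60.QS

open Pool.Agent.H741.QS

namespace Cube

variable {V I : Type} [DecidableEq I] (c : Cube V I)

theorem fs_inj {S S' : Finset I} {a : V} (h : c.fs S a = c.fs S' a) : S = S' := by
  ext i
  have h1 := congrArg (c.t i) h
  rw [c.t_fs, c.t_fs] at h1
  have h2 := c.t_ne_zero i a
  by_cases hi : i ∈ S <;> by_cases hi' : i ∈ S' <;> simp only [hi, hi', if_true, if_false,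
    iff_true, iff_false, not_true, not_false_iff] at h1 ⊢
  · exact h2 (by linarith)
  · exact h2 (by linarith)

theorem fs_self (S : Finset I) (a : V) : c.fs S (c.fs S a) = a := by
  rw [c.fs_fs, symmDiff_self]; exact c.fs_empty a

theorem F_fs (i : I) (S : Finset I) (a : V) : c.F i (c.fs S a) = c.fs (symmDiff {i} S) a := by
  unfold F; rw [c.fs_fs]

theorem F_fs_comm (i : I) (S : Finset I) (a : V) : c.F i (c.fs S a) = c.fs S (c.F i a) := by
  unfold F; rw [c.fs_fs, c.fs_fs, symmDiff_comm]

theorem fs_fs_comm (S S' : Finset I) (a : V) : c.fs S (c.fs S' a) = c.fs S' (c.fs S a) := by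
  rw [c.fs_fs, c.fs_fs, symmDiff_comm]

/-- reindexing of a sum over flips -/
theorem sum_fs {B : Type} [AddCommMonoid B] {C σ : Finset I} (hσ : σ ⊆ C) (f : V → B) (v : V) :
    ∑ ρ ∈ C.powerset, f (c.fs ρ (c.fs σ v)) = ∑ ρ ∈ C.powerset, f (c.fs ρ v) := by
  have hsub : ∀ ρ ∈ C.powerset, symmDiff ρ σ ∈ C.powerset := by
    intro ρ hρ
    rw [Finset.mem_powerset] at hρ ⊢
    intro x hx
    rcases Finset.mem_symmDiff.1 hx with h | h
    · exact hρ h.1
    · exact hσ h.1
  refine Finset.sum_nbij' (fun ρ => symmDiff ρ σ) (fun ρ => symmDiff ρ σ) hsub hsub ?_ ?_ ?_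
  · intro ρ _; exact symmDiff_symmDiff_cancel_right σ ρ
  · intro ρ _; exact symmDiff_symmDiff_cancel_right σ ρ
  · intro ρ _; rw [c.fs_fs]

/-- reindexing of a sum over flips, a simultaneous flip pulled out -/
theorem sum_fs' {B : Type} [AddCommMonoid B] {C σ : Finset I} (hσ : σ ⊆ C) (f : V → B) (v : V) :
    ∑ ρ ∈ C.powerset, f (c.fs σ (c.fs ρ v)) = ∑ ρ ∈ C.powerset, f (c.fs ρ v) := by
  rw [← c.sum_fs hσ f v]
  exact Finset.sum_congr rfl fun ρ _ => by rw [c.fs_fs_comm]

end Cube

section

variable {V I B : Type} [Fintype V] [Fintype I] [DecidableEq I]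
  [Ring B] [StarRing B] [Algebra ℝ B] [StarModule ℝ B]
variable {c : Cube V I} {G : SimpleGraph V} {u : V → V → B} [Nonempty V]

/-- a block of the matrix `w` -/
structure Blk (c : Cube V I) (u : V → V → B) (R C : Finset I) : Prop where
  row : ∀ k ∈ R, ∀ l, ww c u k l ≠ 0 → l ∈ C
  col : ∀ l ∈ C, ∀ k, ww c u k l ≠ 0 → k ∈ R

/-- the element `Π(b, v)` -/
noncomputable def Pi' (c : Cube V I) (u : V → V → B) (C : Finset I) (b v : V) : B :=
  ∑ ρ ∈ C.powerset, u b (c.fs ρ v)

variable {R C : Finset I}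

theorem Blk.transpose (h : QC c G u) (hb : Blk c u R C) : Blk c (fun w a => u a w) C R where
  row := by
    intro l hl k hk
    rw [h.ww_transpose] at hk
    exact hb.col l hl k hk
  col := by
    intro k hk l hl
    rw [h.ww_transpose] at hl
    exact hb.row k hk l hl

namespace QC

theorem near (h : QC c G u) (hb : Blk c u R C) {k : I} (hk : k ∈ R) {b v v' : V}
    (hne : u b v * u (c.F k b) v' ≠ 0) : ∃ l ∈ C, v' = c.F l v := by
  obtain ⟨l, hl⟩ := h.h1 _ _ _ _ hne
  refine ⟨l, ?_, hl⟩
  apply hb.row k hk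
  intro h0
  apply hne
  have h1 := h.ww_mul_u k l b v
  rw [h0, zero_mul] at h1
  have h2 : (c.t k b * c.t l v) ≠ 0 := mul_ne_zero (c.t_ne_zero _ _) (c.t_ne_zero _ _)
  rcases smul_eq_zero.1 h1.symm with h3 | h3
  · exact absurd h3 h2
  · rw [hl]; exact h.q.star_mul_eq_zero h3

theorem reach (h : QC c G u) (hb : Blk c u R C) {r : Finset I} (hr : r ⊆ R) :
    ∀ {b v v' : V}, u b v * u (c.fs r b) v' ≠ 0 → ∃ ρ ⊆ C, v' = c.fs ρ v := by
  induction r using Finset.induction_on with
  | empty =>
    intro b v v' hne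
    rw [c.fs_empty] at hne
    refine ⟨∅, Finset.empty_subset _, ?_⟩
    rw [c.fs_empty]
    by_contra hv
    exact hne (h.q.rowOrth b v v' (fun h' => hv h'.symm))
  | insert i r hi ih =>
    intro b v v' hne
    rw [c.fs_insert hi] at hne
    have h1 : u b v * u (c.F i (c.fs r b)) v' =
        ∑ z, u b v * u (c.fs r b) z * u (c.F i (c.fs r b)) v' := by
      rw [← Finset.sum_mul, ← Finset.mul_sum, h.q.rowSum, mul_one]
    rw [h1] at hne
    obtain ⟨z, -, hz⟩ := Finset.exists_ne_zero_of_sum_ne_zero hne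
    have h2 : u b v * u (c.fs r b) z ≠ 0 := fun h0 => hz (by rw [h0, zero_mul])
    have h3 : u (c.fs r b) z * u (c.F i (c.fs r b)) v' ≠ 0 :=
      fun h0 => hz (by rw [mul_assoc, h0, mul_zero])
    obtain ⟨ρ, hρ, hzρ⟩ := ih (fun x hx => hr (Finset.mem_insert_of_mem hx)) h2
    obtain ⟨l, hl, hv⟩ := h.near hb (hr (Finset.mem_insert_self _ _)) h3
    refine ⟨symmDiff {l} ρ, ?_, ?_⟩
    · intro x hx
      rcases Finset.mem_symmDiff.1 hx with h' | h'
      · rw [Finset.mem_singleton.1 h'.1]; exact hl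
      · exact hρ h'.1
    · rw [hv, hzρ, c.F_fs]

theorem reach' (h : QC c G u) (hb : Blk c u R C) {ρ : Finset I} (hρ : ρ ⊆ C) {b b' v : V}
    (hne : u b v * u b' (c.fs ρ v) ≠ 0) : ∃ r ⊆ R, b' = c.fs r b :=
  h.transpose.reach (hb.transpose h) hρ hne

theorem Pi_eq (h : QC c G u) (hb : Blk c u R C) (b v : V) :
    Pi' c u C b v = ∑ r ∈ R.powerset, u (c.fs r b) v := by
  classical
  have e1 : Pi' c u C b v =
      ∑ ρ ∈ C.powerset, ∑ r ∈ R.powerset, u (c.fs r b) v * u b (c.fs ρ v) := by
    unfold Pi'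
    refine Finset.sum_congr rfl fun ρ hρ => ?_
    rw [Finset.mem_powerset] at hρ
    calc u b (c.fs ρ v) = ∑ b', u b' v * u b (c.fs ρ v) := by
          rw [← Finset.sum_mul, h.q.colSum, one_mul]
      _ = ∑ r ∈ R.powerset, u (c.fs r b) v * u b (c.fs ρ v) := by
          symm
          apply Finset.sum_of_injOn (fun r => c.fs r b)
          · intro r _ r' _ hrr
            exact c.fs_inj hrr
          · intro r _; exact Finset.mem_coe.2 (Finset.mem_univ _)
          · intro b' _ hb'
            by_contra hne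
            obtain ⟨r, hr, hbr⟩ := h.reach' hb hρ hne
            apply hb'
            refine ⟨r, Finset.mem_coe.2 (Finset.mem_powerset.2 hr), ?_⟩
            show c.fs r b = b'
            rw [hbr, c.fs_self]
          · intro r _; rfl
  have e2 : ∑ r ∈ R.powerset, u (c.fs r b) v =
      ∑ r ∈ R.powerset, ∑ ρ ∈ C.powerset, u (c.fs r b) v * u b (c.fs ρ v) := by
    refine Finset.sum_congr rfl fun r hr => ?_
    rw [Finset.mem_powerset] at hr
    calc u (c.fs r b) v = ∑ v', u (c.fs r b) v * u b v' := by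
          rw [← Finset.mul_sum, h.q.rowSum, mul_one]
      _ = ∑ ρ ∈ C.powerset, u (c.fs r b) v * u b (c.fs ρ v) := by
          symm
          apply Finset.sum_of_injOn (fun ρ => c.fs ρ v)
          · intro r _ r' _ hrr
            exact c.fs_inj hrr
          · intro r _; exact Finset.mem_coe.2 (Finset.mem_univ _)
          · intro v' _ hv'
            by_contra hne
            have hne' : u (c.fs r b) v * u (c.fs r (c.fs r b)) v' ≠ 0 := by rwa [c.fs_self]
            obtain ⟨ρ, hρ, hvρ⟩ := h.reach hb hr hne'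
            apply hv'
            refine ⟨ρ, Finset.mem_coe.2 (Finset.mem_powerset.2 hρ), ?_⟩
            exact hvρ.symm
          · intro r _; rfl
  rw [e1, e2, Finset.sum_comm]

theorem Pi_col {σ : Finset I} (hσ : σ ⊆ C) (b v : V) :
    Pi' c u C b (c.fs σ v) = Pi' c u C b v := by
  unfold Pi'
  exact c.sum_fs hσ (fun v => u b v) v

theorem Pi_row (h : QC c G u) (hb : Blk c u R C) {s : Finset I} (hs : s ⊆ R) (b v : V) :
    Pi' c u C (c.fs s b) v = Pi' c u C b v := by
  rw [h.Pi_eq hb, h.Pi_eq hb]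
  exact c.sum_fs hs (fun b => u b v) b

theorem ww_Pi (h : QC c G u) (hb : Blk c u R C) {k l : I} (hk : k ∈ R) (hl : l ∈ C) (b v : V) :
    ww c u k l * Pi' c u C b v = Pi' c u C b v * ww c u k l := by
  have h1 : Pi' c u C b v = Pi' c u C (c.fs {k} b) (c.fs {l} v) := by
    rw [h.Pi_row hb (by simpa using hk), Pi_col (by simpa using hl)]
  nth_rw 2 [h1]
  unfold Pi'
  rw [Finset.mul_sum, Finset.sum_mul]
  refine Finset.sum_congr rfl fun ρ _ => ?_
  rw [h.ww_u]
  show u (c.F k b) (c.F l (c.fs ρ v)) * _ = u (c.F k b) (c.fs ρ (c.F l v)) * _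
  rw [c.F_fs_comm]

theorem u_Pi (h : QC c G u) (b v : V) : u b v * Pi' c u C b v = u b v := by
  classical
  unfold Pi'
  rw [Finset.mul_sum, Finset.sum_eq_single ∅]
  · rw [c.fs_empty, h.q.idem]
  · intro ρ _ hρ
    apply h.q.rowOrth
    intro h0
    apply hρ
    apply c.fs_inj (a := v)
    rw [← h0, c.fs_empty]
  · intro h0
    exact absurd (Finset.empty_mem_powerset _) h0

theorem Pi_u (h : QC c G u) (b v : V) : Pi' c u C b v * u b v = u b v := by
  classical
  unfold Pi'
  rw [Finset.sum_mul, Finset.sum_eq_single ∅]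
  · rw [c.fs_empty, h.q.idem]
  · intro ρ _ hρ
    apply h.q.rowOrth
    intro h0
    apply hρ
    apply c.fs_inj (a := v)
    rw [h0, c.fs_empty]
  · intro h0
    exact absurd (Finset.empty_mem_powerset _) h0

/-- the Hamming type relation -/
theorem ham (h : QC c G u) (hb : Blk c u R C) {a b w v : V} (hne : u a w * u b v ≠ 0) :
    ∑ k ∈ R, c.t k a * c.t k b = ∑ l ∈ C, c.t l w * c.t l v := by
  classical
  have hT : ∀ l ∈ C, ∀ a, Tl c u l a = ∑ k ∈ R, c.t k a • ww c u k l := by
    intro l hl a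
    rw [h.Tl_eq]
    symm
    apply Finset.sum_subset (Finset.subset_univ _)
    intro k _ hk
    have : ww c u k l = 0 := by
      by_contra h0
      exact hk (hb.col l hl k h0)
    rw [this, smul_zero]
  have key : ∑ l ∈ C, Tl c u l a * Tl c u l b = (∑ k ∈ R, c.t k a * c.t k b) • (1 : B) := by
    have e1 : ∀ k ∈ R, ∀ j ∈ R, ∑ l ∈ C, ww c u k l * ww c u j l = if k = j then 1 else 0 := by
      intro k hk j hj
      have e2 : ∑ l ∈ C, ww c u k l * ww c u j l = ∑ l, ww c u k l * ww c u j l := by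
        apply Finset.sum_subset (Finset.subset_univ _)
        intro l _ hl
        have : ww c u k l = 0 := by
          by_contra h0
          exact hl (hb.row k hk l h0)
        rw [this, zero_mul]
      rw [e2]
      split_ifs with hkj
      · subst hkj; exact h.row_sq k
      · exact h.row_orth hkj
    calc ∑ l ∈ C, Tl c u l a * Tl c u l b
        = ∑ l ∈ C, ∑ k ∈ R, ∑ j ∈ R, (c.t k a * c.t j b) • (ww c u k l * ww c u j l) := by
          refine Finset.sum_congr rfl fun l hl => ?_
          rw [hT l hl, hT l hl, Finset.sum_mul_sum]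
          refine Finset.sum_congr rfl fun k _ => Finset.sum_congr rfl fun j _ => ?_
          rw [smul_mul_assoc, mul_smul_comm, smul_smul]
      _ = ∑ k ∈ R, ∑ j ∈ R, (c.t k a * c.t j b) • ∑ l ∈ C, (ww c u k l * ww c u j l) := by
          rw [Finset.sum_comm]
          refine Finset.sum_congr rfl fun k _ => ?_
          rw [Finset.sum_comm]
          refine Finset.sum_congr rfl fun j _ => ?_
          rw [Finset.smul_sum]
      _ = _ := by
          rw [Finset.sum_smul]
          refine Finset.sum_congr rfl fun k hk => ?_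
          rw [Finset.sum_eq_single k]
          · rw [e1 k hk k hk, if_pos rfl]
          · intro j hj hjk
            rw [e1 k hk j hj, if_neg (Ne.symm hjk), smul_zero]
          · intro h0; exact absurd hk h0
  have h2 : u a w * (∑ l ∈ C, Tl c u l a * Tl c u l b) * u b v =
      (∑ l ∈ C, c.t l w * c.t l v) • (u a w * u b v) := by
    rw [Finset.mul_sum, Finset.sum_mul, Finset.sum_smul]
    refine Finset.sum_congr rfl fun l _ => ?_
    unfold Tl
    calc u a w * (al u (c.t l) a * al u (c.t l) b) * u b v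
        = (u a w * al u (c.t l) a) * (al u (c.t l) b * u b v) := by simp only [mul_assoc]
      _ = _ := by rw [h.q.u_mul_al, h.q.al_mul_u, smul_mul_assoc, mul_smul_comm, smul_smul]
  rw [key, mul_smul_comm, mul_one, smul_mul_assoc, ← sub_eq_zero, ← sub_smul] at h2
  rcases smul_eq_zero.1 h2 with h3 | h3
  · linarith
  · exact absurd h3 hne

end QC

end

end Pool.Agent.L0h60.QS
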