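import Pool.Agent.L0h60.QS.Sep

/-! Central projections indexed by directions and classes of directions. -/

set_option autoImplicit false
set_option linter.unusedSectionVars false
set_option linter.unusedVariables false

namespace Pool.Agent.L0h60.QS

open Pool.Agent.H741.QS Pool.Agent.H767R3.DS

section

variable {J K : Type} [Fintype J] [DecidableEq J] [Fintype K] [DecidableEq K] {P : J → Type}
  [∀ k, Fintype (P k)]

/-- the properties of the family of projections -/
structure Fam {A : Type} [Ring A] [StarRing A] (G : ∀ k, SimpleGraph (P k))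
    (u : (∀ k, P k) → (∀ k, P k) → A) (π : J → K) (k : J) (F : K → A) : Prop where
  star_eq : ∀ α, star (F α) = F α
  idem : ∀ α, F α * F α = F α
  comm : ∀ α x, (∀ a w, x * u a w = u a w * x) → x * F α = F α * x
  sum : ∑ α, F α = 1
  cent : ∀ α a w, F α * u a w = u a w * F α
  dir : ∀ α a b w v, DirAdj G k a b → (∀ l, π l = α → ¬ DirAdj G l w v) →
    u a w * u b v * F α = 0

theorem fam_one (G : ∀ k, SimpleGraph (P k)) (hG : ∀ k, (G k).Connected)
    (hP : ∀ k, 2 ≤ Fintype.card (P k)) (hprime : ∀ k, PrimeGraph (G k))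
    {A : Type} [CStarAlgebra A] (u : (∀ k, P k) → (∀ k, P k) → A)
    (h : QIso (boxPi G) (boxPi G) u) (π : J → K) (k : J) (hk : Fintype.card (P k) ≠ 2) :
    ∃ F : K → A, Fam G u π k F := by
  have hB : ∀ x : A, star x * x = 0 → x = 0 :=
    fun x hx => CStarRing.star_mul_self_eq_zero_iff x |>.1 hx
  obtain ⟨E, e1, e2, e3, e4, e5, e6, e7⟩ := exists_central_k G hG hP hB u h k (hprime k)
    (noK2_of_card (hprime k) (hP k) hk)
  have horth : ∀ l l', l ≠ l' → E l * E l' = 0 := by
    intro l l' hll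
    obtain ⟨o⟩ := (boxPi_connected G hG).nonempty
    obtain ⟨b, hb⟩ := exists_nbr G hG hP k o
    have h1 : ∀ w v, u o w * u b v * (E l * E l') = 0 := by
      intro w v
      by_cases h2 : DirAdj G l w v
      · have h3 : ¬ DirAdj G l' w v := by
          rintro ⟨h4, h5⟩
          have h6 := h5 l hll
          have h7 := h2.1
          rw [h6] at h7
          exact h7.ne rfl
        rw [← mul_assoc, e6 l o b w v hb h2, e7 l' o b w v hb h3]
      · rw [← mul_assoc, e7 l o b w v hb h2, zero_mul]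
    calc E l * E l' = (∑ w, u o w) * (∑ v, u b v) * (E l * E l') := by
          rw [h.rowSum, h.rowSum, one_mul, one_mul]
      _ = 0 := by
          rw [Finset.sum_mul_sum, Finset.sum_mul]
          refine Finset.sum_eq_zero fun w _ => ?_
          rw [Finset.sum_mul]
          exact Finset.sum_eq_zero fun v _ => h1 w v
  refine ⟨fun α => ∑ l ∈ Finset.univ.filter (fun l => π l = α), E l, ?_, ?_, ?_, ?_, ?_, ?_⟩
  · intro α
    rw [star_sum]
    exact Finset.sum_congr rfl fun l _ => e1 l
  · intro α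
    rw [Finset.sum_mul_sum]
    refine Finset.sum_congr rfl fun l hl => ?_
    rw [Finset.sum_eq_single l]
    · exact e2 l
    · intro l' _ hl'
      exact horth l l' (Ne.symm hl')
    · intro h0; exact absurd hl h0
  · intro α x hx
    rw [Finset.mul_sum, Finset.sum_mul]
    exact Finset.sum_congr rfl fun l _ => e3 l x hx
  · rw [← e4]
    exact Finset.sum_fiberwise _ _ _
  · intro α a w
    rw [Finset.mul_sum, Finset.sum_mul]
    exact Finset.sum_congr rfl fun l _ => e5 l a w
  · intro α a b w v hab hn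
    rw [Finset.mul_sum]
    refine Finset.sum_eq_zero fun l hl => ?_
    exact e7 l a b w v hab (hn l (Finset.mem_filter.1 hl).2)

theorem fam_two (G : ∀ k, SimpleGraph (P k)) (hG : ∀ k, (G k).Connected)
    (hP : ∀ k, 2 ≤ Fintype.card (P k)) (hprime : ∀ k, PrimeGraph (G k))
    {A : Type} [CStarAlgebra A] (u : (∀ k, P k) → (∀ k, P k) → A)
    (h : QIso (boxPi G) (boxPi G) u) (H : SimpleGraph (∀ k, P k)) (hH : QIso H H u)
    (π : J → K) (hπ : ∀ α, Spl H.Adj (π ⁻¹' {α}))
    (halt : ∀ l : I2 P, ¬ ((∀ w v, H.Adj w v → (cubeP P).t l w = (cubeP P).t l v) ∨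
      (∀ w v, H.Adj w v → (cubeP P).t l w = - (cubeP P).t l v) ∨
      (∀ w v, H.Adj w v → H.Adj w ((cubeP P).F l v))))
    (k : J) (hk : Fintype.card (P k) = 2) :
    ∃ F : K → A, Fam G u π k F := by
  classical
  have hB : ∀ x : A, star x * x = 0 → x = 0 :=
    fun x hx => CStarRing.star_mul_self_eq_zero_iff x |>.1 hx
  have : Nonempty (∀ k, P k) := (boxPi_connected G hG).nonempty
  have hq := qc_of G hG hP hprime hB u h
  set c := cubeP P with hc
  obtain ⟨W, hW⟩ : ∃ W : I2 P → A, W = ww c u ⟨k, hk⟩ := ⟨_, rfl⟩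
  have hsep : ∀ l m : I2 P, π l.1 ≠ π m.1 → W l * W m = 0 := by
    intro l m hlm
    rw [hW]
    exact sep G hG hP hprime u h H hH (π ⁻¹' {π l.1}) (hπ _) halt ⟨k, hk⟩ l m rfl
      (fun h0 => hlm h0.symm)
  have hcw : ∀ l (x : A), (∀ a w, x * u a w = u a w * x) → x * W l = W l * x := by
    intro l x hx
    have o : ∀ k, P k := Classical.arbitrary _
    have h1 : ∀ a, x * Tl c u l a = Tl c u l a * x := by
      intro a
      unfold Tl al
      rw [Finset.mul_sum, Finset.sum_mul]
      refine Finset.sum_congr rfl fun w _ => ?_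
      rw [mul_smul_comm, hx, smul_mul_assoc]
    rw [hW, hq.ww_eq ⟨k, hk⟩ l o, mul_smul_comm, mul_sub, h1, h1, ← sub_mul, smul_mul_assoc]
  have horth : ∀ α β, α ≠ β →
      (∑ l ∈ Finset.univ.filter (fun l : I2 P => π l.1 = α), W l * W l) *
      (∑ l ∈ Finset.univ.filter (fun l : I2 P => π l.1 = β), W l * W l) = 0 := by
    intro α β hαβ
    rw [Finset.sum_mul_sum]
    refine Finset.sum_eq_zero fun l hl => Finset.sum_eq_zero fun m hm => ?_
    have h1 : W l * W m = 0 := hsep l m (by
      rw [(Finset.mem_filter.1 hl).2, (Finset.mem_filter.1 hm).2]; exact hαβ)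
    calc W l * W l * (W m * W m) = W l * (W l * W m) * W m := by simp only [mul_assoc]
      _ = 0 := by rw [h1, mul_zero, zero_mul]
  have hsum : ∑ α, ∑ l ∈ Finset.univ.filter (fun l : I2 P => π l.1 = α), W l * W l = 1 := by
    rw [Finset.sum_fiberwise, hW]
    exact hq.row_sq ⟨k, hk⟩
  refine ⟨fun α => ∑ l ∈ Finset.univ.filter (fun l : I2 P => π l.1 = α), W l * W l,
    ?_, ?_, ?_, hsum, ?_, ?_⟩
  · intro α
    rw [star_sum]
    refine Finset.sum_congr rfl fun l _ => ?_
    rw [star_mul, hW, hq.star_ww]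
  · intro α
    have h1 : ∀ β, (∑ l ∈ Finset.univ.filter (fun l : I2 P => π l.1 = α), W l * W l) *
      (∑ l ∈ Finset.univ.filter (fun l : I2 P => π l.1 = β), W l * W l) =
        if β = α then (∑ l ∈ Finset.univ.filter (fun l : I2 P => π l.1 = α), W l * W l) *
      (∑ l ∈ Finset.univ.filter (fun l : I2 P => π l.1 = α), W l * W l) else 0 := by
      intro β
      split_ifs with hβ
      · rw [hβ]
      · exact horth α β (Ne.symm hβ)
    have h2 : (∑ l ∈ Finset.univ.filter (fun l : I2 P => π l.1 = α), W l * W l) *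
      (∑ β, ∑ l ∈ Finset.univ.filter (fun l : I2 P => π l.1 = β), W l * W l) =
      (∑ l ∈ Finset.univ.filter (fun l : I2 P => π l.1 = α), W l * W l) *
      (∑ l ∈ Finset.univ.filter (fun l : I2 P => π l.1 = α), W l * W l) := by
      rw [Finset.mul_sum, Finset.sum_congr rfl fun β _ => h1 β, Finset.sum_ite_eq',
        if_pos (Finset.mem_univ _)]
    rw [← h2, hsum, mul_one]
  · intro α x hx
    rw [Finset.mul_sum, Finset.sum_mul]
    refine Finset.sum_congr rfl fun l _ => ?_
    rw [← mul_assoc, hcw l x hx, mul_assoc, hcw l x hx, mul_assoc]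
  · intro α a w
    rw [Finset.mul_sum, Finset.sum_mul]
    refine Finset.sum_congr rfl fun l _ => ?_
    rw [hW]
    exact hq.sq_central ⟨k, hk⟩ l a w
  · intro α a b w v hab hn
    by_cases h0 : u a w * u b v = 0
    · rw [h0, zero_mul]
    have hb : b = c.F ⟨k, hk⟩ a := (dirAdj_iff_F G hG ⟨k, hk⟩ a b).1 hab
    rw [hb] at h0 ⊢
    obtain ⟨m, hm⟩ := hq.h1 _ _ _ _ h0
    have hmα : π m.1 ≠ α := by
      intro h1
      exact hn m.1 h1 ((dirAdj_iff_F G hG m w v).2 hm)
    rw [hm]
    have h1 : u a w * u (c.F ⟨k, hk⟩ a) (c.F m w) =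
        (c.t ⟨k, hk⟩ a * c.t m w) • (u a w * W m) := by
      rw [hW, hq.u_mul_ww, smul_smul]
      have e1 := c.t_sq ⟨k, hk⟩ a
      have e2 := c.t_sq m w
      have : c.t ⟨k, hk⟩ a * c.t m w * (c.t ⟨k, hk⟩ a * c.t m w) = 1 := by
        calc c.t ⟨k, hk⟩ a * c.t m w * (c.t ⟨k, hk⟩ a * c.t m w)
            = (c.t ⟨k, hk⟩ a * c.t ⟨k, hk⟩ a) * (c.t m w * c.t m w) := by ring
          _ = 1 := by rw [e1, e2, one_mul]
      rw [this, one_smul]
    rw [h1, smul_mul_assoc, Finset.mul_sum]
    have h2 : ∑ l ∈ Finset.univ.filter (fun l : I2 P => π l.1 = α), u a w * W m * (W l * W l) =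
        0 := by
      refine Finset.sum_eq_zero fun l hl => ?_
      have h3 : W m * W l = 0 := hsep m l (by rw [(Finset.mem_filter.1 hl).2]; exact hmα)
      calc u a w * W m * (W l * W l) = u a w * (W m * W l) * W l := by simp only [mul_assoc]
        _ = 0 := by rw [h3, mul_zero, zero_mul]
    rw [h2, smul_zero]

/-- selection of a projection -/
theorem exists_pure' {A : Type} [Ring A] [StarRing A]
    (E : J → K → A) (h1 : ∀ k l, star (E k l) = E k l) (h2 : ∀ k l, E k l * E k l = E k l)
    (h3 : ∀ k l k' l', E k l * E k' l' = E k' l' * E k l) (h4 : ∀ k, ∑ l, E k l = 1)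
    (U : Set A) (h5 : ∀ k l, ∀ y ∈ U, E k l * y = y * E k l) (x : A) (hx : x ≠ 0) (π : J → K) :
    ∃ (e : A) (σ : J → K), star e = e ∧ e * e = e ∧ (∀ y ∈ U, e * y = y * e) ∧
      (∀ k, e * E k (σ k) = e) ∧ e * x ≠ 0 := by
  have key : ∀ S : Finset J, ∃ (e : A) (σ : J → K), star e = e ∧ e * e = e ∧
      (∀ y ∈ U, e * y = y * e) ∧ (∀ k l, e * E k l = E k l * e) ∧
      (∀ k ∈ S, e * E k (σ k) = e) ∧ e * x ≠ 0 := by
    intro S
    induction S using Finset.induction_on with
    | empty =>
      refine ⟨1, π, star_one A, one_mul 1, fun y _ => by rw [one_mul, mul_one],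
        fun k l => by rw [one_mul, mul_one], fun k hk => absurd hk (Finset.notMem_empty k), ?_⟩
      rwa [one_mul]
    | insert k S hk ih =>
      obtain ⟨e, σ, he1, he2, he3, he4, he5, he6⟩ := ih
      have hs : ∑ l, e * E k l * x = e * x := by
        rw [← Finset.sum_mul, ← Finset.mul_sum, h4, mul_one]
      have hne : ∑ l, e * E k l * x ≠ 0 := by rw [hs]; exact he6
      obtain ⟨l, -, hl⟩ := Finset.exists_ne_zero_of_sum_ne_zero hne
      refine ⟨e * E k l, Function.update σ k l, ?_, ?_, ?_, ?_, ?_, hl⟩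
      · rw [star_mul, h1, he1, he4]
      · calc e * E k l * (e * E k l) = e * (E k l * e) * E k l := by simp only [mul_assoc]
          _ = e * (e * E k l) * E k l := by rw [he4]
          _ = (e * e) * (E k l * E k l) := by simp only [mul_assoc]
          _ = e * E k l := by rw [he2, h2]
      · intro y hy
        calc e * E k l * y = e * (E k l * y) := mul_assoc _ _ _
          _ = e * (y * E k l) := by rw [h5 k l y hy]
          _ = (e * y) * E k l := (mul_assoc _ _ _).symm
          _ = (y * e) * E k l := by rw [he3 y hy]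
          _ = y * (e * E k l) := mul_assoc _ _ _
      · intro k' l'
        calc e * E k l * E k' l' = e * (E k l * E k' l') := mul_assoc _ _ _
          _ = e * (E k' l' * E k l) := by rw [h3]
          _ = (e * E k' l') * E k l := (mul_assoc _ _ _).symm
          _ = (E k' l' * e) * E k l := by rw [he4]
          _ = E k' l' * (e * E k l) := mul_assoc _ _ _
      · intro k' hk'
        by_cases hkk : k' = k
        · subst hkk
          rw [Function.update_self, mul_assoc, h2]
        · have hK : k' ∈ S := by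
            rcases Finset.mem_insert.1 hk' with h | h
            · exact absurd h hkk
            · exact h
          rw [Function.update_of_ne hkk]
          calc e * E k l * E k' (σ k') = e * (E k l * E k' (σ k')) := mul_assoc _ _ _
            _ = e * (E k' (σ k') * E k l) := by rw [h3]
            _ = (e * E k' (σ k')) * E k l := (mul_assoc _ _ _).symm
            _ = e * E k l := by rw [he5 k' hK]
  obtain ⟨e, σ, he1, he2, he3, -, he5, he6⟩ := key Finset.univ
  exact ⟨e, σ, he1, he2, he3, fun k => he5 k (Finset.mem_univ k), he6⟩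

/-- the coarse permutation of directions -/
theorem coarse_exists (G : ∀ k, SimpleGraph (P k)) (hG : ∀ k, (G k).Connected)
    (hP : ∀ k, 2 ≤ Fintype.card (P k)) (hprime : ∀ k, PrimeGraph (G k))
    {A : Type} [CStarAlgebra A] (u : (∀ k, P k) → (∀ k, P k) → A)
    (h : QIso (boxPi G) (boxPi G) u) (H : SimpleGraph (∀ k, P k)) (hH : QIso H H u)
    (π : J → K) (hπ : ∀ α, Spl H.Adj (π ⁻¹' {α}))
    (halt : ∀ l : I2 P, ¬ ((∀ w v, H.Adj w v → (cubeP P).t l w = (cubeP P).t l v) ∨
      (∀ w v, H.Adj w v → (cubeP P).t l w = - (cubeP P).t l v) ∨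
      (∀ w v, H.Adj w v → H.Adj w ((cubeP P).F l v))))
    (x : A) (hx : x ≠ 0) :
    ∃ (e : A) (σ : J → K), star e = e ∧ e * e = e ∧ (∀ a w, e * u a w = u a w * e) ∧
      e * x ≠ 0 ∧ (∀ k a b w v, DirAdj G k a b → (∀ l, π l = σ k → ¬ DirAdj G l w v) →
        u a w * u b v * e = 0) := by
  have hex : ∀ k, ∃ F : K → A, Fam G u π k F := by
    intro k
    by_cases hk : Fintype.card (P k) = 2
    · exact fam_two G hG hP hprime u h H hH π hπ halt k hk
    · exact fam_one G hG hP hprime u h π k hk
  choose E hE using hex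
  obtain ⟨e, σ, he1, he2, he3, he4, he5⟩ := exists_pure' E (fun k => (hE k).star_eq)
    (fun k => (hE k).idem)
    (fun k l k' l' => (hE k').comm l' (E k l) ((hE k).cent l))
    (fun k => (hE k).sum)
    (Set.range (fun p : (∀ k, P k) × (∀ k, P k) => u p.1 p.2))
    (by rintro k l _ ⟨p, rfl⟩; exact (hE k).cent l p.1 p.2) x hx π
  refine ⟨e, σ, he1, he2, fun a w => he3 _ ⟨(a, w), rfl⟩, he5, ?_⟩
  intro k a b w v hab hn
  have hEe : E k (σ k) * e = e := by
    have h := congrArg star (he4 k)
    rwa [star_mul, he1, (hE k).star_eq] at h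
  rw [← hEe, ← mul_assoc, (hE k).dir (σ k) a b w v hab hn, zero_mul]

end

end Pool.Agent.L0h60.QS
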