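import Pool.Agent.Helper741.QSym.Basic

/-! Magic unitaries that preserve a family of coordinates with two values: the matrix `w`. -/

set_option autoImplicit false
set_option linter.unusedSectionVars false

namespace Pool.Agent.L0h60.QS

open Pool.Agent.H741.QS

/-- A family of sign coordinates on `V` together with the flips. -/
structure Cube (V I : Type) [DecidableEq I] where
  fs : Finset I → V → V
  t : I → V → ℝ
  fs_empty : ∀ a, fs ∅ a = a
  fs_fs : ∀ S S' a, fs S (fs S' a) = fs (symmDiff S S') a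
  t_fs : ∀ i S a, t i (fs S a) = if i ∈ S then - t i a else t i a
  t_sq : ∀ i a, t i a * t i a = 1

namespace Cube

variable {V I : Type} [DecidableEq I] (c : Cube V I)

/-- one flip -/
def F (i : I) (a : V) : V := c.fs {i} a

theorem F_F (i : I) (a : V) : c.F i (c.F i a) = a := by
  unfold F
  rw [c.fs_fs, symmDiff_self]
  exact c.fs_empty a

theorem F_comm (i j : I) (a : V) : c.F i (c.F j a) = c.F j (c.F i a) := by
  unfold F
  rw [c.fs_fs, c.fs_fs, symmDiff_comm]

theorem t_F_self (i : I) (a : V) : c.t i (c.F i a) = - c.t i a := by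
  unfold F
  rw [c.t_fs, if_pos (Finset.mem_singleton_self i)]

theorem t_F_ne {i j : I} (h : i ≠ j) (a : V) : c.t i (c.F j a) = c.t i a := by
  unfold F
  rw [c.t_fs, if_neg (by simpa using h)]

theorem t_ne_zero (i : I) (a : V) : c.t i a ≠ 0 := by
  intro h
  have := c.t_sq i a
  rw [h] at this
  simp at this

theorem t_F (i j : I) (a : V) : c.t i (c.F j a) = (if i = j then -1 else 1) * c.t i a := by
  by_cases h : i = j
  · subst h
    rw [c.t_F_self, if_pos rfl]; ring
  · rw [c.t_F_ne h, if_neg h, one_mul]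

theorem F_inj {i j : I} {a : V} (h : c.F i a = c.F j a) : i = j := by
  by_contra hne
  have h1 := congrArg (c.t i) h
  rw [c.t_F_self, c.t_F_ne hne] at h1
  exact c.t_ne_zero i a (by linarith)

theorem F_eq_iff (i : I) (a b : V) : c.F i a = b ↔ a = c.F i b := by
  constructor
  · rintro rfl; rw [c.F_F]
  · rintro rfl; rw [c.F_F]

theorem F_bij (i : I) : Function.Bijective (c.F i) :=
  Function.Involutive.bijective (c.F_F i)

theorem F_F_ne {m m' : I} (h : m ≠ m') (a : V) : c.F m' (c.F m a) ≠ a := by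
  intro h1
  have h2 := congrArg (c.t m) h1
  rw [c.t_F_ne h, c.t_F_self] at h2
  exact c.t_ne_zero m a (by linarith)

theorem F_three {p p' m m' : I} (h : m ≠ m') {a : V} (h1 : c.F p a = c.F p' (c.F m' (c.F m a))) :
    p = m ∨ p = m' := by
  by_contra hcon
  push Not at hcon
  obtain ⟨hm, hm'⟩ := hcon
  by_cases hp : p = p'
  · subst hp
    have h2 := (c.F_bij p).1 h1
    exact c.F_F_ne h a h2.symm
  · have h2 := congrArg (c.t p) h1
    rw [c.t_F_self, c.t_F_ne hp, c.t_F_ne hm', c.t_F_ne hm] at h2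
    exact c.t_ne_zero p a (by linarith)

end Cube

section

variable {V I A : Type} [Fintype V] [Fintype I] [DecidableEq I]
  [Ring A] [StarRing A] [Algebra ℝ A] [StarModule ℝ A]

/-- a magic unitary that preserves the coordinates -/
structure QC (c : Cube V I) (G : SimpleGraph V) (u : V → V → A) : Prop where
  q : QIso G G u
  h1 : ∀ a w i v, u a w * u (c.F i a) v ≠ 0 → ∃ l, v = c.F l w
  h1' : ∀ a w b l, u a w * u b (c.F l w) ≠ 0 → ∃ i, b = c.F i a
  h2 : ∀ a b w v, (∀ i, c.t i a = c.t i b) → u a w * u b v ≠ 0 → ∀ l, c.t l w = c.t l v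
  h2' : ∀ a b w v, (∀ l, c.t l w = c.t l v) → u a w * u b v ≠ 0 → ∀ i, c.t i a = c.t i b

variable {c : Cube V I} {G : SimpleGraph V} {u : V → V → A}

theorem QC.transpose (h : QC c G u) : QC c G (fun w a => u a w) where
  q := h.q.transpose
  h1 := by
    intro a w i v hne
    exact h.h1' w a v i hne
  h1' := by
    intro a w b l hne
    exact h.h1 w a l b hne
  h2 := by
    intro a b w v hab hne
    exact h.h2' w v a b hab hne
  h2' := by
    intro a b w v hwv hne
    exact h.h2 w v a b hwv hne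

/-- the sign function of the coordinate `l`, transported by `u` -/
noncomputable def Tl (c : Cube V I) (u : V → V → A) (l : I) (a : V) : A := al u (c.t l) a

namespace QC

theorem star_Tl (h : QC c G u) (l : I) (a : V) : star (Tl c u l a) = Tl c u l a :=
  h.q.star_al _ _

theorem Tl_comm (h : QC c G u) (l m : I) (a : V) :
    Tl c u l a * Tl c u m a = Tl c u m a * Tl c u l a :=
  h.q.al_comm _ _ _

theorem Tl_sq (h : QC c G u) (l : I) (a : V) : Tl c u l a * Tl c u l a = 1 := by
  apply h.q.eq_of a a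
  intro w v
  have e1 : u a w * (Tl c u l a * Tl c u l a) * u a v = c.t l w • (c.t l v • (u a w * u a v)) := by
    unfold Tl
    calc u a w * (al u (c.t l) a * al u (c.t l) a) * u a v
        = (u a w * al u (c.t l) a) * (al u (c.t l) a * u a v) := by simp only [mul_assoc]
      _ = _ := by rw [h.q.u_mul_al, h.q.al_mul_u, smul_mul_assoc, mul_smul_comm]
  rw [e1, mul_one, smul_smul]
  by_cases hwv : w = v
  · subst hwv
    rw [c.t_sq, one_smul]
  · rw [h.q.rowOrth a w v hwv, smul_zero]

theorem sum_F (h : QC c G u) (a v : V) : ∑ i, u (c.F i a) v = ∑ m, u a (c.F m v) := by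
  have e1 : ∀ i, u (c.F i a) v = ∑ m, u a (c.F m v) * u (c.F i a) v := by
    intro i
    calc u (c.F i a) v = ∑ w, u a w * u (c.F i a) v := by
          rw [← Finset.sum_mul, h.q.rowSum, one_mul]
      _ = ∑ m, u a (c.F m v) * u (c.F i a) v := by
          symm
          apply Fintype.sum_of_injective (fun m => c.F m v) (fun m m' hm => c.F_inj hm)
          · intro w hw
            by_contra hne
            obtain ⟨l, hl⟩ := h.h1 a w i v hne
            apply hw
            exact ⟨l, by simp only [hl, c.F_F]⟩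
          · intro m; rfl
  have e2 : ∀ m, u a (c.F m v) = ∑ i, u a (c.F m v) * u (c.F i a) v := by
    intro m
    calc u a (c.F m v) = ∑ b, u a (c.F m v) * u b v := by
          rw [← Finset.mul_sum, h.q.colSum, mul_one]
      _ = ∑ i, u a (c.F m v) * u (c.F i a) v := by
          symm
          apply Fintype.sum_of_injective (fun i => c.F i a) (fun m m' hm => c.F_inj hm)
          · intro b hb
            by_contra hne
            have hne' : u a (c.F m v) * u b (c.F m (c.F m v)) ≠ 0 := by rwa [c.F_F]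
            obtain ⟨i, hi⟩ := h.h1' a _ b m hne'
            exact hb ⟨i, hi.symm⟩
          · intro i; rfl
  rw [Finset.sum_congr rfl fun i _ => e1 i, Finset.sum_comm]
  exact (Finset.sum_congr rfl fun m _ => e2 m).symm

theorem sum_Tl (h : QC c G u) (l : I) (a : V) :
    ∑ i, Tl c u l (c.F i a) = ((Fintype.card I : ℝ) - 2) • Tl c u l a := by
  unfold Tl al
  calc ∑ i, ∑ v, c.t l v • u (c.F i a) v = ∑ v, c.t l v • ∑ i, u (c.F i a) v := by
        rw [Finset.sum_comm]
        exact Finset.sum_congr rfl fun v _ => (Finset.smul_sum).symm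
    _ = ∑ v, c.t l v • ∑ m, u a (c.F m v) := by simp only [h.sum_F]
    _ = ∑ m, ∑ v, c.t l v • u a (c.F m v) := by
        rw [Finset.sum_comm]
        exact Finset.sum_congr rfl fun v _ => Finset.smul_sum
    _ = ∑ m, ∑ v, c.t l (c.F m v) • u a v := by
        refine Finset.sum_congr rfl fun m _ => ?_
        refine Fintype.sum_bijective (c.F m) (c.F_bij m) _ _ fun v => ?_
        rw [c.F_F]
    _ = ∑ m, ∑ v, ((if l = m then -1 else 1) * c.t l v) • u a v := by simp only [c.t_F]
    _ = ∑ m : I, (if l = m then (-1 : ℝ) else 1) • ∑ v, c.t l v • u a v := by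
        refine Finset.sum_congr rfl fun m _ => ?_
        rw [Finset.smul_sum]
        exact Finset.sum_congr rfl fun v _ => mul_smul _ _ _
    _ = _ := by
        rw [← Finset.sum_smul]
        congr 1
        have : ∀ m : I, (if l = m then (-1 : ℝ) else 1) = 1 - 2 * (if l = m then 1 else 0) := by
          intro m; split_ifs <;> ring
        simp only [this, Finset.sum_sub_distrib, ← Finset.mul_sum]
        simp

theorem exists_mid (h : QC c G u) {b b' w v : V} {j k : I} (hb : b' = c.F j (c.F k b))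
    (hX : u b w * u b' v ≠ 0) : ∃ m m', v = c.F m' (c.F m w) := by
  have h1 : u b w * u b' v = ∑ z, u b w * u (c.F k b) z * u b' v := by
    rw [← Finset.sum_mul, ← Finset.mul_sum, h.q.rowSum, mul_one]
  rw [h1] at hX
  obtain ⟨z, -, hz⟩ := Finset.exists_ne_zero_of_sum_ne_zero hX
  have h2 : u b w * u (c.F k b) z ≠ 0 := fun h0 => hz (by rw [h0, zero_mul])
  have h3 : u (c.F k b) z * u b' v ≠ 0 := fun h0 => hz (by rw [mul_assoc, h0, mul_zero])
  obtain ⟨m, hm⟩ := h.h1 _ _ _ _ h2
  subst hb
  obtain ⟨m', hm'⟩ := h.h1 _ _ _ _ h3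
  exact ⟨m, m', by rw [hm', hm]⟩

/-- second differences vanish -/
theorem second_sum (h : QC c G u) (l : I) (b : V) {j k : I} (hjk : j ≠ k) :
    Tl c u l (c.F k b) + Tl c u l (c.F j b) = Tl c u l b + Tl c u l (c.F j (c.F k b)) := by
  classical
  apply h.q.eq_of b (c.F j (c.F k b))
  intro w v
  have hR : u b w * (Tl c u l b + Tl c u l (c.F j (c.F k b))) * u (c.F j (c.F k b)) v =
      (c.t l w + c.t l v) • (u b w * u (c.F j (c.F k b)) v) := by
    unfold Tl
    rw [mul_add, add_mul, h.q.u_mul_al, mul_assoc, h.q.al_mul_u, mul_smul_comm, smul_mul_assoc,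
      add_smul]
  have hkey : ∀ z, u b w * (u (c.F k b) z + u (c.F j b) z) * u (c.F j (c.F k b)) v =
      if (∃ m, z = c.F m w) ∧ (∃ m', z = c.F m' v) then u b w * u (c.F j (c.F k b)) v else 0 := by
    intro z
    split_ifs with hz
    · obtain ⟨⟨m, hm⟩, ⟨m', hm'⟩⟩ := hz
      have e1 : u b w * u (c.F j (c.F k b)) v =
          ∑ e, u b w * u e z * u (c.F j (c.F k b)) v := by
        rw [← Finset.sum_mul, ← Finset.mul_sum, h.q.colSum, mul_one]
      have hne : c.F k b ≠ c.F j b := fun h0 => hjk (c.F_inj h0).symm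
      rw [e1, ← Finset.sum_subset (Finset.subset_univ {c.F k b, c.F j b}), Finset.sum_pair hne,
        ← add_mul, ← mul_add]
      intro e _ he
      by_contra h0
      have h2 : u b w * u e z ≠ 0 := fun h1 => h0 (by rw [h1, zero_mul])
      have h3 : u e z * u (c.F j (c.F k b)) v ≠ 0 := fun h1 => h0 (by rw [mul_assoc, h1, mul_zero])
      rw [hm] at h2
      obtain ⟨i, hi⟩ := h.h1' _ _ _ _ h2
      have hv : v = c.F m' z := by rw [hm', c.F_F]
      rw [hv] at h3
      obtain ⟨i', hi'⟩ := h.h1' _ _ _ _ h3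
      have h4 : c.F i b = c.F i' (c.F j (c.F k b)) := by rw [hi', c.F_F, hi]
      apply he
      rw [Finset.mem_insert, Finset.mem_singleton, hi]
      rcases c.F_three (Ne.symm hjk) h4 with h5 | h5
      · left; rw [h5]
      · right; rw [h5]
    · by_contra h0
      apply hz
      have h1 : u b w * u (c.F k b) z * u (c.F j (c.F k b)) v ≠ 0 ∨
          u b w * u (c.F j b) z * u (c.F j (c.F k b)) v ≠ 0 := by
        by_contra hcon
        push Not at hcon
        exact h0 (by rw [mul_add, add_mul, hcon.1, hcon.2, add_zero])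
      rcases h1 with h1 | h1
      · have h2 : u b w * u (c.F k b) z ≠ 0 := fun h0 => h1 (by rw [h0, zero_mul])
        have h3 : u (c.F k b) z * u (c.F j (c.F k b)) v ≠ 0 :=
          fun h0 => h1 (by rw [mul_assoc, h0, mul_zero])
        obtain ⟨m, hm⟩ := h.h1 _ _ _ _ h2
        obtain ⟨m', hm'⟩ := h.h1 _ _ _ _ h3
        exact ⟨⟨m, hm⟩, ⟨m', by rw [hm', c.F_F]⟩⟩
      · have h2 : u b w * u (c.F j b) z ≠ 0 := fun h0 => h1 (by rw [h0, zero_mul])
        have h3 : u (c.F j b) z * u (c.F k (c.F j b)) v ≠ 0 := by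
          rw [c.F_comm k j]
          exact fun h0 => h1 (by rw [mul_assoc, h0, mul_zero])
        obtain ⟨m, hm⟩ := h.h1 _ _ _ _ h2
        obtain ⟨m', hm'⟩ := h.h1 _ _ _ _ h3
        exact ⟨⟨m, hm⟩, ⟨m', by rw [hm', c.F_F]⟩⟩
  have hL : u b w * (Tl c u l (c.F k b) + Tl c u l (c.F j b)) * u (c.F j (c.F k b)) v =
      (∑ z, if (∃ m, z = c.F m w) ∧ (∃ m', z = c.F m' v) then c.t l z else 0) •
        (u b w * u (c.F j (c.F k b)) v) := by
    have e1 : Tl c u l (c.F k b) + Tl c u l (c.F j b) =
        ∑ z, c.t l z • (u (c.F k b) z + u (c.F j b) z) := by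
      simp only [Tl, al, smul_add, Finset.sum_add_distrib]
    rw [e1, Finset.mul_sum, Finset.sum_mul, Finset.sum_smul]
    refine Finset.sum_congr rfl fun z _ => ?_
    rw [mul_smul_comm, smul_mul_assoc, hkey]
    split_ifs <;> simp
  rw [hL, hR]
  by_cases hX : u b w * u (c.F j (c.F k b)) v = 0
  · rw [hX, smul_zero, smul_zero]
  congr 1
  obtain ⟨m, m', hv⟩ := h.exists_mid rfl hX
  have hmm : m ≠ m' := by
    rintro rfl
    rw [c.F_F] at hv
    subst hv
    exact hX (h.q.colOrth _ _ _ (fun h0 => c.F_F_ne (Ne.symm hjk) b h0.symm))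
  have hset : (Finset.univ.filter fun z => (∃ m, z = c.F m w) ∧ (∃ m', z = c.F m' v)) =
      {c.F m w, c.F m' w} := by
    ext z
    simp only [Finset.mem_filter, Finset.mem_univ, true_and, Finset.mem_insert,
      Finset.mem_singleton]
    constructor
    · rintro ⟨⟨p, hp⟩, ⟨p', hp'⟩⟩
      rw [hv] at hp'
      rw [hp] at hp' ⊢
      rcases c.F_three hmm hp' with h5 | h5
      · left; rw [h5]
      · right; rw [h5]
    · rintro (rfl | rfl)
      · exact ⟨⟨m, rfl⟩, ⟨m', by rw [hv, c.F_F]⟩⟩
      · exact ⟨⟨m', rfl⟩, ⟨m, by rw [hv, c.F_comm m' m, c.F_F]⟩⟩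
  rw [← Finset.sum_filter, hset, Finset.sum_pair (fun h0 => hmm (c.F_inj h0)), hv, c.t_F, c.t_F,
    c.t_F, c.t_F]
  by_cases e1 : l = m
  · have e2 : l ≠ m' := fun h0 => hmm (e1.symm.trans h0)
    rw [if_pos e1, if_neg e2]; ring
  · rw [if_neg e1]; ring

end QC

end

end Pool.Agent.L0h60.QS
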