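import Mathlib

/-! A product family of subsets that is a 2-design in each size is trivial. -/

set_option autoImplicit false
set_option linter.unusedSectionVars false

namespace Pool.Agent.L0h60.QS

variable {I : Type} [DecidableEq I]

theorem card_sup_pair (C : Finset I) {p q : I} (hp : p ∈ C) (hq : q ∈ C) (hpq : p ≠ q) (n : ℕ)
    (hn : 2 ≤ n) :
    (C.powerset.filter fun ρ => ρ.card = n ∧ p ∈ ρ ∧ q ∈ ρ).card =
      (C.card - 2).choose (n - 2) := by
  have h1 : ({p, q} : Finset I).card = 2 := Finset.card_pair hpq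
  have h2 : ({p, q} : Finset I) ⊆ C := by
    intro x hx
    rcases Finset.mem_insert.1 hx with h | h
    · rw [h]; exact hp
    · rw [Finset.mem_singleton.1 h]; exact hq
  have h3 : (C \ {p, q}).card = C.card - 2 := by
    rw [Finset.card_sdiff_of_subset h2, h1]
  rw [← h3, ← Finset.card_powersetCard]
  refine Finset.card_nbij' (fun ρ => ρ \ {p, q}) (fun τ => τ ∪ {p, q}) ?_ ?_ ?_ ?_
  · intro ρ hρ
    simp only [Finset.coe_filter, Finset.mem_powerset, Set.mem_ofPred_eq] at hρ
    obtain ⟨hρC, hρn, hρp, hρq⟩ := hρ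
    have hsub : ({p, q} : Finset I) ⊆ ρ := by
      intro x hx
      rcases Finset.mem_insert.1 hx with h | h
      · rw [h]; exact hρp
      · rw [Finset.mem_singleton.1 h]; exact hρq
    rw [Finset.mem_coe, Finset.mem_powersetCard]
    refine ⟨Finset.sdiff_subset_sdiff hρC (Finset.Subset.refl _), ?_⟩
    rw [Finset.card_sdiff_of_subset hsub, h1, hρn]
  · intro τ hτ
    rw [Finset.mem_coe, Finset.mem_powersetCard] at hτ
    obtain ⟨hτC, hτn⟩ := hτ
    have hdis : Disjoint τ {p, q} := by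
      rw [Finset.disjoint_left]
      intro x hx hx'
      exact (Finset.mem_sdiff.1 (hτC hx)).2 hx'
    simp only [Finset.coe_filter, Finset.mem_powerset, Set.mem_ofPred_eq]
    refine ⟨Finset.union_subset (hτC.trans Finset.sdiff_subset) h2, ?_, ?_, ?_⟩
    · rw [Finset.card_union_of_disjoint hdis, h1, hτn]; omega
    · exact Finset.mem_union_right _ (by simp)
    · exact Finset.mem_union_right _ (by simp)
  · intro ρ hρ
    simp only [Finset.coe_filter, Finset.mem_powerset, Set.mem_ofPred_eq] at hρ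
    obtain ⟨hρC, hρn, hρp, hρq⟩ := hρ
    apply Finset.sdiff_union_of_subset
    intro x hx
    rcases Finset.mem_insert.1 hx with h | h
    · rw [h]; exact hρp
    · rw [Finset.mem_singleton.1 h]; exact hρq
  · intro τ hτ
    rw [Finset.mem_coe, Finset.mem_powersetCard] at hτ
    obtain ⟨hτC, hτn⟩ := hτ
    show (τ ∪ {p, q}) \ {p, q} = τ
    rw [Finset.union_sdiff_right]
    apply Finset.sdiff_eq_self_of_disjoint
    rw [Finset.disjoint_left]
    intro x hx hx'
    exact (Finset.mem_sdiff.1 (hτC hx)).2 hx'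

/-- double counting -/
theorem double {X : Type} (T : Finset (Finset I)) (Pr : Finset X) (r : X → Finset I → Prop)
    [∀ x ρ, Decidable (r x ρ)] (e : ℕ) (he : ∀ x ∈ Pr, (T.filter fun ρ => r x ρ).card = e) :
    Pr.card * e = ∑ ρ ∈ T, (Pr.filter fun x => r x ρ).card := by
  calc Pr.card * e = ∑ x ∈ Pr, (T.filter fun ρ => r x ρ).card := by
        rw [Finset.sum_congr rfl he, Finset.sum_const, smul_eq_mul]
    _ = ∑ x ∈ Pr, ∑ ρ ∈ T, (if r x ρ then 1 else 0) :=
        Finset.sum_congr rfl fun x _ => Finset.card_filter _ _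
    _ = ∑ ρ ∈ T, ∑ x ∈ Pr, (if r x ρ then 1 else 0) := Finset.sum_comm
    _ = _ := Finset.sum_congr rfl fun ρ _ => (Finset.card_filter _ _).symm

theorem classify (C : Finset I) (D : I → Prop) [DecidablePred D] (T : Finset (Finset I))
    (hT : T ⊆ C.powerset) (hne : T.Nonempty)
    (hmix : ∀ ρ ∈ T, ∀ ρ' ∈ T, ρ.filter D ∪ ρ'.filter (fun i => ¬ D i) ∈ T)
    (h1 : ∀ m, ∀ l ∈ C, ∀ l' ∈ C, (T.filter fun ρ => ρ.card = m ∧ l ∈ ρ).card =
      (T.filter fun ρ => ρ.card = m ∧ l' ∈ ρ).card)
    (h2 : ∀ m, ∀ l ∈ C, ∀ l' ∈ C, l ≠ l' → ∀ p ∈ C, ∀ q ∈ C, p ≠ q →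
      (T.filter fun ρ => ρ.card = m ∧ l ∈ ρ ∧ l' ∈ ρ).card =
      (T.filter fun ρ => ρ.card = m ∧ p ∈ ρ ∧ q ∈ ρ).card)
    {l0 l1 : I} (hl0 : l0 ∈ C) (hD0 : D l0) (hl1 : l1 ∈ C) (hD1 : ¬ D l1) :
    T = {∅} ∨ T = {C} ∨ T = C.powerset := by
  have h01 : l0 ≠ l1 := by rintro rfl; exact hD1 hD0
  by_cases hemp : ∅ ∈ T
  · by_cases hall : ∀ ρ ∈ T, ρ = ∅
    · left
      ext ρ
      rw [Finset.mem_singleton]
      exact ⟨fun h => hall ρ h, fun h => by rw [h]; exact hemp⟩
    right; right
    push Not at hall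
    have hex : ((T.erase ∅).Nonempty) := by
      obtain ⟨ρ, hρ, hρ0⟩ := hall
      exact ⟨ρ, Finset.mem_erase.2 ⟨Finset.nonempty_iff_ne_empty.1 hρ0, hρ⟩⟩
    obtain ⟨ρ, hρ, hmin⟩ := Finset.exists_min_image (T.erase ∅) Finset.card hex
    obtain ⟨hρ0, hρT⟩ := Finset.mem_erase.1 hρ
    have hcross : ∀ τ ∈ T, τ.card = ρ.card → l0 ∈ τ → l1 ∈ τ → False := by
      intro τ hτ hc h0 h1'
      have h3 := hmix τ hτ ∅ hemp
      rw [Finset.filter_empty, Finset.union_empty] at h3
      have h4 : τ.filter D ≠ ∅ := by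
        intro h5
        have : l0 ∈ τ.filter D := Finset.mem_filter.2 ⟨h0, hD0⟩
        rw [h5] at this
        exact absurd this (Finset.notMem_empty _)
      have h5 := hmin _ (Finset.mem_erase.2 ⟨h4, h3⟩)
      have h6 : (τ.filter D).card < τ.card := by
        apply Finset.card_lt_card
        rw [Finset.ssubset_iff_of_subset (Finset.filter_subset _ _)]
        exact ⟨l1, h1', fun h7 => hD1 (Finset.mem_filter.1 h7).2⟩
      omega
    have hz : (T.filter fun τ => τ.card = ρ.card ∧ l0 ∈ τ ∧ l1 ∈ τ).card = 0 := by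
      rw [Finset.card_eq_zero, Finset.filter_eq_empty_iff]
      rintro τ hτ ⟨ha, hb, hc⟩
      exact hcross τ hτ ha hb hc
    have hcard : ρ.card = 1 := by
      by_contra hc
      have h3 : 0 < ρ.card := Finset.card_pos.2 (Finset.nonempty_iff_ne_empty.2 hρ0)
      have h4 : 1 < ρ.card := by omega
      obtain ⟨p, hp, q, hq, hpq⟩ := Finset.one_lt_card.1 h4
      have hρC := Finset.mem_powerset.1 (hT hρT)
      have h5 := h2 ρ.card l0 hl0 l1 hl1 h01 p (hρC hp) q (hρC hq) hpq
      rw [hz] at h5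
      have h6 := Finset.card_eq_zero.1 h5.symm
      rw [Finset.filter_eq_empty_iff] at h6
      exact h6 hρT ⟨rfl, hp, hq⟩
    have hsing : ∀ l ∈ C, {l} ∈ T := by
      intro l hl
      obtain ⟨x, hx⟩ := Finset.card_eq_one.1 hcard
      have hρC := Finset.mem_powerset.1 (hT hρT)
      have hxC : x ∈ C := hρC (by rw [hx]; exact Finset.mem_singleton_self x)
      have h3 := h1 1 x hxC l hl
      have h4 : 0 < (T.filter fun τ => τ.card = 1 ∧ x ∈ τ).card := by
        apply Finset.card_pos.2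
        exact ⟨ρ, Finset.mem_filter.2 ⟨hρT, hcard, by rw [hx]; exact Finset.mem_singleton_self x⟩⟩
      rw [h3] at h4
      obtain ⟨τ, hτ⟩ := Finset.card_pos.1 h4
      obtain ⟨hτT, hτ1, hτl⟩ := Finset.mem_filter.1 hτ
      obtain ⟨y, hy⟩ := Finset.card_eq_one.1 hτ1
      rw [hy, Finset.mem_singleton] at hτl
      rw [hτl, ← hy]; exact hτT
    have hfull : ∀ n, ∀ τ, τ ⊆ C → τ.card = n → τ ∈ T := by
      intro n
      induction n using Nat.strong_induction_on with
      | _ n ih =>
        intro τ hτ hτn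
        by_cases hn0 : n = 0
        · rw [hn0, Finset.card_eq_zero] at hτn
          rw [hτn]; exact hemp
        by_cases hn1 : n = 1
        · rw [hn1] at hτn
          obtain ⟨y, hy⟩ := Finset.card_eq_one.1 hτn
          rw [hy]
          exact hsing y (hτ (by rw [hy]; exact Finset.mem_singleton_self y))
        have hn2 : 2 ≤ n := by omega
        have hc : ∀ τ, τ ⊆ C → τ.card = n → l0 ∈ τ → l1 ∈ τ → τ ∈ T := by
          intro τ hτ hτn h0 h1'
          have ha : (τ.filter D).card < n := by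
            rw [← hτn]
            apply Finset.card_lt_card
            rw [Finset.ssubset_iff_of_subset (Finset.filter_subset _ _)]
            exact ⟨l1, h1', fun h7 => hD1 (Finset.mem_filter.1 h7).2⟩
          have hb : (τ.filter fun i => ¬ D i).card < n := by
            rw [← hτn]
            apply Finset.card_lt_card
            rw [Finset.ssubset_iff_of_subset (Finset.filter_subset _ _)]
            exact ⟨l0, h0, fun h7 => (Finset.mem_filter.1 h7).2 hD0⟩
          have hc := ih _ ha (τ.filter D) ((Finset.filter_subset _ _).trans hτ) rfl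
          have hd := ih _ hb (τ.filter fun i => ¬ D i) ((Finset.filter_subset _ _).trans hτ) rfl
          have he := hmix _ hc _ hd
          rw [Finset.filter_filter, Finset.filter_filter] at he
          simp only [and_self] at he
          rwa [Finset.filter_union_filter_not_eq] at he
        have h4 : 1 < τ.card := by omega
        obtain ⟨p, hp, q, hq, hpq⟩ := Finset.one_lt_card.1 h4
        have h5 := h2 n l0 hl0 l1 hl1 h01 p (hτ hp) q (hτ hq) hpq
        have h6 : (T.filter fun ρ => ρ.card = n ∧ l0 ∈ ρ ∧ l1 ∈ ρ) =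
            (C.powerset.filter fun ρ => ρ.card = n ∧ l0 ∈ ρ ∧ l1 ∈ ρ) := by
          ext σ
          simp only [Finset.mem_filter, Finset.mem_powerset]
          constructor
          · rintro ⟨ha, hb⟩; exact ⟨Finset.mem_powerset.1 (hT ha), hb⟩
          · rintro ⟨ha, hb⟩; exact ⟨hc σ ha hb.1 hb.2.1 hb.2.2, hb⟩
        rw [h6, card_sup_pair C hl0 hl1 h01 n hn2,
          ← card_sup_pair C (hτ hp) (hτ hq) hpq n hn2] at h5
        have h7 : (T.filter fun ρ => ρ.card = n ∧ p ∈ ρ ∧ q ∈ ρ) =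
            (C.powerset.filter fun ρ => ρ.card = n ∧ p ∈ ρ ∧ q ∈ ρ) := by
          apply Finset.eq_of_subset_of_card_le
          · intro σ hσ
            obtain ⟨ha, hb⟩ := Finset.mem_filter.1 hσ
            exact Finset.mem_filter.2 ⟨hT ha, hb⟩
          · exact h5.le
        have h8 : τ ∈ (C.powerset.filter fun ρ => ρ.card = n ∧ p ∈ ρ ∧ q ∈ ρ) :=
          Finset.mem_filter.2 ⟨Finset.mem_powerset.2 hτ, hτn, hp, hq⟩
        rw [← h7] at h8
        exact (Finset.mem_filter.1 h8).1
    ext τ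
    exact ⟨fun h => hT h, fun h => hfull _ τ (Finset.mem_powerset.1 h) rfl⟩
  · right; left
    obtain ⟨ρ, hρ, hmin⟩ := Finset.exists_min_image T Finset.card hne
    have hsplit : ∀ σ τ : Finset I, (σ.filter D ∪ τ.filter (fun i => ¬ D i)).card =
        (σ.filter D).card + (τ.filter fun i => ¬ D i).card := by
      intro σ τ
      apply Finset.card_union_of_disjoint
      rw [Finset.disjoint_left]
      intro x hx hx'
      exact (Finset.mem_filter.1 hx').2 (Finset.mem_filter.1 hx).2
    have hself : ∀ σ : Finset I, (σ.filter D).card + (σ.filter fun i => ¬ D i).card = σ.card :=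
      fun σ => Finset.card_filter_add_card_filter_not _
    set m1 := (ρ.filter D).card with hm1
    set m2 := (ρ.filter fun i => ¬ D i).card with hm2
    have hge1 : ∀ τ ∈ T, m1 ≤ (τ.filter D).card := by
      intro τ hτ
      have := hmin _ (hmix τ hτ ρ hρ)
      rw [hsplit, ← hself ρ] at this
      omega
    have hge2 : ∀ τ ∈ T, m2 ≤ (τ.filter fun i => ¬ D i).card := by
      intro τ hτ
      have := hmin _ (hmix ρ hρ τ hτ)
      rw [hsplit, ← hself ρ] at this
      omega
    have hρ0 : 0 < ρ.card := by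
      rw [Finset.card_pos, Finset.nonempty_iff_ne_empty]
      rintro rfl; exact hemp hρ
    set Tm := T.filter fun τ => τ.card = ρ.card with hTm
    have heq1 : ∀ τ ∈ Tm, (τ.filter D).card = m1 := by
      intro τ hτ
      obtain ⟨ha, hb⟩ := Finset.mem_filter.1 hτ
      have h3 := hge1 τ ha
      have h4 := hge2 τ ha
      have h5 := hself τ
      have h6 := hself ρ
      omega
    have heq2 : ∀ τ ∈ Tm, (τ.filter fun i => ¬ D i).card = m2 := by
      intro τ hτ
      obtain ⟨ha, hb⟩ := Finset.mem_filter.1 hτ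
      have h3 := hge1 τ ha
      have h4 := hge2 τ ha
      have h5 := hself τ
      have h6 := hself ρ
      omega
    set C1 := C.filter D with hC1
    set C2 := C.filter fun i => ¬ D i with hC2
    have hTC : ∀ τ ∈ Tm, τ ⊆ C := fun τ hτ =>
      Finset.mem_powerset.1 (hT (Finset.mem_filter.1 hτ).1)
    set d := (Tm.filter fun τ => l0 ∈ τ).card with hd
    set e := (Tm.filter fun τ => l0 ∈ τ ∧ l1 ∈ τ).card with he
    have hd' : ∀ x ∈ C, (Tm.filter fun τ => x ∈ τ).card = d := by
      intro x hx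
      rw [hd, hTm, Finset.filter_filter, Finset.filter_filter]
      exact h1 _ x hx l0 hl0
    have he' : ∀ x ∈ C, ∀ y ∈ C, x ≠ y → (Tm.filter fun τ => x ∈ τ ∧ y ∈ τ).card = e := by
      intro x hx y hy hxy
      rw [he, hTm, Finset.filter_filter, Finset.filter_filter]
      exact h2 _ x hx y hy hxy l0 hl0 l1 hl1 h01
    -- counting
    have c1 : C1.card * d = Tm.card * m1 := by
      rw [double Tm C1 (fun x τ => x ∈ τ) d (fun x hx => hd' x (Finset.mem_filter.1 hx).1)]
      rw [Finset.sum_congr rfl (g := fun _ => m1), Finset.sum_const, smul_eq_mul]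
      intro τ hτ
      rw [← heq1 τ hτ]
      congr 1
      ext x
      simp only [hC1, Finset.mem_filter]
      exact ⟨fun h => ⟨h.2, h.1.2⟩, fun h => ⟨⟨hTC τ hτ h.1, h.2⟩, h.1⟩⟩
    have c2 : C2.card * d = Tm.card * m2 := by
      rw [double Tm C2 (fun x τ => x ∈ τ) d (fun x hx => hd' x (Finset.mem_filter.1 hx).1)]
      rw [Finset.sum_congr rfl (g := fun _ => m2), Finset.sum_const, smul_eq_mul]
      intro τ hτ
      rw [← heq2 τ hτ]
      congr 1
      ext x
      simp only [hC2, Finset.mem_filter]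
      exact ⟨fun h => ⟨h.2, h.1.2⟩, fun h => ⟨⟨hTC τ hτ h.1, h.2⟩, h.1⟩⟩
    have c3 : (C1.card * C2.card) * e = Tm.card * (m1 * m2) := by
      rw [← Finset.card_product]
      rw [double Tm (C1 ×ˢ C2) (fun x τ => x.1 ∈ τ ∧ x.2 ∈ τ) e]
      · rw [Finset.sum_congr rfl (g := fun _ => m1 * m2), Finset.sum_const, smul_eq_mul]
        intro τ hτ
        rw [← heq1 τ hτ, ← heq2 τ hτ, ← Finset.card_product]
        congr 1
        ext x
        simp only [hC1, hC2, Finset.mem_filter, Finset.mem_product]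
        constructor
        · rintro ⟨⟨⟨_, ha⟩, ⟨_, hb⟩⟩, hc, hd⟩
          exact ⟨⟨hc, ha⟩, ⟨hd, hb⟩⟩
        · rintro ⟨⟨hc, ha⟩, ⟨hd, hb⟩⟩
          exact ⟨⟨⟨hTC τ hτ hc, ha⟩, ⟨hTC τ hτ hd, hb⟩⟩, hc, hd⟩
      · intro x hx
        obtain ⟨ha, hb⟩ := Finset.mem_product.1 hx
        obtain ⟨ha1, ha2⟩ := Finset.mem_filter.1 ha
        obtain ⟨hb1, hb2⟩ := Finset.mem_filter.1 hb
        exact he' _ ha1 _ hb1 (by intro hxy; rw [hxy] at ha2; exact hb2 ha2)
    have c4 : (C1.card * C1.card - C1.card) * e = Tm.card * (m1 * m1 - m1) := by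
      rw [← Finset.offDiag_card]
      rw [double Tm C1.offDiag (fun x τ => x.1 ∈ τ ∧ x.2 ∈ τ) e]
      · rw [Finset.sum_congr rfl (g := fun _ => m1 * m1 - m1), Finset.sum_const, smul_eq_mul]
        intro τ hτ
        rw [← heq1 τ hτ, ← Finset.offDiag_card]
        congr 1
        ext x
        simp only [hC1, Finset.mem_filter, Finset.mem_offDiag]
        constructor
        · rintro ⟨⟨⟨_, ha⟩, ⟨_, hb⟩, hne⟩, hc, hd⟩
          exact ⟨⟨hc, ha⟩, ⟨hd, hb⟩, hne⟩
        · rintro ⟨⟨hc, ha⟩, ⟨hd, hb⟩, hne⟩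
          exact ⟨⟨⟨hTC τ hτ hc, ha⟩, ⟨hTC τ hτ hd, hb⟩, hne⟩, hc, hd⟩
      · intro x hx
        obtain ⟨ha, hb, hne⟩ := Finset.mem_offDiag.1 hx
        exact he' _ (Finset.mem_filter.1 ha).1 _ (Finset.mem_filter.1 hb).1 hne
    have p1 : 0 < C1.card := Finset.card_pos.2 ⟨l0, Finset.mem_filter.2 ⟨hl0, hD0⟩⟩
    have p2 : 0 < C2.card := Finset.card_pos.2 ⟨l1, Finset.mem_filter.2 ⟨hl1, hD1⟩⟩
    have pN : 0 < Tm.card := Finset.card_pos.2 ⟨ρ, Finset.mem_filter.2 ⟨hρ, rfl⟩⟩
    have hm : m1 + m2 = ρ.card := hself ρ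
    have pd : 0 < d := by
      rcases Nat.eq_zero_or_pos d with h0 | h0
      · rw [h0, mul_zero] at c1 c2
        rcases Nat.mul_eq_zero.1 c1.symm with h | h
        · omega
        · rcases Nat.mul_eq_zero.1 c2.symm with h' | h'
          · omega
          · omega
      · exact h0
    have pm1 : 0 < m1 := by
      rcases Nat.eq_zero_or_pos m1 with h0 | h0
      · rw [h0, mul_zero] at c1
        rcases Nat.mul_eq_zero.1 c1 with h | h <;> omega
      · exact h0
    have le1 : 1 * C1.card ≤ C1.card * C1.card := Nat.mul_le_mul_right _ p1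
    have le2 : 1 * m1 ≤ m1 * m1 := Nat.mul_le_mul_right _ pm1
    rw [one_mul] at le1 le2
    have c1' : (C1.card : ℤ) * d = Tm.card * m1 := by exact_mod_cast c1
    have c2' : (C2.card : ℤ) * d = Tm.card * m2 := by exact_mod_cast c2
    have c3' : ((C1.card : ℤ) * C2.card) * e = Tm.card * (m1 * m2) := by exact_mod_cast c3
    have c4' : ((C1.card : ℤ) * C1.card - C1.card) * e = Tm.card * ((m1 : ℤ) * m1 - m1) := by
      have := congrArg (Nat.cast : ℕ → ℤ) c4
      push_cast [Nat.cast_sub le1, Nat.cast_sub le2] at this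
      exact this
    have pN' : (Tm.card : ℤ) ≠ 0 := by exact_mod_cast pN.ne'
    have pm1' : (m1 : ℤ) ≠ 0 := by exact_mod_cast pm1.ne'
    have q1 : (m1 : ℤ) * C2.card = C1.card * m2 := by
      apply mul_left_cancel₀ pN'
      linear_combination (-(C2.card : ℤ)) * c1' + (C1.card : ℤ) * c2'
    have q2 : ((m1 : ℤ) - 1) * C2.card = (C1.card - 1) * m2 := by
      apply mul_left_cancel₀ (mul_ne_zero pN' pm1')
      linear_combination (-(C2.card : ℤ)) * c4' + ((C1.card : ℤ) - 1) * c3'
    have q3 : (m2 : ℤ) = C2.card := by linear_combination q2 - q1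
    have q4 : m2 = C2.card := by exact_mod_cast q3
    have q5 : m1 = C1.card := by
      rw [q4] at q1
      have p2' : (C2.card : ℤ) ≠ 0 := by exact_mod_cast p2.ne'
      have := mul_right_cancel₀ p2' q1
      exact_mod_cast this
    have q6 : ρ.card = C.card := by
      rw [← hm, q4, q5]
      exact hself C
    have hsing : ∀ τ ∈ T, τ = C := by
      intro τ hτ
      apply Finset.eq_of_subset_of_card_le (Finset.mem_powerset.1 (hT hτ))
      rw [← q6]
      exact hmin τ hτ
    ext τ
    rw [Finset.mem_singleton]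
    refine ⟨hsing τ, ?_⟩
    rintro rfl
    rw [← hsing ρ hρ]; exact hρ

end Pool.Agent.L0h60.QS
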