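import Pool.Agent.L0h60.QS.Levels

/-! Exchange of columns in the second level, and connectivity. -/

set_option autoImplicit false
set_option linter.unusedSectionVars false

namespace Pool.Agent.L0h60.QS

open Pool.Agent.H741.QS

section

variable {V I B : Type} [Fintype V] [Fintype I] [DecidableEq I]
  [Ring B] [StarRing B] [Algebra ℝ B] [StarModule ℝ B]
variable {c : Cube V I} {G : SimpleGraph V} {u : V → V → B} [Nonempty V]
variable {R C : Finset I} {P Q : V → V → Prop}

/-- all entries of `w` are zero or cancellable -/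
def Canc (c : Cube V I) (u : V → V → B) : Prop :=
  ∀ k l, ww c u k l = 0 ∨ ∀ z : B, ww c u k l * z = 0 → z = 0

theorem Canc.cancel (hc : Canc c u) {k l : I} (hkl : ww c u k l ≠ 0) {z : B}
    (hz : ww c u k l * z = 0) : z = 0 := by
  rcases hc k l with h | h
  · exact absurd h hkl
  · exact h z hz

/-- the vanishing of a permanent -/
def Par (c : Cube V I) (u : V → V → B) (ζ : B) (k j l m : I) : Prop :=
  (ww c u k l * ww c u j m + ww c u j l * ww c u k m) * ζ = 0

namespace QC

theorem par_symm (h : QC c G u) {ζ : B} {k j l m : I} (hkj : k ≠ j) (hlm : l ≠ m)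
    (hp : Par c u ζ k j l m) : Par c u ζ k j m l := by
  unfold Par at hp ⊢
  rw [← hp, h.ww_comm hkj (Ne.symm hlm), h.ww_comm (Ne.symm hkj) (Ne.symm hlm), add_comm]

theorem par_trans (h : QC c G u) (hc : Canc c u) {ζ : B} {k j p q r : I} (hkj : k ≠ j)
    (hpq : p ≠ q) (hrq : r ≠ q) (hpr : p ≠ r) (hkq : ww c u k q ≠ 0)
    (h1 : Par c u ζ k j p q) (h2 : Par c u ζ k j r q) : Par c u ζ k j p r := by
  unfold Par at h1 h2 ⊢
  -- x = w k p, y = w k r, z = w k q
  have a1 : ww c u k p * ww c u j q * ζ = - (ww c u j p * ww c u k q * ζ) := by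
    rw [add_mul] at h1; exact eq_neg_of_add_eq_zero_left h1
  have a2 : ww c u k r * ww c u j q * ζ = - (ww c u j r * ww c u k q * ζ) := by
    rw [add_mul] at h2; exact eq_neg_of_add_eq_zero_left h2
  -- commutation relations
  have yz : ww c u k q * ww c u k r = - (ww c u k r * ww c u k q) := h.ww_row k (Ne.symm hrq)
  have xz : ww c u k q * ww c u k p = - (ww c u k p * ww c u k q) := h.ww_row k (Ne.symm hpq)
  have xy : ww c u k r * ww c u k p = - (ww c u k p * ww c u k r) := h.ww_row k (Ne.symm hpr)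
  have zx' : ww c u k q * ww c u j p = ww c u j p * ww c u k q := h.ww_comm hkj (Ne.symm hpq)
  have zy' : ww c u k q * ww c u j r = ww c u j r * ww c u k q := h.ww_comm hkj (Ne.symm hrq)
  have yx' : ww c u k r * ww c u j p = ww c u j p * ww c u k r := h.ww_comm hkj (Ne.symm hpr)
  generalize ww c u k p = x at *
  generalize ww c u k r = y at *
  generalize hz : ww c u k q = z at *
  generalize ww c u j p = x' at *
  generalize ww c u j r = y' at *
  generalize ww c u j q = z' at *
  have key : z * ((x * y' + x' * y) * ζ) = 0 := by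
    have e1 : z * (x * y' * ζ) = x * y * z' * ζ := by
      calc z * (x * y' * ζ) = (z * x) * y' * ζ := by simp only [mul_assoc]
        _ = - (x * (z * y') * ζ) := by rw [xz]; simp only [neg_mul, mul_assoc]
        _ = - (x * (y' * z * ζ)) := by rw [zy']; simp only [mul_assoc]
        _ = - (x * (- (y * z' * ζ))) := by rw [a2, neg_neg]
        _ = x * y * z' * ζ := by simp only [mul_neg, neg_neg, mul_assoc]
    have e2 : z * (x' * y * ζ) = - (x * y * z' * ζ) := by
      calc z * (x' * y * ζ) = (z * x') * y * ζ := by simp only [mul_assoc]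
        _ = x' * (z * y) * ζ := by rw [zx']; simp only [mul_assoc]
        _ = - (x' * (y * z) * ζ) := by rw [yz]; simp only [mul_neg, neg_mul]
        _ = - ((y * x') * z * ζ) := by rw [yx']; simp only [mul_assoc]
        _ = - (y * (x' * z * ζ)) := by simp only [mul_assoc]
        _ = - (y * (- (x * z' * ζ))) := by rw [a1, neg_neg]
        _ = (y * x) * z' * ζ := by simp only [mul_neg, neg_neg, mul_assoc]
        _ = - (x * y * z' * ζ) := by rw [xy]; simp only [neg_mul]
    rw [add_mul, mul_add, e1, e2, add_neg_cancel]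
  rw [← hz] at key
  exact hc.cancel (by rw [hz]; exact hkq) key

/-- not all rows are parallel -/
theorem exists_not_par (h : QC c G u) (hc : Canc c u) {ζ : B} (hζ : ζ ≠ 0) (hb : Blk c u R C)
    {k l m : I} (hl : l ∈ C) (hlm : l ≠ m) (hkm : ww c u k m ≠ 0) :
    ∃ j ∈ R, k ≠ j ∧ ¬ Par c u ζ k j l m := by
  by_contra hcon
  push Not at hcon
  apply hζ
  apply hc.cancel hkm
  have e1 : ∀ j, ww c u k l * (ww c u j l * ww c u j m) * ζ =
      (ww c u j l * ww c u j l) * ww c u k m * ζ := by
    intro j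
    by_cases hkj : k = j
    · subst hkj; simp only [mul_assoc]
    by_cases hj : j ∈ R
    · have h1 := hcon j hj hkj
      unfold Par at h1
      rw [add_mul] at h1
      have h2 : ww c u k l * ww c u j m * ζ = - (ww c u j l * ww c u k m * ζ) :=
        eq_neg_of_add_eq_zero_left h1
      have h3 : ww c u j l * ww c u k l = - (ww c u k l * ww c u j l) :=
        h.ww_col l (Ne.symm hkj)
      calc ww c u k l * (ww c u j l * ww c u j m) * ζ
          = (ww c u k l * ww c u j l) * ww c u j m * ζ := by simp only [mul_assoc]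
        _ = - ((ww c u j l * ww c u k l) * ww c u j m * ζ) := by rw [h3]; simp
        _ = - (ww c u j l * (ww c u k l * ww c u j m * ζ)) := by simp only [mul_assoc]
        _ = _ := by rw [h2]; simp only [mul_neg, neg_neg, mul_assoc]
    · have : ww c u j l = 0 := by
        by_contra h0; exact hj (hb.col l hl j h0)
      rw [this]; simp
  have e2 : ∑ j, ww c u k l * (ww c u j l * ww c u j m) * ζ = 0 := by
    rw [← Finset.sum_mul, ← Finset.mul_sum, h.col_orth hlm, mul_zero, zero_mul]
  have e3 : ∑ j, (ww c u j l * ww c u j l) * ww c u k m * ζ = ww c u k m * ζ := by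
    rw [← Finset.sum_mul, ← Finset.sum_mul, h.col_sq, one_mul]
  rw [← e3, ← e2]
  exact Finset.sum_congr rfl fun j _ => (e1 j).symm

theorem exists_col (h : QC c G u) [Nontrivial B] (m : I) : ∃ j, ww c u j m ≠ 0 := by
  by_contra hcon
  push Not at hcon
  have := h.col_sq m
  simp only [hcon, mul_zero, Finset.sum_const_zero] at this
  exact zero_ne_one this

theorem exists_row (h : QC c G u) [Nontrivial B] (k : I) : ∃ l, ww c u k l ≠ 0 := by
  by_contra hcon
  push Not at hcon
  have := h.row_sq k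
  simp only [hcon, mul_zero, Finset.sum_const_zero] at this
  exact zero_ne_one this

theorem ww_Pi_Pi (h : QC c G u) (hb : Blk c u R C) {k l : I} (hk : k ∈ R) (hl : l ∈ C)
    (a b w v : V) : Pi' c u C a w * (ww c u k l * Pi' c u C b v) =
      ww c u k l * (Pi' c u C a w * Pi' c u C b v) := by
  rw [← mul_assoc, ← h.ww_Pi hb hk hl, mul_assoc]

theorem level1' (h : QC c G u) (hc : Canc c u) (hb : Blk c u R C) (hP : PR c u R C P Q) {k l : I}
    (hk : k ∈ R) (hl : l ∈ C) (hkl : ww c u k l ≠ 0) {a b w v : V}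
    (hζ : Pi' c u C a w * Pi' c u C b v ≠ 0) :
    cnt1 c P R k a b = cnt1 c Q C l w v := by
  have h1 := h.level1 hb hP hk (l := l) a b w v
  rw [h.ww_Pi_Pi hb hk hl] at h1
  rcases smul_eq_zero.1 h1 with h2 | h2
  · linarith
  · exact absurd (hc.cancel hkl h2) hζ

theorem level2' (h : QC c G u) (hb : Blk c u R C) (hP : PR c u R C P Q) {k j l m : I}
    (hk : k ∈ R) (hj : j ∈ R) (hkj : k ≠ j) (hl : l ∈ C) (hm : m ∈ C) {a b w v : V}
    (hp : ¬ Par c u (Pi' c u C a w * Pi' c u C b v) k j l m) :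
    cnt2 c P R k j a b = cnt2 c Q C l m w v := by
  have h1 := h.level2 hb hP hk hj hkj (l := l) (m := m) a b w v
  have h2 : Pi' c u C a w * ((ww c u k l * ww c u j m + ww c u j l * ww c u k m) *
      Pi' c u C b v) = (ww c u k l * ww c u j m + ww c u j l * ww c u k m) *
      (Pi' c u C a w * Pi' c u C b v) := by
    rw [← mul_assoc, mul_add, add_mul, add_mul, ← mul_assoc, ← mul_assoc,
      ← h.ww_Pi hb hk hl, ← h.ww_Pi hb hj hl, mul_assoc (ww c u k l), mul_assoc (ww c u j l),
      ← h.ww_Pi hb hk hm, ← h.ww_Pi hb hj hm]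
    simp only [mul_assoc]
  rw [h2] at h1
  rcases smul_eq_zero.1 h1 with h3 | h3
  · linarith
  · exact absurd h3 hp

/-- the exchange lemma -/
theorem exchange (h : QC c G u) [Nontrivial B] (hc : Canc c u) (hb : Blk c u R C)
    (hP : PR c u R C P Q) {k l l' m : I} (hk : k ∈ R) (hl : l ∈ C) (hl' : l' ∈ C) (hm : m ∈ C)
    (hll : l ≠ l') (hlm : l ≠ m) (hlm' : l' ≠ m) (hkl : ww c u k l ≠ 0) (hkl' : ww c u k l' ≠ 0)
    {a b w v : V} (hζ : Pi' c u C a w * Pi' c u C b v ≠ 0) :
    cnt2 c Q C l m w v = cnt2 c Q C l' m w v := by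
  by_cases hkm : ww c u k m = 0
  · obtain ⟨j, hj⟩ := h.exists_col m
    have hkj : k ≠ j := by rintro rfl; exact hj hkm
    have hjR : j ∈ R := hb.col m hm j hj
    have key : ∀ l, l ∈ C → l ≠ m → ww c u k l ≠ 0 →
        cnt2 c P R k j a b = cnt2 c Q C l m w v := by
      intro l hl _ hkl
      apply h.level2' hb hP hk hjR hkj hl hm
      intro hp
      unfold Par at hp
      rw [hkm, mul_zero, add_zero, mul_assoc] at hp
      exact hζ (hc.cancel hj (hc.cancel hkl hp))
    rw [← key l hl hlm hkl, ← key l' hl' hlm' hkl']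
  · by_contra hne
    obtain ⟨j, hj, hkj, hp⟩ := h.exists_not_par hc hζ hb hl hlm hkm
    have e1 := h.level2' hb hP hk hj hkj hl hm hp
    have p1 : Par c u (Pi' c u C a w * Pi' c u C b v) k j l' m := by
      by_contra hp1
      have e2 := h.level2' hb hP hk hj hkj hl' hm hp1
      exact hne (e1.symm.trans e2)
    have p2 : ¬ Par c u (Pi' c u C a w * Pi' c u C b v) k j l l' := fun hp2 =>
      hp (h.par_trans hc hkj hll (Ne.symm hlm') hlm hkl' hp2 (h.par_symm hkj hlm' p1))
    have e3 := h.level2' hb hP hk hj hkj hl hl' p2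
    obtain ⟨i, hi, hki, hq⟩ := h.exists_not_par hc hζ hb hl' hlm' hkm
    have f1 := h.level2' hb hP hk hi hki hl' hm hq
    have q1 : Par c u (Pi' c u C a w * Pi' c u C b v) k i l m := by
      by_contra hp1
      have e2 := h.level2' hb hP hk hi hki hl hm hp1
      exact hne (e2.symm.trans f1)
    have q2 : ¬ Par c u (Pi' c u C a w * Pi' c u C b v) k i l l' := fun hp2 =>
      hq (h.par_trans hc hki (Ne.symm hll) (Ne.symm hlm) hlm' hkl (h.par_symm hki hll hp2)
        (h.par_symm hki hlm q1))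
    have f3 := h.level2' hb hP hk hi hki hl hl' q2
    exact hne (e1.symm.trans (e3.trans (f3.symm.trans f1)))

/-- for each pair there is a partner -/
theorem exists_partner (h : QC c G u) [Nontrivial B] (w v : V) :
    ∃ a b, u a w * u b v ≠ 0 := by
  by_contra hcon
  push Not at hcon
  have : (∑ a, u a w) * (∑ b, u b v) = 0 := by
    rw [Finset.sum_mul_sum]
    exact Finset.sum_eq_zero fun a _ => Finset.sum_eq_zero fun b _ => hcon a b
  rw [h.q.colSum, h.q.colSum, mul_one] at this
  exact one_ne_zero this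

theorem zeta_ne (h : QC c G u) {a b w v : V} (hne : u a w * u b v ≠ 0) :
    Pi' c u C a w * Pi' c u C b v ≠ 0 := by
  intro h0
  apply hne
  calc u a w * u b v = (u a w * Pi' c u C a w) * (Pi' c u C b v * u b v) := by
        rw [h.u_Pi, h.Pi_u]
    _ = u a w * (Pi' c u C a w * Pi' c u C b v) * u b v := by simp only [mul_assoc]
    _ = 0 := by rw [h0, mul_zero, zero_mul]

end QC

/-- columns that share a row -/
def Sh (c : Cube V I) (u : V → V → B) (l l' : I) : Prop :=
  ∃ k, ww c u k l ≠ 0 ∧ ww c u k l' ≠ 0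

theorem Sh.symm {l l' : I} (h : Sh c u l l') : Sh c u l' l := by
  obtain ⟨k, h1, h2⟩ := h; exact ⟨k, h2, h1⟩

open Classical in
/-- the component of columns -/
noncomputable def colC (c : Cube V I) (u : V → V → B) (l0 : I) : Finset I :=
  Finset.univ.filter fun l => Relation.ReflTransGen (Sh c u) l0 l

open Classical in
/-- the rows of the component -/
noncomputable def rowR (c : Cube V I) (u : V → V → B) (l0 : I) : Finset I :=
  Finset.univ.filter fun k => ∃ l ∈ colC c u l0, ww c u k l ≠ 0

theorem mem_colC {l0 l : I} : l ∈ colC c u l0 ↔ Relation.ReflTransGen (Sh c u) l0 l := by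
  unfold colC; simp

theorem mem_rowR {l0 k : I} : k ∈ rowR c u l0 ↔ ∃ l ∈ colC c u l0, ww c u k l ≠ 0 := by
  unfold rowR; simp

theorem blk (l0 : I) : Blk c u (rowR c u l0) (colC c u l0) where
  row := by
    intro k hk l hl
    obtain ⟨l', hl', hkl'⟩ := mem_rowR.1 hk
    rw [mem_colC] at hl' ⊢
    exact hl'.tail ⟨k, hkl', hl⟩
  col := by
    intro l hl k hk
    exact mem_rowR.2 ⟨l, hl, hk⟩

namespace QC

theorem eq1 (h : QC c G u) [Nontrivial B] (hc : Canc c u) {l0 : I}
    (hP : PR c u (rowR c u l0) (colC c u l0) P Q) {l l' : I} (hl : l ∈ colC c u l0)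
    (hl' : l' ∈ colC c u l0) (w v : V) :
    cnt1 c Q (colC c u l0) l w v = cnt1 c Q (colC c u l0) l' w v := by
  obtain ⟨a, b, hab⟩ := h.exists_partner w v
  have hζ := h.zeta_ne (C := colC c u l0) hab
  have key : ∀ l, Relation.ReflTransGen (Sh c u) l0 l →
      cnt1 c Q (colC c u l0) l0 w v = cnt1 c Q (colC c u l0) l w v := by
    intro l hl
    induction hl with
    | refl => rfl
    | tail hbc hcd ih =>
      rename_i p q
      rw [ih]
      obtain ⟨k, hk1, hk2⟩ := hcd
      have hp : p ∈ colC c u l0 := mem_colC.2 hbc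
      have hq : q ∈ colC c u l0 := mem_colC.2 (hbc.tail ⟨k, hk1, hk2⟩)
      have hk : k ∈ rowR c u l0 := mem_rowR.2 ⟨p, hp, hk1⟩
      rw [← h.level1' hc (blk l0) hP hk hp hk1 hζ, ← h.level1' hc (blk l0) hP hk hq hk2 hζ]
  rw [← key l (mem_colC.1 hl), ← key l' (mem_colC.1 hl')]

theorem eq2_aux (h : QC c G u) [Nontrivial B] (hc : Canc c u) {l0 : I}
    (hP : PR c u (rowR c u l0) (colC c u l0) P Q) {m : I} (hm : m ∈ colC c u l0)
    {l : I} (hl : l ∈ colC c u l0) (hlm : l ≠ m) (w v : V) {l' : I}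
    (hw : Relation.ReflTransGen (Sh c u) l l') :
    (l' ≠ m → cnt2 c Q (colC c u l0) l' m w v = cnt2 c Q (colC c u l0) l m w v) ∧
    (l' = m → ∀ q, q ≠ m → Sh c u m q →
      cnt2 c Q (colC c u l0) q m w v = cnt2 c Q (colC c u l0) l m w v) := by
  obtain ⟨a, b, hab⟩ := h.exists_partner w v
  have hζ := h.zeta_ne (C := colC c u l0) hab
  have hex : ∀ {p q r : I}, p ∈ colC c u l0 → r ∈ colC c u l0 → Sh c u p q → p ≠ q → p ≠ r →
      q ≠ r → cnt2 c Q (colC c u l0) p r w v = cnt2 c Q (colC c u l0) q r w v := by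
    intro p q r hp hr hs hpq hpr hqr
    obtain ⟨k, hk1, hk2⟩ := hs
    have hk : k ∈ rowR c u l0 := mem_rowR.2 ⟨p, hp, hk1⟩
    have hq : q ∈ colC c u l0 := (blk l0).row k hk q hk2
    exact h.exchange hc (blk l0) hP hk hp hq hr hpq hpr hqr hk1 hk2 hζ
  have hin : ∀ {p q : I}, p ∈ colC c u l0 → Sh c u p q → q ∈ colC c u l0 := by
    intro p q hp hs
    exact mem_colC.2 ((mem_colC.1 hp).tail hs)
  induction hw with
  | refl => exact ⟨fun _ => rfl, fun h0 => absurd h0 hlm⟩
  | tail hlp hpq ih =>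
    rename_i p q
    have hp : p ∈ colC c u l0 := mem_colC.2 ((mem_colC.1 hl).trans hlp)
    have hq : q ∈ colC c u l0 := hin hp hpq
    by_cases hpm : p = m
    · subst hpm
      refine ⟨fun hqp => ih.2 rfl q hqp hpq, fun hqp => ?_⟩
      subst hqp
      exact ih.2 rfl
    · have ih1 := ih.1 hpm
      refine ⟨fun hqm => ?_, fun hqm => ?_⟩
      · by_cases hpq' : p = q
        · subst hpq'; exact ih1
        · rw [← ih1]
          exact (hex hp hm hpq hpq' hpm hqm).symm
      · subst hqm
        intro q' hq' hs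
        by_cases hpq' : q' = p
        · rw [hpq']; exact ih1
        · have hq'C := hin hm hs
          -- `β(q', m) = β(p, m)`
          have e1 : cnt2 c Q (colC c u l0) q p w v = cnt2 c Q (colC c u l0) q' p w v :=
            hex hm hp hs (Ne.symm hq') (Ne.symm hpm) hpq'
          have e2 : cnt2 c Q (colC c u l0) p q' w v = cnt2 c Q (colC c u l0) q q' w v :=
            hex hp hq'C hpq hpm (Ne.symm hpq') (Ne.symm hq')
          rw [← ih1, cnt2_comm p q, e1, cnt2_comm q' p, e2, cnt2_comm q q']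

theorem eq2 (h : QC c G u) [Nontrivial B] (hc : Canc c u) {l0 : I}
    (hP : PR c u (rowR c u l0) (colC c u l0) P Q) {l m l' m' : I} (hl : l ∈ colC c u l0)
    (hm : m ∈ colC c u l0) (hl' : l' ∈ colC c u l0) (hm' : m' ∈ colC c u l0) (hlm : l ≠ m)
    (hlm' : l' ≠ m') (w v : V) :
    cnt2 c Q (colC c u l0) l m w v = cnt2 c Q (colC c u l0) l' m' w v := by
  have hsym : ∀ {p q : I}, Relation.ReflTransGen (Sh c u) p q →
      Relation.ReflTransGen (Sh c u) q p := by
    intro p q hpq
    induction hpq with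
    | refl => exact .refl
    | tail _ h2 ih => exact Relation.ReflTransGen.head h2.symm ih
  have hconn : ∀ {p q : I}, p ∈ colC c u l0 → q ∈ colC c u l0 →
      Relation.ReflTransGen (Sh c u) p q := by
    intro p q hp hq
    exact (hsym (mem_colC.1 hp)).trans (mem_colC.1 hq)
  have key : ∀ {p q r : I}, p ∈ colC c u l0 → q ∈ colC c u l0 → r ∈ colC c u l0 →
      p ≠ r → q ≠ r → cnt2 c Q (colC c u l0) p r w v = cnt2 c Q (colC c u l0) q r w v := by
    intro p q r hp hq hr hpr hqr
    exact ((h.eq2_aux hc hP hr hp hpr w v (hconn hp hq)).1 hqr).symm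
  by_cases h1 : l' = m
  · subst h1
    rw [key hl hm' hm hlm (Ne.symm hlm'), cnt2_comm]
  · rw [key hl hl' hm hlm h1, cnt2_comm, key hm hm' hl' (Ne.symm h1) (Ne.symm hlm'), cnt2_comm]

end QC

end

end Pool.Agent.L0h60.QS
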