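import Pool.Agent.L0h60.QS.Merge

/-! The characterisation of the direct squares without quantum symmetry. -/

set_option autoImplicit false
set_option linter.unusedSectionVars false
set_option linter.unusedVariables false

namespace Pool.Agent.L0h60.QS

open Pool.Agent.H741.QS Pool.Agent.H767R3.DS

theorem assembly' (V : Type) [Fintype V] [Nonempty V] (X S : SimpleGraph V)
    (hS : S.Connected) (hXc : X.Connected) (hX2 : ¬ X.Colorable 2) (hXt : TwinFree X)
    (hadj : ∃ a b, X.Adj a b) (hq : NoQuantumSymmetry X)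
    (A : Type) [CStarAlgebra A] (u : (V × V) → (V × V) → A)
    (h1 : QIso (S □ S) (S □ S) u) (h2 : QIso (dir X X) (dir X X) u) :
    ∀ x y z w, u x y * u z w = u z w * u x y := by
  classical
  obtain ⟨ι, i1, i2, P, i3, G, hG, ⟨e⟩⟩ := exists_aux' _ S rfl hS
  let X' : SimpleGraph (∀ i, P i) := X.comap e.symm
  let f : X' ≃g X :=
    { toEquiv := e.symm.toEquiv
      map_rel_iff' := by
        intro a b
        rfl }
  have hX' : NoQuantumSymmetry X' := noqs_of_iso f.symm hq
  have k1 := h1.transport (prodCongr e.symm e.symm) (prodCongr e.symm e.symm)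
  have k2 := h2.transport (dirCongr f f) (dirCongr f f)
  have hadj' : ∃ a b, X'.Adj a b := by
    obtain ⟨a, b, hab⟩ := hadj
    refine ⟨e a, e b, ?_⟩
    show X.Adj (e.symm (e a)) (e.symm (e b))
    rw [e.symm_apply_apply, e.symm_apply_apply]
    exact hab
  have hc' : X'.Connected := (f.connected_iff).mpr hXc
  have h2' : ¬ X'.Colorable 2 := by
    rintro ⟨c⟩
    exact hX2 ⟨c.comp (SimpleGraph.Embedding.toHom (f.symm : X ↪g X'))⟩
  have ht' : TwinFree X' := by
    intro x y hxy
    have : e.symm x = e.symm y := by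
      apply hXt
      intro z
      have := hxy (e z)
      have h3 : ∀ a, X'.Adj a (e z) ↔ X.Adj (e.symm a) z := by
        intro a
        show X.Adj (e.symm a) (e.symm (e z)) ↔ _
        rw [e.symm_apply_apply]
      rwa [h3, h3] at this
    exact e.symm.injective this
  have k3 := st_W' G (fun i => (hG i).1) (fun i => (hG i).2.1) (fun i => (hG i).2.2)
    X' hc' h2' ht' hadj' hX'
    (fun a w => u (prodCongr e.symm e.symm a) (prodCongr e.symm e.symm w)) k1 k2
  intro x y z w
  have k4 := k3 (prodCongr e e x) (prodCongr e e y) (prodCongr e e z) (prodCongr e e w)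
  have hinv : ∀ a : V × V, prodCongr e.symm e.symm (prodCongr e e a) = a := by
    rintro ⟨a, b⟩
    show (e.symm (e a), e.symm (e b)) = (a, b)
    rw [e.symm_apply_apply, e.symm_apply_apply]
  simpa only [hinv] using k4

open Classical in
theorem suffCore' (V : Type) [Fintype V] (X : SimpleGraph V)
    (h3 : Fintype.card V ≠ 1) (h1 : X.Connected) (hX2 : ¬ X.Colorable 2) (ht : TwinFree X)
    (hq : NoQuantumSymmetry X) : NoQuantumSymmetry (dir X X) := by
  have hB := t_B
  have hC := t_C
  have hE := t_E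
  have hJ := t_J
  have hL := t_L t_D
  obtain ⟨m, hm⟩ := t_A V X h1 hX2
  intro A _ u hu hc x y z w
  have hne : Nonempty V := h1.nonempty
  have h0 := qiso_of_magic (dir X X) u hu (by convert hc)
  have hker := hB V X h1 ht m hm
  obtain ⟨N, hN⟩ : ∃ N : V → V → ℝ, N = (fun a b => (X.adjMatrix ℝ ^ (2 * m)) a b /
      Real.sqrt ((X.adjMatrix ℝ ^ (2 * m)) a a * (X.adjMatrix ℝ ^ (2 * m)) b b)) := ⟨_, rfl⟩
  rw [← hN] at hker
  have hpos : ∀ a, 0 < (X.adjMatrix ℝ ^ (2 * m)) a a := by
    intro a
    have h := hker.pos a a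
    rw [hN] at h
    simp only at h
    by_contra hle
    push Not at hle
    have : (X.adjMatrix ℝ ^ (2 * m)) a a /
        Real.sqrt ((X.adjMatrix ℝ ^ (2 * m)) a a * (X.adjMatrix ℝ ^ (2 * m)) a a) ≤ 0 :=
      div_nonpos_of_nonpos_of_nonneg hle (Real.sqrt_nonneg _)
    linarith
  have hP := ker_pres X N (fun a b => u a b) h0 (fun a b => (X.adjMatrix ℝ ^ (2 * m)) a b) hpos
    (fun a b => by rw [hN]) (hJ V X A (fun a b => u a b) h0 (2 * m))
  obtain ⟨hk2, hS⟩ := hE V N hker
  have hQ := hL (V × V) (dir X X) (kk N) A (fun a b => u a b) h0 hk2 hP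
  rw [hS] at hQ
  have hadj : ∃ a b, X.Adj a b := by
    by_contra hno
    push Not at hno
    obtain ⟨a⟩ := hne
    have hc1 : 1 < Fintype.card V := by
      have : 0 < Fintype.card V := Fintype.card_pos_iff.2 ⟨a⟩
      omega
    obtain ⟨b, hb⟩ := Fintype.exists_ne_of_one_lt_card hc1 a
    exact hb ((ht a b (fun z => ⟨fun h => absurd h (hno _ _), fun h => absurd h (hno _ _)⟩)).symm)
  exact assembly' V X (SG N) (hC V N hker) h1 hX2 ht hadj hq A (fun a b => u a b) hQ h0 x y z w

theorem full (V : Type) [Fintype V] [Nonempty V] (X : SimpleGraph V) :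
    NoQuantumSymmetry (dir X X) ↔ (Fintype.card V = 1 ∨
      (X.Connected ∧ ¬ X.Colorable 2 ∧ TwinFree X ∧ NoQuantumSymmetry X)) := by
  constructor
  · exact necAll V X
  · intro h
    by_cases h1 : Fintype.card V = 1
    · exact one_noqs V X h1
    rcases h with h | h
    · exact absurd h h1
    · exact suffCore' V X h1 h.1 h.2.1 h.2.2.1 h.2.2.2

end Pool.Agent.L0h60.QS
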