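import Pool.Agent.H767R3.DS.All3

/-! Prime factorisations with `K_2` factors; edges in the directions of the other factors. -/

set_option autoImplicit false
set_option linter.unusedSectionVars false
set_option linter.unusedVariables false

namespace Pool.Agent.L0h60.QS

open Pool.Agent.H741.QS

theorem exists_aux' (n : ℕ) : ∀ {V : Type} [Fintype V] (X : SimpleGraph V), Fintype.card V = n →
    X.Connected →
    ∃ (ι : Type) (_ : Fintype ι) (_ : DecidableEq ι) (P : ι → Type) (_ : ∀ i, Fintype (P i))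
      (G : ∀ i, SimpleGraph (P i)),
      (∀ i, (G i).Connected ∧ 2 ≤ Fintype.card (P i) ∧ PrimeGraph (G i)) ∧
      Nonempty (X ≃g boxPi G) := by
  induction n using Nat.strong_induction_on with
  | _ n ih =>
    intro V _ X hcard hX
    by_cases h2 : 2 ≤ Fintype.card V
    · by_cases hp : PrimeGraph X
      · refine ⟨Unit, inferInstance, inferInstance, fun _ => V, fun _ => inferInstance, fun _ => X,
          fun _ => ⟨hX, h2, hp⟩, ⟨⟨(Equiv.funUnique Unit V).symm, ?_⟩⟩⟩
        intro a b
        rw [boxPi_adj]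
        constructor
        · rintro ⟨_, h, _⟩; exact h
        · intro h; exact ⟨(), h, fun j hj => absurd rfl hj⟩
      · unfold PrimeGraph at hp
        push Not at hp
        obtain ⟨V1, V2, f1, f2, G1, G2, c1, c2, he⟩ := hp
        obtain ⟨e⟩ := he
        have hc : Fintype.card V = Fintype.card V1 * Fintype.card V2 := by
          rw [Fintype.card_congr e.toEquiv, Fintype.card_prod]
        have hcon : (G1 □ G2).Connected := (e.connected_iff).mp hX
        obtain ⟨hc1, hc2⟩ := SimpleGraph.connected_boxProd.mp hcon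
        obtain ⟨ι₁, i1, i2, P₁, i3, H₁, p1, ⟨q1⟩⟩ := ih (Fintype.card V1) (by nlinarith) G1 rfl hc1
        obtain ⟨ι₂, j1, j2, P₂, j3, H₂, p2, ⟨q2⟩⟩ := ih (Fintype.card V2) (by nlinarith) G2 rfl hc2
        refine ⟨ι₁ ⊕ ι₂, inferInstance, inferInstance, Sum.elim P₁ P₂,
          fun i => match i with
            | Sum.inl a => i3 a
            | Sum.inr b => j3 b,
          sumFam H₁ H₂, ?_, ⟨e.trans ((prodCongr q1 q2).trans (sumIso H₁ H₂))⟩⟩
        rintro (a | b)
        · exact p1 a
        · exact p2 b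
    · have hne : Nonempty V := hX.nonempty
      have hle : Fintype.card V ≤ 1 := by omega
      have hss : Subsingleton V := Fintype.card_le_one_iff_subsingleton.mp hle
      obtain ⟨v⟩ := hne
      refine ⟨Empty, inferInstance, inferInstance, fun _ => Unit, fun _ => inferInstance, fun _ => ⊤,
        fun i => i.elim, ⟨⟨⟨fun _ i => i.elim, fun _ => v, fun a => Subsingleton.elim _ _,
          fun f => by funext i; exact i.elim⟩, ?_⟩⟩⟩
      intro a b
      rw [boxPi_adj]
      constructor
      · rintro ⟨i, _⟩; exact i.elim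
      · intro h
        exact absurd (Subsingleton.elim a b) h.ne

/-- a prime graph on a number of vertices other than two does not have `K_2` as a factor -/
theorem noK2_of_card {V : Type} [Fintype V] {G : SimpleGraph V} (hp : PrimeGraph G)
    (h2 : 2 ≤ Fintype.card V) (hne : Fintype.card V ≠ 2) : NoK2 G := by
  intro W _ Y
  refine ⟨fun e => ?_⟩
  have hcard := Fintype.card_congr e.toEquiv
  rw [Fintype.card_prod, Fintype.card_bool] at hcard
  by_cases hW : 2 ≤ Fintype.card W
  · exact (hp Bool W ⊤ Y (by simp) hW).false e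
  · omega

/-- a bad edge points in the direction of a factor `K_2` -/
theorem bad_dir {ι : Type} [Fintype ι] [DecidableEq ι] {P : ι → Type} [∀ i, Fintype (P i)]
    (G : ∀ i, SimpleGraph (P i)) (hG : ∀ i, (G i).Connected)
    (Bd : (∀ i, P i) → (∀ i, P i) → Prop)
    (b1 : ∀ a b, Bd a b → (boxPi G).Adj a b)
    (b2 : ∀ a b, Bd a b → Bd b a)
    (b3 : ∀ a b c, Bd a b → (boxPi G).Adj a c → c ≠ b →
      ∃ d, (boxPi G).Adj b d ∧ (boxPi G).Adj c d ∧ Bd c d ∧
        ∀ z, ((boxPi G).dist a z : ℤ) - (boxPi G).dist b z =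
          (boxPi G).dist c z - (boxPi G).dist d z)
    (k : ι) (hK : NoK2 (G k)) (a0 b0 : ∀ i, P i) (hd : DirAdj G k a0 b0) : ¬ Bd a0 b0 := by
  intro hbd
  have hZ := boxPi_connected G hG
  obtain ⟨hk1, hk2⟩ := hd
  set h : (∀ i, P i) → ℤ := fun z => ((boxPi G).dist a0 z : ℤ) - (boxPi G).dist b0 z with hh
  set h1 : P k → ℤ := fun q => ((G k).dist (a0 k) q : ℤ) - (G k).dist (b0 k) q with hh1
  have hz : ∀ z, h z = h1 (z k) := fun z => dist_diff G hG k a0 b0 z hk2
  have claim : ∀ z, ∃ z', (Bd z z' ∧ ∀ w, ((boxPi G).dist z w : ℤ) - (boxPi G).dist z' w = h w) ∨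
      (Bd z' z ∧ ∀ w, ((boxPi G).dist z' w : ℤ) - (boxPi G).dist z w = h w) := by
    have step : ∀ a c, (boxPi G).Adj a c →
      (∃ z', (Bd a z' ∧ ∀ w, ((boxPi G).dist a w : ℤ) - (boxPi G).dist z' w = h w) ∨
        (Bd z' a ∧ ∀ w, ((boxPi G).dist z' w : ℤ) - (boxPi G).dist a w = h w)) →
      (∃ z', (Bd c z' ∧ ∀ w, ((boxPi G).dist c w : ℤ) - (boxPi G).dist z' w = h w) ∨
        (Bd z' c ∧ ∀ w, ((boxPi G).dist z' w : ℤ) - (boxPi G).dist c w = h w)) := by
      rintro a c hac ⟨b, ⟨hb1, hb2⟩ | ⟨hb1, hb2⟩⟩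
      · by_cases hcb : c = b
        · subst hcb; exact ⟨a, Or.inr ⟨hb1, hb2⟩⟩
        · obtain ⟨d, _, _, hd3, hd4⟩ := b3 a b c hb1 hac hcb
          exact ⟨d, Or.inl ⟨hd3, fun w => by rw [← hd4 w]; exact hb2 w⟩⟩
      · by_cases hcb : c = b
        · subst hcb; exact ⟨a, Or.inl ⟨hb1, hb2⟩⟩
        · obtain ⟨d, _, _, hd3, hd4⟩ := b3 a b c (b2 _ _ hb1) hac hcb
          refine ⟨d, Or.inr ⟨b2 _ _ hd3, fun w => ?_⟩⟩
          have e1 := hd4 w
          have e2 := hb2 w
          omega
    intro z
    obtain ⟨p⟩ := hZ.preconnected a0 z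
    have hwalk : ∀ (u v : ∀ i, P i) (p : (boxPi G).Walk u v),
      (∃ z', (Bd u z' ∧ ∀ w, ((boxPi G).dist u w : ℤ) - (boxPi G).dist z' w = h w) ∨
        (Bd z' u ∧ ∀ w, ((boxPi G).dist z' w : ℤ) - (boxPi G).dist u w = h w)) →
      (∃ z', (Bd v z' ∧ ∀ w, ((boxPi G).dist v w : ℤ) - (boxPi G).dist z' w = h w) ∨
        (Bd z' v ∧ ∀ w, ((boxPi G).dist z' w : ℤ) - (boxPi G).dist v w = h w)) := by
      intro u v p
      induction p with
      | nil => exact id
      | cons hadj _ ih => intro hu; exact ih (step _ _ hadj hu)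
    exact hwalk a0 z p ⟨b0, Or.inl ⟨hbd, fun w => rfl⟩⟩
  have main : ∀ p : P k, ∃ p', (G k).Adj p p' ∧
      ((∀ q, ((G k).dist p q : ℤ) - (G k).dist p' q = h1 q) ∨
      (∀ q, ((G k).dist p' q : ℤ) - (G k).dist p q = h1 q)) := by
    intro p
    set z := Function.update a0 k p with hzdef
    have hzk : z k = p := by rw [hzdef]; simp
    obtain ⟨z', hz'⟩ := claim z
    have hadj : (boxPi G).Adj z z' := by
      rcases hz' with h' | h'
      · exact b1 _ _ h'.1
      · exact (b1 _ _ h'.1).symm
    have hd1 : ((boxPi G).dist z z' : ℤ) = 1 := by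
      have := SimpleGraph.dist_eq_one_iff_adj.2 hadj; exact_mod_cast this
    have hd1' : ((boxPi G).dist z' z : ℤ) = 1 := by rw [SimpleGraph.dist_comm]; exact hd1
    have hne : h z ≠ h z' := by
      rcases hz' with h' | h'
      · have e1 := h'.2 z
        have e2 := h'.2 z'
        rw [SimpleGraph.dist_self, hd1'] at e1
        rw [SimpleGraph.dist_self, hd1] at e2
        push_cast at e1 e2
        omega
      · have e1 := h'.2 z
        have e2 := h'.2 z'
        rw [SimpleGraph.dist_self, hd1'] at e1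
        rw [SimpleGraph.dist_self, hd1] at e2
        push_cast at e1 e2
        omega
    obtain ⟨i, hi1, hi2⟩ := hadj
    have hik : i = k := by
      by_contra hik
      apply hne
      rw [hz z, hz z', hi2 k (Ne.symm hik)]
    subst hik
    refine ⟨z' i, by rw [← hzk]; exact hi1, ?_⟩
    rcases hz' with h' | h'
    · left
      intro q
      have e := h'.2 (Function.update a0 i q)
      rw [dist_diff G hG i z z' _ hi2, hz, hzk] at e
      simpa using e
    · right
      intro q
      have e := h'.2 (Function.update a0 i q)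
      rw [dist_diff G hG i z' z _ (fun j hj => (hi2 j hj).symm), hz, hzk] at e
      simpa using e
  obtain ⟨W, hW, H, hiso⟩ := k2_struct (G k) (hG k) h1 main
  exact (hK W H).false hiso.some

section

variable {J : Type} [Fintype J] [DecidableEq J] {P : J → Type} [∀ k, Fintype (P k)]
variable {A : Type} [Ring A] [StarRing A] [Algebra ℝ A] [StarModule ℝ A]

theorem good_dir (G : ∀ k, SimpleGraph (P k)) (hG : ∀ k, (G k).Connected)
    (hB : ∀ x : A, star x * x = 0 → x = 0)
    (u : (∀ k, P k) → (∀ k, P k) → A) (h : QIso (boxPi G) (boxPi G) u) (k : J)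
    (hK : NoK2 (G k)) (l : J) {a b : ∀ k, P k} (hab : DirAdj G k a b) :
    Good (boxPi G) (fun w : ∀ k, P k => w l) (rest P l) u a b := by
  by_contra hbad
  have hs := split_boxPi G hG l
  refine bad_dir G hG (fun a b => (boxPi G).Adj a b ∧
    ¬ Good (boxPi G) (fun w : ∀ k, P k => w l) (rest P l) u a b) ?_ ?_ ?_ k hK a b hab
      ⟨⟨k, hab.1, hab.2⟩, hbad⟩
  · intro a b h1; exact h1.1
  · rintro a b ⟨h1, h2⟩
    exact ⟨h1.symm, fun h3 => h2 (good_symm h hs h1.symm h3)⟩
  · rintro a b c ⟨h1, h2⟩ h3 h4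
    obtain ⟨d, h5, h6, h7, h8⟩ := bad_move h (boxPi_connected G hG) hs hB h1 h2 h3 h4
    exact ⟨d, h5, h6, ⟨h6, h7⟩, h8⟩

/-- lifting of properties of edges in a fixed direction -/
theorem par_lift_k (G : ∀ k, SimpleGraph (P k)) (hG : ∀ k, (G k).Connected) (k : J)
    (hp : PrimeGraph (G k)) (S : (∀ i, P i) → (∀ i, P i) → Prop)
    (flip : ∀ a b, DirAdj G k a b → S a b → S b a)
    (loc : ∀ a b c, DirAdj G k a b → DirAdj G k a c → b ≠ c →
      (¬ ∃ d, Diag (boxPi G) b c a d) → S a b → S a c)
    (sq : ∀ a b c d, Diag (boxPi G) b c a d → DirAdj G k a b → DirAdj G k c d → S a b → S c d)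
    (tw : ∀ a b c d z, Diag (boxPi G) b c a d → Diag (boxPi G) a d b c →
      ((boxPi G).dist a z : ℤ) - (boxPi G).dist b z - (boxPi G).dist c z +
        (boxPi G).dist d z ≠ 0 → DirAdj G k a b → DirAdj G k a c → S a b → S a c)
    (x x' y y' : ∀ i, P i) (hx : DirAdj G k x x') (hy : DirAdj G k y y')
    (h : S x x') : S y y' := by
  have hda : ∀ (z : ∀ i, P i) (p q : P k), (G k).Adj p q →
      DirAdj G k (Function.update z k p) (Function.update z k q) := by
    intro z p q hpq
    refine ⟨by simpa using hpq, fun j hj => ?_⟩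
    rw [Function.update_of_ne hj, Function.update_of_ne hj]
  have hcl : ∀ z : (∀ i, P i),
      ParClosed (G k) (fun a b => S (Function.update z k a) (Function.update z k b) ∧
        (G k).Adj a b) := by
    intro z
    constructor
    · intro a b hab h
      exact ⟨flip _ _ (hda z _ _ hab) h.1, hab.symm⟩
    · intro a b c hab hac hbc hno h
      refine ⟨loc _ _ _ (hda z _ _ hab) (hda z _ _ hac)
        (fun h => hbc (Function.update_injective z k h)) ?_ h.1, hac⟩
      rintro ⟨w, hw⟩
      have h1 := (hw.2.2.2 w).2 (Or.inr rfl)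
      have h2 := pl_nb G k z w b c hbc h1.1 h1.2
      rw [h2, pl_diag] at hw
      exact hno ⟨_, hw⟩
    · intro a b c d hd h
      exact ⟨sq _ _ _ _ ((pl_diag G k z b c a d).2 hd) (hda z _ _ hd.adj1.symm)
        (hda z _ _ hd.adj4) h.1, hd.adj4⟩
    · intro a b c d t hd1 hd2 ht h
      refine ⟨tw _ _ _ _ (Function.update z k t) ((pl_diag G k z b c a d).2 hd1)
        ((pl_diag G k z a d b c).2 hd2) ?_ (hda z _ _ hd1.adj1.symm) (hda z _ _ hd1.adj2.symm)
        h.1, hd1.adj2.symm⟩
      rw [pl_dist G k hG, pl_dist G k hG, pl_dist G k hG, pl_dist G k hG]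
      exact ht
  have hstep : ∀ z w : (∀ i, P i), (boxPi G).Adj z w →
      (∀ p q, (G k).Adj p q → S (Function.update z k p) (Function.update z k q)) →
      (∀ p q, (G k).Adj p q → S (Function.update w k p) (Function.update w k q)) := by
    rintro z w ⟨i, hi1, hi2⟩ hz p q hpq
    by_cases hik : i = k
    · have : ∀ r : P k, Function.update w k r = Function.update z k r := by
        intro r
        funext j
        by_cases hj : j = k
        · subst hj; simp
        · rw [Function.update_of_ne hj, Function.update_of_ne hj, hi2 j (by rw [hik]; exact hj)]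
      rw [this, this]
      exact hz p q hpq
    · exact sq _ _ _ _ (pl_move G k z w i hik hi1 hi2 p q hpq) (hda z p q hpq)
        (hda w p q hpq) (hz p q hpq)
  have hreach : ∀ z w : (∀ i, P i), (boxPi G).Reachable z w →
      (∀ p q, (G k).Adj p q → S (Function.update z k p) (Function.update z k q)) →
      (∀ p q, (G k).Adj p q → S (Function.update w k p) (Function.update w k q)) := by
    rintro z w ⟨W⟩
    induction W with
    | nil => exact id
    | cons hadj _ ih => exact fun hz => ih (hstep _ _ hadj hz)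
  have hx0 : Function.update x k (x k) = x := Function.update_eq_self k x
  have hx1 : Function.update x k (x' k) = x' := by
    funext j
    by_cases hj : j = k
    · subst hj; simp
    · rw [Function.update_of_ne hj]; exact hx.2 j hj
  have hy0 : Function.update y k (y k) = y := Function.update_eq_self k y
  have hy1 : Function.update y k (y' k) = y' := by
    funext j
    by_cases hj : j = k
    · subst hj; simp
    · rw [Function.update_of_ne hj]; exact hy.2 j hj
  have hQx : ∀ p q, (G k).Adj p q → S (Function.update x k p) (Function.update x k q) :=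
    fun p q hpq => (par_irred (G k) (hG k) hp _ (hcl x)
      ⟨x k, x' k, hx.1, by rw [hx0, hx1]; exact ⟨h, hx.1⟩⟩ p q hpq).1
  have hQy := hreach x y ((boxPi_connected G hG).preconnected x y) hQx (y k) (y' k) hy.1
  rwa [hy0, hy1] at hQy

theorem EE_const_k (G : ∀ k, SimpleGraph (P k)) (hG : ∀ k, (G k).Connected)
    (hB : ∀ x : A, star x * x = 0 → x = 0)
    (u : (∀ k, P k) → (∀ k, P k) → A) (h : QIso (boxPi G) (boxPi G) u) (k l : J)
    (hp : PrimeGraph (G k)) (hK : NoK2 (G k))
    {a b c d : ∀ k, P k} (hab : DirAdj G k a b) (hcd : DirAdj G k c d) :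
    EE (Dir1 (boxPi G) (rest P l)) u c d = EE (Dir1 (boxPi G) (rest P l)) u a b := by
  have hs := split_boxPi G hG l
  have hadj : ∀ {a b : ∀ k, P k}, DirAdj G k a b → (boxPi G).Adj a b :=
    fun {a b} h => ⟨k, h.1, h.2⟩
  have hgood : ∀ {a b : ∀ k, P k}, DirAdj G k a b → _ :=
    fun {a b} hab => good_dir G hG hB u h k hK l hab
  refine par_lift_k G hG k hp
    (fun c d => EE (Dir1 (boxPi G) (rest P l)) u c d = EE (Dir1 (boxPi G) (rest P l)) u a b)
    ?_ ?_ ?_ ?_ a b c d hab hcd rfl
  · intro x y hxy h1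
    rw [← h1]
    exact (EE_flip h hs (hadj hxy) (hgood hxy)).symm
  · intro x y z hxy hxz hyz hn h1
    rw [← h1]
    exact (EE_loc h hs (hadj hxy) (hadj hxz) hyz hn).symm
  · intro x y z t hd hxy hzt h1
    rw [← h1]
    exact (EE_sq h hs hd (hgood hxy) (hgood hzt)).symm
  · intro x y z t s hd1 hd2 hz _ _ h1
    rw [← h1]
    exact (EE_tw h (boxPi_connected G hG) hs hB hd1 hd2 hz).symm

/-- central projections for a direction that is not `K_2` -/
theorem exists_central_k (G : ∀ k, SimpleGraph (P k)) (hG : ∀ k, (G k).Connected)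
    (hP : ∀ k, 2 ≤ Fintype.card (P k)) (hB : ∀ x : A, star x * x = 0 → x = 0)
    (u : (∀ k, P k) → (∀ k, P k) → A) (h : QIso (boxPi G) (boxPi G) u) (k : J)
    (hp : PrimeGraph (G k)) (hK : NoK2 (G k)) :
    ∃ E : J → A, (∀ l, star (E l) = E l) ∧ (∀ l, E l * E l = E l) ∧
      (∀ l x, (∀ a w, x * u a w = u a w * x) → x * E l = E l * x) ∧ (∑ l, E l = 1) ∧
      (∀ l a w, E l * u a w = u a w * E l) ∧
      (∀ l a b w v, DirAdj G k a b → DirAdj G l w v → u a w * u b v * E l = u a w * u b v) ∧
      (∀ l a b w v, DirAdj G k a b → ¬ DirAdj G l w v → u a w * u b v * E l = 0) := by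
  classical
  have hconn := boxPi_connected G hG
  obtain ⟨o⟩ := hconn.nonempty
  obtain ⟨b, hb⟩ := exists_nbr G hG hP k o
  have hs := split_boxPi G hG
  have hadj : ∀ {a b : ∀ k, P k}, DirAdj G k a b → (boxPi G).Adj a b :=
    fun {a b} h => ⟨k, h.1, h.2⟩
  have hgood : ∀ l {a b : ∀ k, P k}, DirAdj G k a b → _ :=
    fun l {a b} hab => good_dir G hG hB u h k hK l hab
  have hconst : ∀ l {a c : ∀ k, P k}, DirAdj G k a c →
      EE (Dir1 (boxPi G) (rest P l)) u a c = EE (Dir1 (boxPi G) (rest P l)) u o b :=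
    fun l a c hac => EE_const_k G hG hB u h k l hp hK hb hac
  have hcu : ∀ l a w, EE (Dir1 (boxPi G) (rest P l)) u o b * u a w =
      u a w * EE (Dir1 (boxPi G) (rest P l)) u o b := by
    intro l a w
    obtain ⟨c, hc⟩ := exists_nbr G hG hP k a
    rw [← hconst l hc]
    exact (EE_props h (hs l) (hadj hc) (hgood l hc)).2.2.1 w
  have hsand : ∀ l a c w v, DirAdj G k a c →
      u a w * u c v * EE (Dir1 (boxPi G) (rest P l)) u o b =
      if DirAdj G l w v then u a w * u c v else 0 := by
    intro l a c w v hac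
    rw [mul_assoc, ← hcu, ← mul_assoc, ← hconst l hac, EE_sandwich h]
    simp only [dir1_iff]
  refine ⟨fun l => EE (Dir1 (boxPi G) (rest P l)) u o b, ?_, ?_, ?_, ?_, ?_, ?_, ?_⟩
  · intro l
    exact (EE_props h (hs l) (hadj hb) (hgood l hb)).1
  · intro l
    exact (EE_props h (hs l) (hadj hb) (hgood l hb)).2.1
  · intro l x hx
    have h1 : ∀ w v, x * (u o w * u b v) = (u o w * u b v) * x := by
      intro w v
      rw [← mul_assoc, hx, mul_assoc, hx, mul_assoc]
    show x * EE (Dir1 (boxPi G) (rest P l)) u o b = EE (Dir1 (boxPi G) (rest P l)) u o b * x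
    have e2 : EE (Dir1 (boxPi G) (rest P l)) u o b = ∑ w, ∑ v,
      if Dir1 (boxPi G) (rest P l) w v then u o w * u b v else 0 := rfl
    rw [e2, Finset.mul_sum, Finset.sum_mul]
    refine Finset.sum_congr rfl fun w _ => ?_
    rw [Finset.mul_sum, Finset.sum_mul]
    refine Finset.sum_congr rfl fun v _ => ?_
    split_ifs
    · exact h1 w v
    · simp
  · have hx : ∀ w v, ∑ l, (if Dir1 (boxPi G) (rest P l) w v then u o w * u b v else 0) =
        u o w * u b v := by
      intro w v
      by_cases hwv : (boxPi G).Adj w v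
      · obtain ⟨i, hi, hne⟩ := hwv
        rw [Finset.sum_eq_single i]
        · rw [if_pos ((dir1_iff G i w v).2 ⟨hi, hne⟩)]
        · intro l _ hl
          rw [if_neg]
          rw [dir1_iff]
          rintro ⟨h1, h2⟩
          have h3 := h2 i (Ne.symm hl)
          rw [h3] at hi
          exact hi.ne rfl
        · intro hi'; exact absurd (Finset.mem_univ _) hi'
      · have h0 : u o w * u b v = 0 :=
          h.adj _ _ _ _ fun h' => hwv (h'.1 (hadj hb))
        rw [h0]
        simp
    calc ∑ l, EE (Dir1 (boxPi G) (rest P l)) u o b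
        = ∑ l, ∑ w, ∑ v, (if Dir1 (boxPi G) (rest P l) w v then u o w * u b v else 0) := rfl
      _ = ∑ w, ∑ v, ∑ l, (if Dir1 (boxPi G) (rest P l) w v then u o w * u b v else 0) := by
          rw [Finset.sum_comm]
          refine Finset.sum_congr rfl fun w _ => ?_
          rw [Finset.sum_comm]
      _ = ∑ w, ∑ v, u o w * u b v := by
          refine Finset.sum_congr rfl fun w _ => Finset.sum_congr rfl fun v _ => hx w v
      _ = 1 := by
          simp only [← Finset.mul_sum, h.rowSum, mul_one]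
  · intro l a w
    exact hcu l a w
  · intro l a c w v hac hn
    rw [hsand l a c w v hac, if_pos hn]
  · intro l a c w v hac hn
    rw [hsand l a c w v hac, if_neg hn]

end

end Pool.Agent.L0h60.QS
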