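import Pool.Agent.L0h60.QS.Fine
import Pool.Agent.L0h60.QS.Cube

/-! The coordinates with two values in a product of graphs. -/

set_option autoImplicit false
set_option linter.unusedSectionVars false
set_option linter.unusedVariables false

namespace Pool.Agent.L0h60.QS

open Pool.Agent.H741.QS

section

variable {J : Type} [Fintype J] [DecidableEq J] (P : J → Type) [∀ k, Fintype (P k)]

/-- indices of the coordinates with two values -/
abbrev I2 : Type := {k : J // Fintype.card (P k) = 2}

variable {P}

noncomputable def eqB (k : I2 P) : P k.1 ≃ Bool := Fintype.equivOfCardEq (by rw [k.2]; simp)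

noncomputable def flipP (k : I2 P) (x : P k.1) : P k.1 := (eqB k).symm (! (eqB k x))

theorem flipP_flipP (k : I2 P) (x : P k.1) : flipP k (flipP k x) = x := by
  simp [flipP]

theorem flipP_ne (k : I2 P) (x : P k.1) : flipP k x ≠ x := by
  intro h
  have := congrArg (eqB k) h
  simp [flipP] at this

theorem eq_flipP (k : I2 P) {x y : P k.1} (h : y ≠ x) : y = flipP k x := by
  apply (eqB k).injective
  have h1 : eqB k y ≠ eqB k x := fun h2 => h ((eqB k).injective h2)
  simp only [flipP, Equiv.apply_symm_apply]
  cases hy : eqB k y <;> cases hx : eqB k x <;> simp_all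

noncomputable def fsP (S : Finset (I2 P)) (a : ∀ k, P k) : ∀ k, P k := fun j =>
  if hj : Fintype.card (P j) = 2 then
    (if (⟨j, hj⟩ : I2 P) ∈ S then flipP ⟨j, hj⟩ (a j) else a j) else a j

variable (P) in
/-- the coordinates with two values -/
noncomputable def cubeP : Cube (∀ k, P k) (I2 P) where
  fs := fsP
  t k a := if eqB k (a k.1) then 1 else -1
  fs_empty := by
    intro a
    funext j
    unfold fsP
    simp
  fs_fs := by
    intro S S' a
    funext j
    unfold fsP
    by_cases hj : Fintype.card (P j) = 2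
    · simp only [dif_pos hj]
      by_cases h1 : (⟨j, hj⟩ : I2 P) ∈ S <;> by_cases h2 : (⟨j, hj⟩ : I2 P) ∈ S' <;>
        simp [h1, h2, Finset.mem_symmDiff, flipP_flipP]
    · simp only [dif_neg hj]
  t_fs := by
    intro i S a
    have h1 : fsP S a i.1 = if i ∈ S then flipP i (a i.1) else a i.1 := by
      unfold fsP
      rw [dif_pos i.2]
    rw [h1]
    by_cases h2 : i ∈ S
    · simp only [h2, if_true, flipP, Equiv.apply_symm_apply]
      cases eqB i (a i.1) <;> simp
    · simp [h2]
  t_sq := by
    intro i a
    split_ifs <;> norm_num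

theorem cubeP_F_self (k : I2 P) (a : ∀ k, P k) : (cubeP P).F k a k.1 = flipP k (a k.1) := by
  show fsP {k} a k.1 = _
  unfold fsP
  rw [dif_pos k.2]
  simp

theorem cubeP_F_ne (k : I2 P) (a : ∀ k, P k) {j : J} (hj : j ≠ k.1) : (cubeP P).F k a j = a j := by
  show fsP {k} a j = _
  unfold fsP
  split_ifs with h1 h2
  · exfalso
    apply hj
    rw [Finset.mem_singleton] at h2
    rw [← h2]
  · rfl
  · rfl

theorem cubeP_t_iff (k : I2 P) (a b : ∀ k, P k) :
    (cubeP P).t k a = (cubeP P).t k b ↔ a k.1 = b k.1 := by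
  show (if eqB k (a k.1) then (1 : ℝ) else -1) = (if eqB k (b k.1) then (1 : ℝ) else -1) ↔ _
  constructor
  · intro h
    apply (eqB k).injective
    cases h1 : eqB k (a k.1) <;> cases h2 : eqB k (b k.1) <;> simp only [h1, h2] at h ⊢ <;>
      norm_num at h
  · intro h; rw [h]

theorem dirAdj_iff_F (G : ∀ k, SimpleGraph (P k)) (hG : ∀ k, (G k).Connected) (k : I2 P)
    (a b : ∀ k, P k) : DirAdj G k.1 a b ↔ b = (cubeP P).F k a := by
  constructor
  · rintro ⟨h1, h2⟩
    funext j
    by_cases hj : j = k.1
    · subst hj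
      rw [cubeP_F_self]
      exact eq_flipP k h1.ne'
    · rw [cubeP_F_ne k a hj]
      exact (h2 j hj).symm
  · rintro rfl
    refine ⟨?_, fun j hj => (cubeP_F_ne k a hj).symm⟩
    rw [cubeP_F_self]
    have : Nontrivial (P k.1) := Fintype.one_lt_card_iff_nontrivial.1 (by rw [k.2]; norm_num)
    obtain ⟨y, hy⟩ := (hG k.1).preconnected.exists_adj_of_nontrivial (a k.1)
    rw [← eq_flipP k hy.ne']
    exact hy

/-- paths with steps in a set of directions -/
theorem path_set (G : ∀ k, SimpleGraph (P k)) (hG : ∀ k, (G k).Connected) (S : Set J)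
    (T : Finset J) (hT : ∀ j ∈ T, j ∈ S) :
    ∀ a b : ∀ k, P k, (∀ j, j ∉ T → a j = b j) →
      Relation.ReflTransGen (fun x z : ∀ k, P k => ∃ j ∈ S, DirAdj G j x z) a b := by
  induction T using Finset.induction_on with
  | empty =>
    intro a b h
    have : a = b := funext fun j => h j (Finset.notMem_empty j)
    rw [this]
  | insert j T _ ih =>
    intro a b h
    have hjS : j ∈ S := hT j (Finset.mem_insert_self _ _)
    have h1 : Relation.ReflTransGen (fun x z : ∀ k, P k => ∃ j ∈ S, DirAdj G j x z) a
        (Function.update a j (b j)) := by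
      obtain ⟨p⟩ := (hG j).preconnected (a j) (b j)
      have key : ∀ (s t : P j), (G j).Walk s t →
          Relation.ReflTransGen (fun x z : ∀ k, P k => ∃ j ∈ S, DirAdj G j x z)
            (Function.update a j s) (Function.update a j t) := by
        intro s t p
        induction p with
        | nil => exact Relation.ReflTransGen.refl
        | cons h _ ih =>
          refine Relation.ReflTransGen.head ?_ ih
          refine ⟨j, hjS, ?_, ?_⟩
          · simpa using h
          · intro l hl
            rw [Function.update_of_ne hl, Function.update_of_ne hl]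
      have h := key (a j) (b j) p
      rwa [Function.update_eq_self] at h
    refine h1.trans ?_
    refine ih (fun j hj => hT j (Finset.mem_insert_of_mem hj)) _ _ fun l hl => ?_
    by_cases hlj : l = j
    · subst hlj
      simp
    · rw [Function.update_of_ne hlj]
      exact h l (by simp [hlj, hl])

theorem path_set' (G : ∀ k, SimpleGraph (P k)) (hG : ∀ k, (G k).Connected) (S : Set J)
    (a b : ∀ k, P k) (hab : ∀ j, j ∉ S → a j = b j) :
    Relation.ReflTransGen (fun x z : ∀ k, P k => ∃ j ∈ S, DirAdj G j x z) a b := by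
  classical
  refine path_set G hG S (Finset.univ.filter fun j => j ∈ S)
    (fun j hj => (Finset.mem_filter.1 hj).2) a b fun j hj => hab j fun h => hj ?_
  exact Finset.mem_filter.2 ⟨Finset.mem_univ _, h⟩

/-- a connected graph on at least three vertices has a vertex with two neighbours -/
theorem exists_two_nbrs {V : Type} [Fintype V] (G : SimpleGraph V) (hG : G.Connected)
    (h2 : 2 ≤ Fintype.card V) (hne : Fintype.card V ≠ 2) :
    ∃ a b c, G.Adj b a ∧ G.Adj b c ∧ a ≠ c := by
  classical
  have hnt : Nontrivial V := Fintype.one_lt_card_iff_nontrivial.1 h2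
  obtain ⟨x⟩ := hG.nonempty
  obtain ⟨y, hxy⟩ := hG.preconnected.exists_adj_of_nontrivial x
  have hz : ∃ z, z ≠ x ∧ z ≠ y := by
    by_contra hcon
    push Not at hcon
    have : (Finset.univ : Finset V) ⊆ {x, y} := by
      intro z _
      by_cases hzx : z = x
      · rw [hzx]; simp
      · rw [hcon z hzx]; simp
    have h3 := Finset.card_le_card this
    have h4 : ({x, y} : Finset V).card ≤ 2 := Finset.card_le_two
    rw [Finset.card_univ] at h3
    omega
  obtain ⟨z, hzx, hzy⟩ := hz
  obtain ⟨p⟩ := hG.preconnected x z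
  obtain ⟨d, -, hd1, hd2⟩ := p.exists_boundary_dart ({x, y} : Set V) (by simp) (by simp [hzx, hzy])
  simp only [Set.mem_insert_iff, Set.mem_singleton_iff, not_or] at hd1 hd2
  have hadj := d.adj
  rcases hd1 with h | h
  · rw [h] at hadj
    exact ⟨y, x, d.snd, hxy, hadj, Ne.symm hd2.2⟩
  · rw [h] at hadj
    exact ⟨x, y, d.snd, hxy.symm, hadj, Ne.symm hd2.1⟩

variable {A : Type} [Ring A] [StarRing A] [Algebra ℝ A] [StarModule ℝ A]

/-- an edge in a direction that is not `K_2` does not go to a direction `K_2` -/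
theorem dir_not (G : ∀ k, SimpleGraph (P k)) (hG : ∀ k, (G k).Connected)
    (hP : ∀ k, 2 ≤ Fintype.card (P k)) (hprime : ∀ k, PrimeGraph (G k))
    (hB : ∀ x : A, star x * x = 0 → x = 0)
    (u : (∀ k, P k) → (∀ k, P k) → A) (h : QIso (boxPi G) (boxPi G) u) {k l : J}
    (hk : Fintype.card (P k) ≠ 2) (hl : Fintype.card (P l) = 2) {a b w v : ∀ k, P k}
    (hab : DirAdj G k a b) (hwv : DirAdj G l w v) : u a w * u b v = 0 := by
  classical
  obtain ⟨E, e1, e2, e3, e4, e5, e6, e7⟩ := exists_central_k G hG hP hB u h k (hprime k)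
    (noK2_of_card (hprime k) (hP k) hk)
  have hE : E l = 0 := by
    obtain ⟨x, y, z, hyx, hyz, hxz⟩ := exists_two_nbrs (G k) (hG k) (hP k) hk
    obtain ⟨o⟩ := (boxPi_connected G hG).nonempty
    have hd : ∀ p q, (G k).Adj p q →
        DirAdj G k (Function.update o k p) (Function.update o k q) := by
      intro p q hpq
      refine ⟨by simpa using hpq, fun j hj => ?_⟩
      rw [Function.update_of_ne hj, Function.update_of_ne hj]
    have key : ∀ p, (G k).Adj y p → ∀ w,
        u (Function.update o k y) w * E l =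
        u (Function.update o k p) ((cubeP P).F ⟨l, hl⟩ w) *
          (u (Function.update o k y) w * E l) := by
      intro p hp w
      have h1 : u (Function.update o k y) w * E l = u (Function.update o k y) w *
          u (Function.update o k p) ((cubeP P).F ⟨l, hl⟩ w) * E l := by
        calc u (Function.update o k y) w * E l
            = ∑ v, u (Function.update o k y) w * u (Function.update o k p) v * E l := by
              rw [← Finset.sum_mul, ← Finset.mul_sum, h.rowSum, mul_one]
          _ = _ := by
              rw [Finset.sum_eq_single ((cubeP P).F ⟨l, hl⟩ w)]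
              · intro v _ hv
                apply e7 l _ _ _ _ (hd _ _ hp)
                intro hd'
                exact hv ((dirAdj_iff_F G hG ⟨l, hl⟩ w v).1 hd')
              · intro h0; exact absurd (Finset.mem_univ _) h0
      have h2 := congrArg star h1
      rw [star_mul, star_mul, star_mul, e1, h.star_eq, h.star_eq, ← mul_assoc] at h2
      rw [e5] at h2
      calc u (Function.update o k y) w * E l
          = E l * u (Function.update o k p) ((cubeP P).F ⟨l, hl⟩ w) *
            u (Function.update o k y) w := h2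
        _ = _ := by rw [e5, mul_assoc, e5]
    have hz0 : ∀ w, u (Function.update o k y) w * E l = 0 := by
      intro w
      rw [key x hyx w, key z hyz w, ← mul_assoc, h.colOrth, zero_mul]
      intro h0
      exact hxz (Function.update_injective o k h0)
    exact h.eq_zero_left _ hz0
  rw [← e6 l a b w v hab hwv, hE, mul_zero]

theorem dir_not' (G : ∀ k, SimpleGraph (P k)) (hG : ∀ k, (G k).Connected)
    (hP : ∀ k, 2 ≤ Fintype.card (P k)) (hprime : ∀ k, PrimeGraph (G k))
    (hB : ∀ x : A, star x * x = 0 → x = 0)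
    (u : (∀ k, P k) → (∀ k, P k) → A) (h : QIso (boxPi G) (boxPi G) u) {k l : J}
    (hk : Fintype.card (P k) = 2) (hl : Fintype.card (P l) ≠ 2) {a b w v : ∀ k, P k}
    (hab : DirAdj G k a b) (hwv : DirAdj G l w v) : u a w * u b v = 0 :=
  dir_not G hG hP hprime hB _ h.transpose hl hk hwv hab

theorem qc_half (G : ∀ k, SimpleGraph (P k)) (hG : ∀ k, (G k).Connected)
    (hP : ∀ k, 2 ≤ Fintype.card (P k)) (hprime : ∀ k, PrimeGraph (G k))
    (hB : ∀ x : A, star x * x = 0 → x = 0)
    (u : (∀ k, P k) → (∀ k, P k) → A) (h : QIso (boxPi G) (boxPi G) u) :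
    (∀ a w i v, u a w * u ((cubeP P).F i a) v ≠ 0 → ∃ l, v = (cubeP P).F l w) ∧
    (∀ a b w v, (∀ i, (cubeP P).t i a = (cubeP P).t i b) → u a w * u b v ≠ 0 →
      ∀ l, (cubeP P).t l w = (cubeP P).t l v) := by
  constructor
  · intro a w i v hne
    have hab : DirAdj G i.1 a ((cubeP P).F i a) := (dirAdj_iff_F G hG i _ _).2 rfl
    have hadj : (boxPi G).Adj a ((cubeP P).F i a) := ⟨i.1, hab.1, hab.2⟩
    have hwv : (boxPi G).Adj w v := by
      by_contra hn
      exact hne (h.adj _ _ _ _ fun h' => hn (h'.1 hadj))
    obtain ⟨l, hl1, hl2⟩ := hwv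
    by_cases hl : Fintype.card (P l) = 2
    · exact ⟨⟨l, hl⟩, (dirAdj_iff_F G hG ⟨l, hl⟩ _ _).1 ⟨hl1, hl2⟩⟩
    · exact absurd (dir_not' G hG hP hprime hB u h i.2 hl hab ⟨hl1, hl2⟩) hne
  · intro a b w v hab hne l
    have hpath := path_set' G hG {j | Fintype.card (P j) ≠ 2} a b (by
      intro j hj
      have hj' : Fintype.card (P j) = 2 := by
        by_contra h0; exact hj h0
      exact (cubeP_t_iff ⟨j, hj'⟩ a b).1 (hab ⟨j, hj'⟩))
    rw [cubeP_t_iff]
    clear hab
    induction hpath generalizing v with
    | refl =>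
      by_contra hn
      apply hne
      apply h.rowOrth
      rintro rfl
      exact hn rfl
    | @tail c b hac hcb ih =>
      have h1 : u a w * u b v = ∑ y, u a w * u c y * u b v := by
        rw [← Finset.sum_mul, ← Finset.mul_sum, h.rowSum, mul_one]
      rw [h1] at hne
      obtain ⟨y, -, hy⟩ := Finset.exists_ne_zero_of_sum_ne_zero hne
      have h3 : u a w * u c y ≠ 0 := fun h0 => hy (by rw [h0, zero_mul])
      have h4 : u c y * u b v ≠ 0 := fun h0 => hy (by rw [mul_assoc, h0, mul_zero])
      rw [ih y h3]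
      obtain ⟨j, hj, hd⟩ := hcb
      have hadj : (boxPi G).Adj c b := ⟨j, hd.1, hd.2⟩
      have hyv : (boxPi G).Adj y v := by
        by_contra hn
        exact h4 (h.adj _ _ _ _ fun h' => hn (h'.1 hadj))
      obtain ⟨m, hm1, hm2⟩ := hyv
      apply hm2
      rintro rfl
      exact h4 (dir_not G hG hP hprime hB u h hj l.2 hd ⟨hm1, hm2⟩)

theorem qc_of (G : ∀ k, SimpleGraph (P k)) (hG : ∀ k, (G k).Connected)
    (hP : ∀ k, 2 ≤ Fintype.card (P k)) (hprime : ∀ k, PrimeGraph (G k))
    (hB : ∀ x : A, star x * x = 0 → x = 0)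
    (u : (∀ k, P k) → (∀ k, P k) → A) (h : QIso (boxPi G) (boxPi G) u) :
    QC (cubeP P) (boxPi G) u where
  q := h
  h1 := (qc_half G hG hP hprime hB u h).1
  h1' := by
    intro a w b l hne
    exact (qc_half G hG hP hprime hB _ h.transpose).1 w a l b hne
  h2 := (qc_half G hG hP hprime hB u h).2
  h2' := by
    intro a b w v hwv hne
    exact (qc_half G hG hP hprime hB _ h.transpose).2 w v a b hwv hne

end

end Pool.Agent.L0h60.QS
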