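import Pool.Agent.L0h60.QS.Exch
import Pool.Agent.L0h60.QS.Design

/-! The key theorem, for algebras in which the entries of `w` are zero or cancellable. -/

set_option autoImplicit false
set_option linter.unusedSectionVars false

namespace Pool.Agent.L0h60.QS

open Pool.Agent.H741.QS

/-- a mixing operation on the vertices, compatible with the coordinates and with a relation -/
structure MixS {V I : Type} [DecidableEq I] (c : Cube V I) (D : I → Prop) [DecidablePred D]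
    (mx : V → V → V) (M : V → V → Prop) : Prop where
  self : ∀ a, mx a a = a
  left : ∀ a b d, mx (mx a b) d = mx a d
  right : ∀ a b d, mx a (mx b d) = mx a d
  fs : ∀ S S' a b, mx (c.fs S a) (c.fs S' b) =
    c.fs (S.filter D ∪ S'.filter (fun i => ¬ D i)) (mx a b)
  t : ∀ l a b, c.t l (mx a b) = if D l then c.t l a else c.t l b
  rel : ∀ a b a' b', M a b → M a' b' → M (mx a a') (mx b b')

theorem uniform {I : Type} [DecidableEq I] (C : Finset I) (D : I → Prop) [DecidablePred D]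
    (A B Z : Finset (Finset I)) (hA : A = {∅} ∨ A = {C} ∨ A = C.powerset)
    (hB : B = {∅} ∨ B = {C} ∨ B = C.powerset) (hZ : Z = {∅} ∨ Z = {C} ∨ Z = C.powerset)
    (h1 : ∀ ρ ∈ A, ∀ ρ' ∈ B, ρ.filter D ∪ ρ'.filter (fun i => ¬ D i) ∈ Z)
    (h2 : ∀ ρ ∈ Z, ∀ ρ' ∈ A, ρ.filter D ∪ ρ'.filter (fun i => ¬ D i) ∈ A)
    (h3 : ∀ ρ ∈ B, ∀ ρ' ∈ Z, ρ.filter D ∪ ρ'.filter (fun i => ¬ D i) ∈ B)
    {l0 l1 : I} (hl0 : l0 ∈ C) (hD0 : D l0) (hl1 : l1 ∈ C) (hD1 : ¬ D l1) : A = B := by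
  set X := C.filter D ∪ (∅ : Finset I).filter (fun i => ¬ D i) with hX
  set Y := (∅ : Finset I).filter D ∪ C.filter (fun i => ¬ D i) with hY
  have x0 : l0 ∈ X := Finset.mem_union_left _ (Finset.mem_filter.2 ⟨hl0, hD0⟩)
  have x1 : l1 ∉ X := by
    rw [hX]; simp [hD1]
  have y1 : l1 ∈ Y := Finset.mem_union_right _ (Finset.mem_filter.2 ⟨hl1, hD1⟩)
  have y0 : l0 ∉ Y := by
    rw [hY]; simp [hD0]
  have xe : X ∉ ({∅} : Finset (Finset I)) := by
    rw [Finset.mem_singleton]; intro h; rw [h] at x0; exact absurd x0 (Finset.notMem_empty _)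
  have xC : X ∉ ({C} : Finset (Finset I)) := by
    rw [Finset.mem_singleton]; intro h; rw [h] at x1; exact x1 hl1
  have ye : Y ∉ ({∅} : Finset (Finset I)) := by
    rw [Finset.mem_singleton]; intro h; rw [h] at y1; exact absurd y1 (Finset.notMem_empty _)
  have yC : Y ∉ ({C} : Finset (Finset I)) := by
    rw [Finset.mem_singleton]; intro h; rw [h] at y0; exact y0 hl0
  have ee : (∅ : Finset I) ∈ ({∅} : Finset (Finset I)) := Finset.mem_singleton_self _
  have CC : C ∈ ({C} : Finset (Finset I)) := Finset.mem_singleton_self _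
  have pe : (∅ : Finset I) ∈ C.powerset := Finset.empty_mem_powerset _
  have pC : C ∈ C.powerset := Finset.mem_powerset_self _
  have hZ' : X ∈ Z ∨ Y ∈ Z → Z = C.powerset := by
    intro h
    rcases hZ with hZ | hZ | hZ
    · rw [hZ] at h
      rcases h with h | h
      · exact absurd h xe
      · exact absurd h ye
    · rw [hZ] at h
      rcases h with h | h
      · exact absurd h xC
      · exact absurd h yC
    · exact hZ
  rcases hA with hA | hA | hA <;> rcases hB with hB | hB | hB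
  · rw [hA, hB]
  · have hz := hZ' (Or.inr (h1 ∅ (by rw [hA]; exact ee) C (by rw [hB]; exact CC)))
    have := h2 C (by rw [hz]; exact pC) ∅ (by rw [hA]; exact ee)
    rw [hA] at this; exact absurd this xe
  · have hz := hZ' (Or.inr (h1 ∅ (by rw [hA]; exact ee) C (by rw [hB]; exact pC)))
    have := h2 C (by rw [hz]; exact pC) ∅ (by rw [hA]; exact ee)
    rw [hA] at this; exact absurd this xe
  · have hz := hZ' (Or.inl (h1 C (by rw [hA]; exact CC) ∅ (by rw [hB]; exact ee)))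
    have := h2 ∅ (by rw [hz]; exact pe) C (by rw [hA]; exact CC)
    rw [hA] at this; exact absurd this yC
  · rw [hA, hB]
  · have hz := hZ' (Or.inl (h1 C (by rw [hA]; exact CC) ∅ (by rw [hB]; exact pe)))
    have := h2 ∅ (by rw [hz]; exact pe) C (by rw [hA]; exact CC)
    rw [hA] at this; exact absurd this yC
  · have hz := hZ' (Or.inl (h1 C (by rw [hA]; exact pC) ∅ (by rw [hB]; exact ee)))
    have := h3 ∅ (by rw [hB]; exact ee) C (by rw [hz]; exact pC)
    rw [hB] at this; exact absurd this ye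
  · have hz := hZ' (Or.inr (h1 ∅ (by rw [hA]; exact pe) C (by rw [hB]; exact CC)))
    have := h3 C (by rw [hB]; exact CC) ∅ (by rw [hz]; exact pe)
    rw [hB] at this; exact absurd this xC
  · rw [hA, hB]

section

variable {V I B : Type} [Fintype V] [Fintype I] [DecidableEq I]
  [Ring B] [StarRing B] [Algebra ℝ B] [StarModule ℝ B]
variable {c : Cube V I} {G : SimpleGraph V} {u : V → V → B} [Nonempty V]
variable {R C : Finset I} {M : V → V → Prop}

namespace QC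

theorem two (h : QC c G u) [Nontrivial B] (hc : Canc c u)
    (hM : ∀ a b w v, u a w * u b v ≠ 0 → (M a b ↔ M w v)) {l l' : I} (hs : Sh c u l l')
    (w v : V) : M (c.F l (c.F l' w)) (c.F l (c.F l' v)) ↔ M w v := by
  obtain ⟨k, hk, hk'⟩ := hs
  obtain ⟨a, b, hab⟩ := h.exists_partner w v
  have e1 : ∀ a y, ww c u k l * (ww c u k l' * u a y) =
      u a (c.F l (c.F l' y)) * (ww c u k l * ww c u k l') := by
    intro a y
    rw [h.ww_u, ← mul_assoc, h.ww_u, c.F_F, mul_assoc]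
  have e2 : ww c u k l * (ww c u k l' * (u a w * u b v)) =
      u a (c.F l (c.F l' w)) * u b (c.F l (c.F l' v)) * (ww c u k l * ww c u k l') := by
    rw [← mul_assoc (ww c u k l') (u a w), ← mul_assoc, e1, mul_assoc, mul_assoc (ww c u k l),
      e1, mul_assoc]
  have hne : u a (c.F l (c.F l' w)) * u b (c.F l (c.F l' v)) ≠ 0 := by
    intro h0
    rw [h0, zero_mul] at e2
    exact hab (hc.cancel hk' (hc.cancel hk e2))
  rw [← hM _ _ _ _ hne, hM _ _ _ _ hab]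

theorem one (h : QC c G u) {k l : I} (hkl : ww c u k l ≠ 0) (hc : Canc c u) {a b w v : V}
    (hab : u a w * u b v ≠ 0) : u (c.F k a) (c.F l w) * u (c.F k b) (c.F l v) ≠ 0 := by
  intro h0
  apply hab
  apply hc.cancel hkl
  rw [← mul_assoc, h.ww_u, mul_assoc, h.ww_u, ← mul_assoc, h0, zero_mul]

theorem key_ring (h : QC c G u) [Nontrivial B] (hc : Canc c u)
    (hM : ∀ a b w v, u a w * u b v ≠ 0 → (M a b ↔ M w v)) {D : I → Prop} [DecidablePred D]
    {mx : V → V → V} (hx : MixS c D mx M) {k0 l0 l1 : I} (h0 : ww c u k0 l0 ≠ 0)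
    (h1 : ww c u k0 l1 ≠ 0) (hD0 : D l0) (hD1 : ¬ D l1) :
    (∀ w v, M w v → c.t l0 w = c.t l0 v) ∨ (∀ w v, M w v → c.t l0 w = - c.t l0 v) ∨
      (∀ w v, M w v → M w (c.F l0 v)) := by
  classical
  have h01 : l0 ≠ l1 := by rintro rfl; exact hD1 hD0
  set C := colC c u l0 with hC
  set R := rowR c u l0 with hR
  have hl0 : l0 ∈ C := mem_colC.2 .refl
  have hl1 : l1 ∈ C := mem_colC.2 (Relation.ReflTransGen.single ⟨k0, h0, h1⟩)
  -- the flip of `l0`
  have f0' : ∀ w v, M w v → M (c.F l0 w) (c.F l0 v) := by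
    intro w v hwv
    have h2 := (h.two hc hM ⟨k0, h0, h1⟩ w v).2 hwv
    have h3 := hx.rel _ _ _ _ h2 hwv
    have e : ∀ x, mx (c.F l0 (c.F l1 x)) x = c.F l0 x := by
      intro x
      have e1 : c.F l0 (c.F l1 x) = c.fs (symmDiff {l0} {l1}) x := by
        unfold Cube.F; rw [c.fs_fs]
      have e2 : mx (c.F l0 (c.F l1 x)) x = mx (c.fs (symmDiff {l0} {l1}) x) (c.fs ∅ x) := by
        rw [e1, c.fs_empty]
      rw [e2, hx.fs, hx.self]
      unfold Cube.F
      congr 1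
      ext i
      simp only [Finset.mem_union, Finset.mem_filter, Finset.mem_symmDiff, Finset.mem_singleton,
        Finset.notMem_empty, false_and, or_false]
      constructor
      · rintro ⟨⟨h4, _⟩ | ⟨h4, _⟩, h5⟩
        · exact h4
        · rw [h4] at h5; exact absurd h5 hD1
      · rintro rfl
        exact ⟨Or.inl ⟨rfl, h01⟩, hD0⟩
    rw [e, e] at h3
    exact h3
  have f0 : ∀ w v, M (c.F l0 w) (c.F l0 v) ↔ M w v := by
    intro w v
    refine ⟨fun h2 => ?_, f0' w v⟩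
    have := f0' _ _ h2
    rwa [c.F_F, c.F_F] at this
  have fC : ∀ l ∈ C, ∀ w v, M (c.F l w) (c.F l v) ↔ M w v := by
    intro l hl
    have hl' := mem_colC.1 hl
    induction hl' with
    | refl => exact f0
    | tail hpq hqr ih =>
      rename_i p q
      intro w v
      rw [← ih (mem_colC.2 hpq), h.two hc hM hqr]
  have fR : ∀ k ∈ R, ∀ a b, M (c.F k a) (c.F k b) ↔ M a b := by
    intro k hk a b
    obtain ⟨l, hl, hkl⟩ := mem_rowR.1 hk
    obtain ⟨w, v, hab⟩ := h.transpose.exists_partner a b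
    rw [hM _ _ _ _ (h.one hkl hc hab), fC l hl, hM _ _ _ _ hab]
  have hb : Blk c u R C := blk l0
  have hPR : ∀ s : ℝ, PR c u R C (fun a b => M a b ∧ ∑ k ∈ R, c.t k a * c.t k b = s)
      (fun w v => M w v ∧ ∑ l ∈ C, c.t l w * c.t l v = s) := by
    intro s
    refine ⟨?_, ?_, ?_⟩
    · intro a b w v hne
      rw [hM _ _ _ _ hne, h.ham hb hne]
    · intro k hk a b
      rw [fR k hk]
      have : ∀ j, c.t j (c.F k a) * c.t j (c.F k b) = c.t j a * c.t j b := by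
        intro j; rw [c.t_F, c.t_F]; split_ifs <;> ring
      simp only [this]
    · intro k hk a b
      rw [fC k hk]
      have : ∀ j, c.t j (c.F k a) * c.t j (c.F k b) = c.t j a * c.t j b := by
        intro j; rw [c.t_F, c.t_F]; split_ifs <;> ring
      simp only [this]
  -- the families
  let T : V → V → Finset (Finset I) := fun w v => C.powerset.filter fun ρ => M w (c.fs ρ v)
  have memT : ∀ w v ρ, ρ ∈ T w v ↔ ρ ⊆ C ∧ M w (c.fs ρ v) := by
    intro w v ρ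
    simp only [T, Finset.mem_filter, Finset.mem_powerset]
  have hsum : ∀ w v, (∀ l ∈ C, c.t l w = c.t l v) → ∀ ρ ∈ C.powerset,
      ∑ l ∈ C, c.t l w * c.t l (c.fs ρ v) = (C.card : ℝ) - 2 * ρ.card := by
    intro w v hwv ρ hρ
    rw [Finset.mem_powerset] at hρ
    have e1 : ∀ l ∈ C, c.t l w * c.t l (c.fs ρ v) = 1 - 2 * (if l ∈ ρ then 1 else 0) := by
      intro l hl
      rw [hwv l hl, c.t_fs]
      have := c.t_sq l v
      split_ifs
      · linear_combination (-1) * this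
      · linear_combination this
    rw [Finset.sum_congr rfl e1, Finset.sum_sub_distrib, Finset.sum_const, ← Finset.mul_sum,
      Finset.sum_ite_mem, Finset.inter_eq_right.2 hρ, Finset.sum_const]
    simp
  have hind : ∀ w v, (∀ l ∈ C, c.t l w = c.t l v) → ∀ m : ℕ, ∀ ρ ∈ C.powerset,
      ind (M w (c.fs ρ v) ∧ ∑ l ∈ C, c.t l w * c.t l (c.fs ρ v) = (C.card : ℝ) - 2 * m) =
      if ρ ∈ T w v ∧ ρ.card = m then 1 else 0 := by
    intro w v hwv m ρ hρ
    unfold ind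
    rw [hsum w v hwv ρ hρ]
    have e1 : ((C.card : ℝ) - 2 * ρ.card = (C.card : ℝ) - 2 * m) ↔ ρ.card = m := by
      constructor
      · intro h2
        have : (ρ.card : ℝ) = m := by linarith
        exact_mod_cast this
      · intro h2; rw [h2]
    have e2 : ρ ∈ T w v ↔ M w (c.fs ρ v) := by
      rw [memT]
      exact ⟨fun h2 => h2.2, fun h2 => ⟨Finset.mem_powerset.1 hρ, h2⟩⟩
    simp only [e1, e2]
  have hsgn : ∀ w v, (∀ l ∈ C, c.t l w = c.t l v) → ∀ l ∈ C, ∀ ρ,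
      c.t l w * c.t l (c.fs ρ v) = 1 - 2 * (if l ∈ ρ then 1 else 0) := by
    intro w v hwv l hl ρ
    rw [hwv l hl, c.t_fs]
    have := c.t_sq l v
    split_ifs
    · linear_combination (-1) * this
    · linear_combination this
  have hcount : ∀ w v (p : Finset I → Prop) [DecidablePred p], (∑ ρ ∈ C.powerset,
      if ρ ∈ T w v ∧ p ρ then (1 : ℝ) else 0) = ((T w v).filter p).card := by
    intro w v p _
    rw [Finset.card_filter]
    push_cast
    have hsub : T w v ⊆ C.powerset := Finset.filter_subset _ _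
    rw [← Finset.sum_subset hsub]
    · refine Finset.sum_congr rfl fun ρ hρ => ?_
      simp only [hρ, true_and]
    · intro ρ _ hρ
      rw [if_neg (fun h2 => hρ h2.1)]
  have hd1 : ∀ w v, (∀ l ∈ C, c.t l w = c.t l v) → ∀ m, ∀ l ∈ C, ∀ l' ∈ C,
      ((T w v).filter fun ρ => ρ.card = m ∧ l ∈ ρ).card =
      ((T w v).filter fun ρ => ρ.card = m ∧ l' ∈ ρ).card := by
    intro w v hwv m l hl l' hl'
    have h2 := h.eq1 hc (hPR ((C.card : ℝ) - 2 * m)) hl hl' w v
    have e : ∀ l ∈ C, cnt1 c (fun w v => M w v ∧ ∑ l ∈ C, c.t l w * c.t l v =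
        (C.card : ℝ) - 2 * m) C l w v =
        (∑ ρ ∈ C.powerset, if ρ ∈ T w v ∧ ρ.card = m then (1 : ℝ) else 0) -
          2 * (((T w v).filter fun ρ => ρ.card = m ∧ l ∈ ρ).card : ℝ) := by
      intro l hl
      rw [← hcount w v (fun ρ => ρ.card = m ∧ l ∈ ρ), Finset.mul_sum, ← Finset.sum_sub_distrib]
      unfold cnt1
      refine Finset.sum_congr rfl fun ρ hρ => ?_
      rw [hind w v hwv m ρ hρ, hsgn w v hwv l hl]
      by_cases h3 : ρ ∈ T w v <;> by_cases h4 : ρ.card = m <;> by_cases h5 : l ∈ ρ <;>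
        simp [h3, h4, h5]
    rw [e l hl, e l' hl'] at h2
    have h3 : (((T w v).filter fun ρ => ρ.card = m ∧ l ∈ ρ).card : ℝ) =
      (((T w v).filter fun ρ => ρ.card = m ∧ l' ∈ ρ).card : ℝ) := by linarith
    exact_mod_cast h3
  have hd2 : ∀ w v, (∀ l ∈ C, c.t l w = c.t l v) → ∀ m, ∀ l ∈ C, ∀ l' ∈ C, l ≠ l' →
      ∀ p ∈ C, ∀ q ∈ C, p ≠ q →
      ((T w v).filter fun ρ => ρ.card = m ∧ l ∈ ρ ∧ l' ∈ ρ).card =
      ((T w v).filter fun ρ => ρ.card = m ∧ p ∈ ρ ∧ q ∈ ρ).card := by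
    intro w v hwv m l hl l' hl' hll p hp q hq hpq
    have h2 := h.eq2 hc (hPR ((C.card : ℝ) - 2 * m)) hl hl' hp hq hll hpq w v
    have e : ∀ l ∈ C, ∀ l' ∈ C, cnt2 c (fun w v => M w v ∧ ∑ l ∈ C, c.t l w * c.t l v =
        (C.card : ℝ) - 2 * m) C l l' w v =
        (∑ ρ ∈ C.powerset, if ρ ∈ T w v ∧ ρ.card = m then (1 : ℝ) else 0) -
          2 * (((T w v).filter fun ρ => ρ.card = m ∧ l ∈ ρ).card : ℝ) -
          2 * (((T w v).filter fun ρ => ρ.card = m ∧ l' ∈ ρ).card : ℝ) +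
          4 * (((T w v).filter fun ρ => ρ.card = m ∧ l ∈ ρ ∧ l' ∈ ρ).card : ℝ) := by
      intro l hl l' hl'
      rw [← hcount w v (fun ρ => ρ.card = m ∧ l ∈ ρ),
        ← hcount w v (fun ρ => ρ.card = m ∧ l' ∈ ρ),
        ← hcount w v (fun ρ => ρ.card = m ∧ l ∈ ρ ∧ l' ∈ ρ), Finset.mul_sum, Finset.mul_sum,
        Finset.mul_sum, ← Finset.sum_sub_distrib, ← Finset.sum_sub_distrib,
        ← Finset.sum_add_distrib]
      unfold cnt2
      refine Finset.sum_congr rfl fun ρ hρ => ?_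
      rw [hind w v hwv m ρ hρ, hsgn w v hwv l hl, hsgn w v hwv l' hl']
      by_cases h3 : ρ ∈ T w v <;> by_cases h4 : ρ.card = m <;> by_cases h5 : l ∈ ρ <;>
        by_cases h6 : l' ∈ ρ <;> simp [h3, h4, h5, h6] <;> norm_num
    rw [e l hl l' hl', e p hp q hq] at h2
    have e1 := hd1 w v hwv m l hl p hp
    have e2 := hd1 w v hwv m l' hl' q hq
    rw [e1, e2] at h2
    have h3 : (((T w v).filter fun ρ => ρ.card = m ∧ l ∈ ρ ∧ l' ∈ ρ).card : ℝ) =
      (((T w v).filter fun ρ => ρ.card = m ∧ p ∈ ρ ∧ q ∈ ρ).card : ℝ) := by linarith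
    exact_mod_cast h3
  have mixsub : ∀ ρ ρ' : Finset I, ρ ⊆ C → ρ' ⊆ C →
      ρ.filter D ∪ ρ'.filter (fun i => ¬ D i) ⊆ C := by
    intro ρ ρ' hρ hρ'
    exact Finset.union_subset ((Finset.filter_subset _ _).trans hρ)
      ((Finset.filter_subset _ _).trans hρ')
  have hcl : ∀ w v, (∀ l ∈ C, c.t l w = c.t l v) → (T w v).Nonempty →
      T w v = {∅} ∨ T w v = {C} ∨ T w v = C.powerset := by
    intro w v hwv hne
    refine classify C D (T w v) (Finset.filter_subset _ _) hne ?_ (hd1 w v hwv) (hd2 w v hwv)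
      hl0 hD0 hl1 hD1
    intro ρ hρ ρ' hρ'
    rw [memT] at hρ hρ' ⊢
    refine ⟨mixsub _ _ hρ.1 hρ'.1, ?_⟩
    have h2 := hx.rel _ _ _ _ hρ.2 hρ'.2
    rwa [hx.fs, hx.self, hx.self] at h2
  have huni : ∀ w v w0 v0, (∀ l ∈ C, c.t l w = c.t l v) → (T w v).Nonempty →
      (∀ l ∈ C, c.t l w0 = c.t l v0) → (T w0 v0).Nonempty → T w v = T w0 v0 := by
    intro w v w0 v0 hwv hne hwv0 hne0
    have hn : ∀ l ∈ C, c.t l (mx w w0) = c.t l (mx v v0) := by
      intro l hl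
      rw [hx.t, hx.t, hwv l hl, hwv0 l hl]
    have a1 : ∀ ρ ∈ T w v, ∀ ρ' ∈ T w0 v0, ρ.filter D ∪ ρ'.filter (fun i => ¬ D i) ∈
        T (mx w w0) (mx v v0) := by
      intro ρ hρ ρ' hρ'
      rw [memT] at hρ hρ' ⊢
      refine ⟨mixsub _ _ hρ.1 hρ'.1, ?_⟩
      have h2 := hx.rel _ _ _ _ hρ.2 hρ'.2
      rwa [hx.fs] at h2
    have a2 : ∀ ρ ∈ T (mx w w0) (mx v v0), ∀ ρ' ∈ T w v,
        ρ.filter D ∪ ρ'.filter (fun i => ¬ D i) ∈ T w v := by
      intro ρ hρ ρ' hρ'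
      rw [memT] at hρ hρ' ⊢
      refine ⟨mixsub _ _ hρ.1 hρ'.1, ?_⟩
      have h2 := hx.rel _ _ _ _ hρ.2 hρ'.2
      rwa [hx.fs, hx.left, hx.left, hx.self, hx.self] at h2
    have a3 : ∀ ρ ∈ T w0 v0, ∀ ρ' ∈ T (mx w w0) (mx v v0),
        ρ.filter D ∪ ρ'.filter (fun i => ¬ D i) ∈ T w0 v0 := by
      intro ρ hρ ρ' hρ'
      rw [memT] at hρ hρ' ⊢
      refine ⟨mixsub _ _ hρ.1 hρ'.1, ?_⟩
      have h2 := hx.rel _ _ _ _ hρ.2 hρ'.2
      rwa [hx.fs, hx.right, hx.right, hx.self, hx.self] at h2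
    have hneZ : (T (mx w w0) (mx v v0)).Nonempty := by
      obtain ⟨ρ, hρ⟩ := hne
      obtain ⟨ρ', hρ'⟩ := hne0
      exact ⟨_, a1 ρ hρ ρ' hρ'⟩
    exact uniform C D _ _ _ (hcl w v hwv hne) (hcl w0 v0 hwv0 hne0) (hcl _ _ hn hneZ) a1 a2 a3
      hl0 hD0 hl1 hD1
  -- normalisation
  have hnorm : ∀ w v, M w v → ∃ ρ v', ρ ∈ T w v' ∧ (∀ l ∈ C, c.t l w = c.t l v') ∧
      v = c.fs ρ v' ∧ (l0 ∈ ρ ↔ c.t l0 w ≠ c.t l0 v) := by
    intro w v hwv
    refine ⟨C.filter fun l => c.t l w ≠ c.t l v,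
      c.fs (C.filter fun l => c.t l w ≠ c.t l v) v, ?_, ?_, ?_, ?_⟩
    · rw [memT, c.fs_self]
      exact ⟨Finset.filter_subset _ _, hwv⟩
    · intro l hl
      rw [c.t_fs]
      by_cases h2 : c.t l w = c.t l v
      · rw [if_neg (by simp [h2]), h2]
      · rw [if_pos (Finset.mem_filter.2 ⟨hl, h2⟩)]
        rcases c.t_cases l w v with h3 | h3
        · exact absurd h3 h2
        · exact h3
    · rw [c.fs_self]
    · rw [Finset.mem_filter]
      exact ⟨fun h2 => h2.2, fun h2 => ⟨hl0, h2⟩⟩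
  by_contra hcon
  push Not at hcon
  obtain ⟨⟨w1, v1, hM1, ht1⟩, ⟨w2, v2, hM2, ht2⟩, ⟨w3, v3, hM3, ht3⟩⟩ := hcon
  obtain ⟨ρ1, v1', hρ1, hn1, hv1, hi1⟩ := hnorm w1 v1 hM1
  obtain ⟨ρ2, v2', hρ2, hn2, hv2, hi2⟩ := hnorm w2 v2 hM2
  obtain ⟨ρ3, v3', hρ3, hn3, hv3, hi3⟩ := hnorm w3 v3 hM3
  have e12 := huni _ _ _ _ hn1 ⟨_, hρ1⟩ hn2 ⟨_, hρ2⟩
  have e13 := huni _ _ _ _ hn1 ⟨_, hρ1⟩ hn3 ⟨_, hρ3⟩
  rcases hcl w1 v1' hn1 ⟨_, hρ1⟩ with h2 | h2 | h2
  · rw [h2, Finset.mem_singleton] at hρ1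
    have := hi1.2 ht1
    rw [hρ1] at this
    exact absurd this (Finset.notMem_empty _)
  · rw [← e12, h2, Finset.mem_singleton] at hρ2
    have h4 : l0 ∈ ρ2 := by rw [hρ2]; exact hl0
    rcases c.t_cases l0 w2 v2 with h5 | h5
    · exact hi2.1 h4 h5
    · exact ht2 h5
  · have h4 : symmDiff {l0} ρ3 ∈ T w3 v3' := by
      rw [← e13, h2, Finset.mem_powerset]
      intro x hx
      rcases Finset.mem_symmDiff.1 hx with h5 | h5
      · rw [Finset.mem_singleton.1 h5.1]; exact hl0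
      · exact ((memT _ _ _).1 hρ3).1 h5.1
    have h5 := ((memT _ _ _).1 h4).2
    rw [← c.F_fs, ← hv3] at h5
    exact ht3 h5

end QC

end

end Pool.Agent.L0h60.QS
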