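import Pool.Agent.L0h60.QS.Block

/-! The core identity and its consequences for one and two signs. -/

set_option autoImplicit false
set_option linter.unusedSectionVars false

namespace Pool.Agent.L0h60.QS

open Pool.Agent.H741.QS

section

variable {V I B : Type} [Fintype V] [Fintype I] [DecidableEq I]
  [Ring B] [StarRing B] [Algebra ℝ B] [StarModule ℝ B]
variable {c : Cube V I} {G : SimpleGraph V} {u : V → V → B} [Nonempty V]
variable {R C : Finset I}

open Classical in
/-- indicator -/
noncomputable def ind (P : Prop) : ℝ := if P then 1 else 0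

theorem ind_congr {P Q : Prop} (h : P ↔ Q) : ind P = ind Q := by
  rw [propext h]

/-- signed count of the orbit of `v` -/
noncomputable def cnt1 (c : Cube V I) (P : V → V → Prop) (C : Finset I) (l : I) (w v : V) : ℝ :=
  ∑ ρ ∈ C.powerset, ind (P w (c.fs ρ v)) * (c.t l w * c.t l (c.fs ρ v))

noncomputable def cnt2 (c : Cube V I) (P : V → V → Prop) (C : Finset I) (l m : I) (w v : V) : ℝ :=
  ∑ ρ ∈ C.powerset, ind (P w (c.fs ρ v)) *
    ((c.t l w * c.t l (c.fs ρ v)) * (c.t m w * c.t m (c.fs ρ v)))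

/-- a pair of relations, compatible with `u` and with the flips in the block -/
structure PR (c : Cube V I) (u : V → V → B) (R C : Finset I) (P Q : V → V → Prop) : Prop where
  comp : ∀ a b w v, u a w * u b v ≠ 0 → (P a b ↔ Q w v)
  flipR : ∀ k ∈ R, ∀ a b, P (c.F k a) (c.F k b) ↔ P a b
  flipC : ∀ l ∈ C, ∀ w v, Q (c.F l w) (c.F l v) ↔ Q w v

variable {P Q : V → V → Prop}

theorem fs_iff {Q : V → V → Prop} (hQ : ∀ l ∈ C, ∀ w v, Q (c.F l w) (c.F l v) ↔ Q w v)
    {σ : Finset I} (hσ : σ ⊆ C) (w v : V) : Q (c.fs σ w) (c.fs σ v) ↔ Q w v := by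
  induction σ using Finset.induction_on with
  | empty => rw [c.fs_empty, c.fs_empty]
  | insert i S hi ih =>
    rw [c.fs_insert hi, c.fs_insert hi, hQ i (hσ (Finset.mem_insert_self _ _))]
    exact ih fun x hx => hσ (Finset.mem_insert_of_mem hx)

theorem t_fs_mul (l : I) (σ : Finset I) (w v : V) :
    c.t l (c.fs σ w) * c.t l (c.fs σ v) = c.t l w * c.t l v := by
  rw [c.t_fs, c.t_fs]; split_ifs <;> ring

theorem cnt1_fs (hQ : ∀ l ∈ C, ∀ w v, Q (c.F l w) (c.F l v) ↔ Q w v) {σ : Finset I} (hσ : σ ⊆ C)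
    (l : I) (w v : V) : cnt1 c Q C l (c.fs σ w) v = cnt1 c Q C l w v := by
  unfold cnt1
  rw [← c.sum_fs' hσ (fun x => ind (Q (c.fs σ w) x) * (c.t l (c.fs σ w) * c.t l x)) v]
  refine Finset.sum_congr rfl fun ρ _ => ?_
  rw [t_fs_mul, ind_congr (fs_iff hQ hσ w _)]

theorem cnt2_fs (hQ : ∀ l ∈ C, ∀ w v, Q (c.F l w) (c.F l v) ↔ Q w v) {σ : Finset I} (hσ : σ ⊆ C)
    (l m : I) (w v : V) : cnt2 c Q C l m (c.fs σ w) v = cnt2 c Q C l m w v := by
  unfold cnt2
  rw [← c.sum_fs' hσ (fun x => ind (Q (c.fs σ w) x) * ((c.t l (c.fs σ w) * c.t l x) *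
    (c.t m (c.fs σ w) * c.t m x))) v]
  refine Finset.sum_congr rfl fun ρ _ => ?_
  rw [t_fs_mul, t_fs_mul, ind_congr (fs_iff hQ hσ w _)]

theorem cnt2_comm (l m : I) (w v : V) : cnt2 c Q C l m w v = cnt2 c Q C m l w v := by
  unfold cnt2
  exact Finset.sum_congr rfl fun ρ _ => by ring

namespace QC

theorem core (h : QC c G u) (hb : Blk c u R C) (hP : PR c u R C P Q) (τ : V → ℝ) (a b w v : V) :
    ∑ r ∈ R.powerset, ind (P a (c.fs r b)) • (u a w * (al u τ (c.fs r b) * Pi' c u C b v)) =
      (∑ ρ ∈ C.powerset, ind (Q w (c.fs ρ v)) * τ (c.fs ρ v)) • (u a w * Pi' c u C b v) := by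
  have e1 : ∀ r ∈ R.powerset,
      ind (P a (c.fs r b)) • (u a w * (al u τ (c.fs r b) * Pi' c u C b v)) =
      ∑ ρ ∈ C.powerset, (ind (Q w (c.fs ρ v)) * τ (c.fs ρ v)) •
        (u a w * u (c.fs r b) (c.fs ρ v)) := by
    intro r hr
    rw [← h.Pi_row hb (Finset.mem_powerset.1 hr) b v]
    unfold Pi'
    rw [Finset.mul_sum, Finset.mul_sum, Finset.smul_sum]
    refine Finset.sum_congr rfl fun ρ _ => ?_
    rw [h.q.al_mul_u, mul_smul_comm, smul_smul]
    by_cases h0 : u a w * u (c.fs r b) (c.fs ρ v) = 0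
    · rw [h0, smul_zero, smul_zero]
    · rw [ind_congr (hP.comp _ _ _ _ h0)]
  rw [Finset.sum_congr rfl e1, Finset.sum_comm, Finset.sum_smul]
  refine Finset.sum_congr rfl fun ρ hρ => ?_
  rw [← Finset.smul_sum, ← Finset.mul_sum, ← Pi_col (c := c) (u := u)
    (Finset.mem_powerset.1 hρ) b v, h.Pi_eq hb]

theorem Tl_blk (h : QC c G u) (l : I) (a : V) :
    Tl c u l a = ∑ k, c.t k a • ww c u k l := h.Tl_eq l a

theorem level1_aux (h : QC c G u) (hb : Blk c u R C) (hP : PR c u R C P Q) (l : I) (a b w v : V) :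
    ∑ k, (c.t k a * (cnt1 c P R k a b - cnt1 c Q C l w v)) •
      (u a w * (ww c u k l * Pi' c u C b v)) = 0 := by
  have h1 := h.core hb hP (c.t l) a b w v
  have h2 : ∑ r ∈ R.powerset, ind (P a (c.fs r b)) •
      (u a w * (al u (c.t l) (c.fs r b) * Pi' c u C b v)) =
      ∑ k, (c.t k a * cnt1 c P R k a b) • (u a w * (ww c u k l * Pi' c u C b v)) := by
    have e1 : ∀ r, ind (P a (c.fs r b)) • (u a w * (al u (c.t l) (c.fs r b) * Pi' c u C b v)) =
        ∑ k, (ind (P a (c.fs r b)) * c.t k (c.fs r b)) •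
          (u a w * (ww c u k l * Pi' c u C b v)) := by
      intro r
      have : al u (c.t l) (c.fs r b) = ∑ k, c.t k (c.fs r b) • ww c u k l := h.Tl_eq l _
      rw [this, Finset.sum_mul, Finset.mul_sum, Finset.smul_sum]
      refine Finset.sum_congr rfl fun k _ => ?_
      rw [smul_mul_assoc, mul_smul_comm, smul_smul]
    rw [Finset.sum_congr rfl fun r _ => e1 r, Finset.sum_comm]
    refine Finset.sum_congr rfl fun k _ => ?_
    rw [← Finset.sum_smul]
    congr 1
    unfold cnt1
    rw [Finset.mul_sum]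
    refine Finset.sum_congr rfl fun r _ => ?_
    have := c.t_sq k a
    linear_combination (-(ind (P a (c.fs r b)) * c.t k (c.fs r b))) * this
  have h3 : (∑ ρ ∈ C.powerset, ind (Q w (c.fs ρ v)) * c.t l (c.fs ρ v)) •
      (u a w * Pi' c u C b v) =
      ∑ k, (c.t k a * cnt1 c Q C l w v) • (u a w * (ww c u k l * Pi' c u C b v)) := by
    have e1 : (∑ ρ ∈ C.powerset, ind (Q w (c.fs ρ v)) * c.t l (c.fs ρ v)) =
        cnt1 c Q C l w v * c.t l w := by
      unfold cnt1
      rw [Finset.sum_mul]
      refine Finset.sum_congr rfl fun ρ _ => ?_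
      have := c.t_sq l w
      linear_combination (-(ind (Q w (c.fs ρ v)) * c.t l (c.fs ρ v))) * this
    have e2 : c.t l w • u a w = u a w * ∑ k, c.t k a • ww c u k l := by
      rw [← h.Tl_eq l a]
      exact (h.q.u_mul_al _ _ _).symm
    rw [e1, mul_smul, ← smul_mul_assoc, e2, Finset.mul_sum, Finset.sum_mul, Finset.smul_sum]
    refine Finset.sum_congr rfl fun k _ => ?_
    rw [mul_smul_comm, smul_mul_assoc, smul_smul, mul_assoc, mul_comm (c.t k a)]
  rw [h2, h3] at h1
  rw [← sub_eq_zero, ← Finset.sum_sub_distrib] at h1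
  rw [← h1]
  refine Finset.sum_congr rfl fun k _ => ?_
  rw [← sub_smul, mul_sub]

theorem level1_aux' (h : QC c G u) (hb : Blk c u R C) (hP : PR c u R C P Q) (l : I)
    (a b w v : V) :
    ∑ k, (c.t k a * (cnt1 c P R k a b - cnt1 c Q C l w v)) •
      (Pi' c u C a w * (ww c u k l * Pi' c u C b v)) = 0 := by
  have h1 : ∑ ρ ∈ C.powerset, ∑ k, (c.t k a * (cnt1 c P R k a b - cnt1 c Q C l w v)) •
      (u a (c.fs ρ w) * (ww c u k l * Pi' c u C b v)) = 0 := by
    apply Finset.sum_eq_zero
    intro ρ hρ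
    have := h.level1_aux hb hP l a b (c.fs ρ w) v
    rwa [cnt1_fs hP.flipC (Finset.mem_powerset.1 hρ)] at this
  rw [Finset.sum_comm] at h1
  rw [← h1]
  refine Finset.sum_congr rfl fun k _ => ?_
  rw [← Finset.smul_sum, ← Finset.sum_mul]
  rfl

theorem level1 (h : QC c G u) (hb : Blk c u R C) (hP : PR c u R C P Q) {k l : I} (hk : k ∈ R)
    (a b w v : V) :
    (cnt1 c P R k a b - cnt1 c Q C l w v) •
      (Pi' c u C a w * (ww c u k l * Pi' c u C b v)) = 0 := by
  have h1 := h.level1_aux' hb hP l a b w v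
  have h2 := h.level1_aux' hb hP l (c.F k a) b w v
  have e1 : Pi' c u C (c.F k a) w = Pi' c u C a w :=
    h.Pi_row hb (s := {k}) (by simpa using hk) a w
  have e2 : ∀ j, cnt1 c P R j (c.F k a) b = cnt1 c P R j a b := fun j =>
    cnt1_fs hP.flipR (σ := {k}) (by simpa using hk) j a b
  simp only [e1, e2] at h2
  have h3 : (2 * c.t k a) • ((cnt1 c P R k a b - cnt1 c Q C l w v) •
      (Pi' c u C a w * (ww c u k l * Pi' c u C b v))) = 0 := by
    calc (2 * c.t k a) • ((cnt1 c P R k a b - cnt1 c Q C l w v) •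
      (Pi' c u C a w * (ww c u k l * Pi' c u C b v)))
        = ∑ j, ((c.t j a * (cnt1 c P R j a b - cnt1 c Q C l w v)) •
            (Pi' c u C a w * (ww c u j l * Pi' c u C b v)) -
            (c.t j (c.F k a) * (cnt1 c P R j a b - cnt1 c Q C l w v)) •
            (Pi' c u C a w * (ww c u j l * Pi' c u C b v))) := by
          rw [Finset.sum_eq_single k]
          · rw [c.t_F_self, ← sub_smul, smul_smul]
            congr 1; ring
          · intro j _ hj
            rw [c.t_F_ne hj, sub_self]
          · intro h0; exact absurd (Finset.mem_univ _) h0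
      _ = 0 := by rw [Finset.sum_sub_distrib, h1, h2, sub_zero]
  rcases smul_eq_zero.1 h3 with h4 | h4
  · have := c.t_ne_zero k a
    exfalso; apply this; linarith
  · exact h4

theorem level2_aux (h : QC c G u) (hb : Blk c u R C) (hP : PR c u R C P Q) (l m : I)
    (a b w v : V) :
    ∑ k, ∑ j, (c.t k a * c.t j a * (cnt2 c P R k j a b - cnt2 c Q C l m w v)) •
      (u a w * (ww c u k l * ww c u j m * Pi' c u C b v)) = 0 := by
  have hTT : ∀ x, al u (fun y => c.t l y * c.t m y) x =
      ∑ k, ∑ j, (c.t k x * c.t j x) • (ww c u k l * ww c u j m) := by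
    intro x
    have e1 : al u (fun y => c.t l y * c.t m y) x = Tl c u l x * Tl c u m x := by
      rw [← sub_eq_zero]
      apply h.q.eq_zero_right x
      intro y
      rw [sub_mul, h.q.al_mul_u]
      unfold Tl
      rw [mul_assoc, h.q.al_mul_u, mul_smul_comm, h.q.al_mul_u, smul_smul, mul_comm (c.t m y),
        sub_self]
    rw [e1, h.Tl_eq, h.Tl_eq, Finset.sum_mul_sum]
    refine Finset.sum_congr rfl fun k _ => Finset.sum_congr rfl fun j _ => ?_
    rw [smul_mul_assoc, mul_smul_comm, smul_smul]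
  have h1 := h.core hb hP (fun y => c.t l y * c.t m y) a b w v
  have h2 : ∑ r ∈ R.powerset, ind (P a (c.fs r b)) •
      (u a w * (al u (fun y => c.t l y * c.t m y) (c.fs r b) * Pi' c u C b v)) =
      ∑ k, ∑ j, (c.t k a * c.t j a * cnt2 c P R k j a b) •
        (u a w * (ww c u k l * ww c u j m * Pi' c u C b v)) := by
    have e1 : ∀ r, ind (P a (c.fs r b)) •
        (u a w * (al u (fun y => c.t l y * c.t m y) (c.fs r b) * Pi' c u C b v)) =
        ∑ k, ∑ j, (ind (P a (c.fs r b)) * (c.t k (c.fs r b) * c.t j (c.fs r b))) •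
          (u a w * (ww c u k l * ww c u j m * Pi' c u C b v)) := by
      intro r
      rw [hTT, Finset.sum_mul, Finset.mul_sum, Finset.smul_sum]
      refine Finset.sum_congr rfl fun k _ => ?_
      rw [Finset.sum_mul, Finset.mul_sum, Finset.smul_sum]
      refine Finset.sum_congr rfl fun j _ => ?_
      rw [smul_mul_assoc, mul_smul_comm, smul_smul]
    rw [Finset.sum_congr rfl fun r _ => e1 r, Finset.sum_comm]
    refine Finset.sum_congr rfl fun k _ => ?_
    rw [Finset.sum_comm]
    refine Finset.sum_congr rfl fun j _ => ?_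
    rw [← Finset.sum_smul]
    congr 1
    unfold cnt2
    rw [Finset.mul_sum]
    refine Finset.sum_congr rfl fun r _ => ?_
    have e2 := c.t_sq k a
    have e3 := c.t_sq j a
    linear_combination (-(ind (P a (c.fs r b)) * c.t k (c.fs r b) * c.t j (c.fs r b)) *
      (c.t j a * c.t j a)) * e2 + (-(ind (P a (c.fs r b)) * c.t k (c.fs r b) *
      c.t j (c.fs r b))) * e3
  have h3 : (∑ ρ ∈ C.powerset, ind (Q w (c.fs ρ v)) * (c.t l (c.fs ρ v) * c.t m (c.fs ρ v))) •
      (u a w * Pi' c u C b v) =
      ∑ k, ∑ j, (c.t k a * c.t j a * cnt2 c Q C l m w v) •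
        (u a w * (ww c u k l * ww c u j m * Pi' c u C b v)) := by
    have e1 : (∑ ρ ∈ C.powerset, ind (Q w (c.fs ρ v)) *
        (c.t l (c.fs ρ v) * c.t m (c.fs ρ v))) =
        cnt2 c Q C l m w v * (c.t l w * c.t m w) := by
      unfold cnt2
      rw [Finset.sum_mul]
      refine Finset.sum_congr rfl fun ρ _ => ?_
      have e2 := c.t_sq l w
      have e3 := c.t_sq m w
      linear_combination (-(ind (Q w (c.fs ρ v)) * c.t l (c.fs ρ v) * c.t m (c.fs ρ v)) *
        (c.t m w * c.t m w)) * e2 + (-(ind (Q w (c.fs ρ v)) * c.t l (c.fs ρ v) *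
        c.t m (c.fs ρ v))) * e3
    have e2 : (c.t l w * c.t m w) • u a w =
        u a w * ∑ k, ∑ j, (c.t k a * c.t j a) • (ww c u k l * ww c u j m) := by
      rw [← hTT a]
      exact (h.q.u_mul_al (fun y => c.t l y * c.t m y) _ _).symm
    rw [e1, mul_smul, ← smul_mul_assoc, e2, Finset.mul_sum, Finset.sum_mul, Finset.smul_sum]
    refine Finset.sum_congr rfl fun k _ => ?_
    rw [Finset.mul_sum, Finset.sum_mul, Finset.smul_sum]
    refine Finset.sum_congr rfl fun j _ => ?_
    rw [mul_smul_comm, smul_mul_assoc, smul_smul, mul_assoc, mul_comm (c.t k a * c.t j a)]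
  rw [h2, h3] at h1
  rw [← sub_eq_zero, ← Finset.sum_sub_distrib] at h1
  rw [← h1]
  refine Finset.sum_congr rfl fun k _ => ?_
  rw [← Finset.sum_sub_distrib]
  refine Finset.sum_congr rfl fun j _ => ?_
  rw [← sub_smul, mul_sub]

theorem level2_aux' (h : QC c G u) (hb : Blk c u R C) (hP : PR c u R C P Q) (l m : I)
    (a b w v : V) :
    ∑ k, ∑ j, (c.t k a * c.t j a) • ((cnt2 c P R k j a b - cnt2 c Q C l m w v) •
      (Pi' c u C a w * (ww c u k l * ww c u j m * Pi' c u C b v))) = 0 := by
  have h1 : ∑ ρ ∈ C.powerset, ∑ k, ∑ j,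
      (c.t k a * c.t j a * (cnt2 c P R k j a b - cnt2 c Q C l m w v)) •
      (u a (c.fs ρ w) * (ww c u k l * ww c u j m * Pi' c u C b v)) = 0 := by
    apply Finset.sum_eq_zero
    intro ρ hρ
    have := h.level2_aux hb hP l m a b (c.fs ρ w) v
    rwa [cnt2_fs hP.flipC (Finset.mem_powerset.1 hρ)] at this
  rw [Finset.sum_comm] at h1
  rw [← h1]
  refine Finset.sum_congr rfl fun k _ => ?_
  rw [Finset.sum_comm]
  refine Finset.sum_congr rfl fun j _ => ?_
  rw [← Finset.smul_sum, ← Finset.sum_mul, smul_smul]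
  rfl

end QC

/-- polarisation of a quadratic form in the signs -/
theorem polar (z : I → I → B) {j j' : I} (hjj : j ≠ j') (a : V)
    (h0 : ∑ k, ∑ l, (c.t k a * c.t l a) • z k l = 0)
    (h1 : ∑ k, ∑ l, (c.t k (c.F j a) * c.t l (c.F j a)) • z k l = 0)
    (h2 : ∑ k, ∑ l, (c.t k (c.F j' a) * c.t l (c.F j' a)) • z k l = 0)
    (h3 : ∑ k, ∑ l, (c.t k (c.F j (c.F j' a)) * c.t l (c.F j (c.F j' a))) • z k l = 0) :
    z j j' + z j' j = 0 := by
  have e : (4 * (c.t j a * c.t j' a)) • (z j j' + z j' j) = 0 := by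
    calc (4 * (c.t j a * c.t j' a)) • (z j j' + z j' j)
        = ∑ k, ∑ l, ((if k = j ∧ l = j' then (4 * (c.t j a * c.t j' a)) else 0) • z k l +
            (if k = j' ∧ l = j then (4 * (c.t j a * c.t j' a)) else 0) • z k l) := by
          simp only [Finset.sum_add_distrib, smul_add]
          congr 1
          · rw [Finset.sum_eq_single j, Finset.sum_eq_single j']
            · rw [if_pos ⟨rfl, rfl⟩]
            · intro l _ hl; rw [if_neg (fun h => hl h.2), zero_smul]
            · intro h0; exact absurd (Finset.mem_univ _) h0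
            · intro k _ hk
              apply Finset.sum_eq_zero
              intro l _; rw [if_neg (fun h => hk h.1), zero_smul]
            · intro h0; exact absurd (Finset.mem_univ _) h0
          · rw [Finset.sum_eq_single j', Finset.sum_eq_single j]
            · rw [if_pos ⟨rfl, rfl⟩]
            · intro l _ hl; rw [if_neg (fun h => hl h.2), zero_smul]
            · intro h0; exact absurd (Finset.mem_univ _) h0
            · intro k _ hk
              apply Finset.sum_eq_zero
              intro l _; rw [if_neg (fun h => hk h.1), zero_smul]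
            · intro h0; exact absurd (Finset.mem_univ _) h0
      _ = ∑ k, ∑ l, ((c.t k a * c.t l a) • z k l -
            (c.t k (c.F j a) * c.t l (c.F j a)) • z k l -
            (c.t k (c.F j' a) * c.t l (c.F j' a)) • z k l +
            (c.t k (c.F j (c.F j' a)) * c.t l (c.F j (c.F j' a))) • z k l) := by
          refine Finset.sum_congr rfl fun k _ => Finset.sum_congr rfl fun l _ => ?_
          simp only [← add_smul, ← sub_smul]
          congr 1
          simp only [c.t_F]
          by_cases hk : k = j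
          · subst hk
            by_cases hl : l = k
            · subst hl
              simp [hjj]
            · by_cases hl' : l = j'
              · subst hl'
                simp [hjj, Ne.symm hjj]; ring
              · simp [hjj, hl, hl']
          · by_cases hk' : k = j'
            · subst hk'
              by_cases hl : l = j
              · subst hl
                simp [hjj, Ne.symm hjj]; ring
              · by_cases hl' : l = k
                · subst hl'
                  simp [Ne.symm hjj]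
                · simp [hl, hl', Ne.symm hjj]
            · by_cases hl : l = j
              · subst hl
                simp [hk, hk', hjj]
              · by_cases hl' : l = j'
                · subst hl'
                  simp [hk, hk', Ne.symm hjj]
                · simp [hk, hk', hl, hl']
      _ = 0 := by
          simp only [Finset.sum_add_distrib, Finset.sum_sub_distrib, h0, h1, h2, h3]
          simp
  rcases smul_eq_zero.1 e with h4 | h4
  · exfalso
    have e1 := c.t_ne_zero j a
    have e2 := c.t_ne_zero j' a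
    have := mul_ne_zero e1 e2
    apply this; linarith
  · exact h4

theorem QC.level2 (h : QC c G u) (hb : Blk c u R C) (hP : PR c u R C P Q) {k j l m : I}
    (hk : k ∈ R) (hj : j ∈ R) (hkj : k ≠ j) (a b w v : V) :
    (cnt2 c P R k j a b - cnt2 c Q C l m w v) •
      (Pi' c u C a w * ((ww c u k l * ww c u j m + ww c u j l * ww c u k m) *
        Pi' c u C b v)) = 0 := by
  have hs : ∀ i ∈ R, ({i} : Finset I) ⊆ R := fun i hi => by simpa using hi
  have e1 : ∀ i ∈ R, ∀ a, Pi' c u C (c.F i a) w = Pi' c u C a w := fun i hi a =>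
    h.Pi_row hb (hs i hi) a w
  have e2 : ∀ i ∈ R, ∀ a p q, cnt2 c P R p q (c.F i a) b = cnt2 c P R p q a b :=
    fun i hi a p q => cnt2_fs hP.flipR (hs i hi) p q a b
  have h1 := h.level2_aux' hb hP l m a b w v
  have h2 := h.level2_aux' hb hP l m (c.F k a) b w v
  have h3 := h.level2_aux' hb hP l m (c.F j a) b w v
  have h4 := h.level2_aux' hb hP l m (c.F k (c.F j a)) b w v
  simp only [e1 k hk, e1 j hj, e2 k hk, e2 j hj] at h2 h3 h4
  have h5 := polar (c := c) _ hkj a h1 h2 h3 h4
  rw [cnt2_comm j k, ← smul_add, ← mul_add, ← add_mul] at h5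
  exact h5

end

end Pool.Agent.L0h60.QS
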