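import Pool.Agent.L0h60.QS.PartTwo

/-! Merging directions; the general assembly. -/

set_option autoImplicit false
set_option linter.unusedSectionVars false
set_option linter.unusedVariables false

namespace Pool.Agent.L0h60.QS

open Pool.Agent.H741.QS Pool.Agent.H767R3.DS Pool.Agent.H767R3.DS.Waux

section

variable {ι ι' : Type} (P : ι → Type) (π : ι → ι')

/-- the merged vertex sets -/
def PP (q : ι') : Type := ∀ i : {i // π i = q}, P i.1

variable {P π}

/-- the merged graphs -/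
def GG (π : ι → ι') (G : ∀ i, SimpleGraph (P i)) (q : ι') : SimpleGraph (PP P π q) :=
  boxPi fun i : {i // π i = q} => G i.1

/-- vertices in fine coordinates -/
def fine (x : ∀ q, PP P π q) : ∀ i, P i := fun i => x (π i) ⟨i, rfl⟩

def unfine (y : ∀ i, P i) : ∀ q, PP P π q := fun q i => y i.1

theorem unfine_fine (x : ∀ q, PP P π q) : unfine (fine x) = x := by
  funext q i
  obtain ⟨i, rfl⟩ := i
  rfl

theorem fine_unfine (y : ∀ i, P i) : fine (unfine (π := π) y) = y := rfl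

theorem fine_inj {x y : ∀ q, PP P π q} (h : fine x = fine y) : x = y := by
  rw [← unfine_fine x, ← unfine_fine y, h]

theorem coord_eq {x y : ∀ q, PP P π q} {q : ι'} (h : ∀ i, π i = q → fine x i = fine y i) :
    x q = y q := by
  funext i
  obtain ⟨i, rfl⟩ := i
  exact h i rfl

theorem dir_merge (G : ∀ i, SimpleGraph (P i)) (q : ι') (x y : ∀ q, PP P π q) :
    DirAdj (GG π G) q x y ↔ ∃ i, π i = q ∧ DirAdj G i (fine x) (fine y) := by
  constructor
  · rintro ⟨⟨⟨i, hi⟩, h1, h2⟩, h3⟩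
    subst hi
    refine ⟨i, rfl, h1, ?_⟩
    intro j hj
    by_cases hji : π j = π i
    · have h4 := h2 ⟨j, hji⟩ (fun h => hj (congrArg Subtype.val h))
      have key : ∀ (q : ι') (hq : π j = q), x q ⟨j, hq⟩ = y q ⟨j, hq⟩ → fine x j = fine y j := by
        rintro q rfl h; exact h
      exact key _ hji h4
    · have h4 := h3 (π j) hji
      show x (π j) ⟨j, rfl⟩ = y (π j) ⟨j, rfl⟩
      rw [h4]
  · rintro ⟨i, rfl, h1, h2⟩
    refine ⟨⟨⟨i, rfl⟩, h1, ?_⟩, ?_⟩
    · rintro ⟨j, hj⟩ hne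
      have h3 := h2 j (fun h => hne (Subtype.ext h))
      have key : ∀ (q : ι') (hq : π j = q), fine x j = fine y j → x q ⟨j, hq⟩ = y q ⟨j, hq⟩ := by
        rintro q rfl h; exact h
      exact key _ hj h3
    · intro q hq
      apply coord_eq
      intro j hj
      apply h2
      rintro rfl
      exact hq hj.symm

theorem adj_merge (G : ∀ i, SimpleGraph (P i)) (x y : ∀ q, PP P π q) :
    (boxPi (GG π G)).Adj x y ↔ (boxPi G).Adj (fine x) (fine y) := by
  constructor
  · rintro ⟨q, h⟩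
    obtain ⟨i, _, h1⟩ := (dir_merge G q x y).1 h
    exact ⟨i, h1⟩
  · rintro ⟨i, h⟩
    exact ⟨π i, (dir_merge G (π i) x y).2 ⟨i, rfl, h⟩⟩

/-- the merging isomorphism -/
def mergeIso (π : ι → ι') (G : ∀ i, SimpleGraph (P i)) : boxPi (GG π G) ≃g boxPi G where
  toFun := fine
  invFun := unfine
  left_inv := unfine_fine
  right_inv := fine_unfine
  map_rel_iff' := fun {x y} => (adj_merge G x y).symm

theorem mergeIso_apply (G : ∀ i, SimpleGraph (P i)) (x : ∀ q, PP P π q) :
    mergeIso π G x = fine x := rfl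

theorem dir_slice (G : ∀ i, SimpleGraph (P i)) (i : ι) (b : Bool) (z w : ∀ k : ι × Bool, P k.1) :
    DirAdj (fun k : ι × Bool => G k.1) (i, b) z w ↔
      (DirAdj G i (fun j => z (j, b)) (fun j => w (j, b)) ∧ ∀ j, z (j, !b) = w (j, !b)) := by
  constructor
  · rintro ⟨h1, h2⟩
    refine ⟨⟨h1, fun j hj => h2 (j, b) ?_⟩, fun j => h2 (j, !b) ?_⟩
    · intro h; exact hj (congrArg Prod.fst h)
    · intro h
      have := congrArg Prod.snd h
      cases b <;> simp at this
  · rintro ⟨⟨h1, h2⟩, h3⟩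
    refine ⟨h1, ?_⟩
    rintro ⟨j, b'⟩ hj
    by_cases hb : b' = b
    · subst hb
      exact h2 j (fun h => hj (by rw [h]))
    · have : b' = !b := by cases b <;> cases b' <;> simp_all
      subst this
      exact h3 j

/-- vertices of the square in fine coordinates -/
def fine2 (a : ∀ k : ι' × Bool, PP P π k.1) : ∀ k : ι × Bool, P k.1 :=
  fun k => a (π k.1, k.2) ⟨k.1, rfl⟩

theorem dir_merge2 (G : ∀ i, SimpleGraph (P i)) (q : ι' × Bool)
    (x y : ∀ k : ι' × Bool, PP P π k.1) :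
    DirAdj (fun k : ι' × Bool => GG π G k.1) q x y ↔
      ∃ k : ι × Bool, (π k.1, k.2) = q ∧
        DirAdj (fun k : ι × Bool => G k.1) k (fine2 x) (fine2 y) := by
  obtain ⟨q, b⟩ := q
  rw [dir_slice, dir_merge]
  constructor
  · rintro ⟨⟨i, hi, h1⟩, h2⟩
    refine ⟨(i, b), by rw [hi], (dir_slice G i b _ _).2 ⟨h1, fun j => ?_⟩⟩
    show x (π j, !b) ⟨j, rfl⟩ = y (π j, !b) ⟨j, rfl⟩
    rw [h2]
  · rintro ⟨⟨i, b'⟩, hib, h1⟩
    have hb : b' = b := congrArg Prod.snd hib
    subst hb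
    obtain ⟨h2, h3⟩ := (dir_slice G i b' _ _).1 h1
    refine ⟨⟨i, congrArg Prod.fst hib, h2⟩, fun j => ?_⟩
    have h4 : (fun q => x (q, !b')) = fun q => y (q, !b') := by
      apply fine_inj (P := P) (π := π)
      funext i
      exact h3 i
    exact congrFun h4 j

end

/-- the general assembly in coordinates -/
theorem st_W' {ι : Type} [Fintype ι] [DecidableEq ι] {P : ι → Type} [∀ i, Fintype (P i)]
    (G : ∀ i, SimpleGraph (P i)) (hG : ∀ i, (G i).Connected)
    (hP : ∀ i, 2 ≤ Fintype.card (P i)) (hprime : ∀ i, PrimeGraph (G i))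
    (X : SimpleGraph (∀ i, P i)) (hXc : X.Connected) (hX2 : ¬ X.Colorable 2) (hXt : TwinFree X)
    (hneX : ∃ a b, X.Adj a b) (hNQ : NoQuantumSymmetry X) {A : Type} [CStarAlgebra A]
    (u : ((∀ i, P i) × (∀ i, P i)) → ((∀ i, P i) × (∀ i, P i)) → A)
    (h0 : QIso (boxPi G □ boxPi G) (boxPi G □ boxPi G) u)
    (hdir : QIso (dir X X) (dir X X) u) :
    ∀ x y z w, u x y * u z w = u z w * u x y := by
  classical
  intro x0 y0 z0 w0
  obtain ⟨Ψ0, hΨ0⟩ := exists_iso_split G (fun i => (i, false)) (fun i => (i, true))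
    Function.bijective_id Function.bijective_id bij_const
  have hsp : ∀ a, Ψ0 a = sp a := by
    intro a
    apply Prod.ext
    · exact funext fun i => (hΨ0 a i).1
    · exact funext fun i => (hΨ0 a i).2
  obtain ⟨u1, hu1⟩ : ∃ u1 : (∀ k : ι × Bool, P k.1) → (∀ k : ι × Bool, P k.1) → A,
      ∀ z w, u1 z w = u (sp z) (sp w) := ⟨fun z w => u (sp z) (sp w), fun _ _ => rfl⟩
  have hu1e : u1 = fun a w => u (Ψ0 a) (Ψ0 w) := by
    funext a w
    rw [hu1, hsp, hsp]
  have hq1 : QIso (boxPi (fun k : ι × Bool => G k.1)) (boxPi (fun k : ι × Bool => G k.1)) u1 := by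
    have h := h0.transport Ψ0 Ψ0
    rw [hu1e]; exact h
  have hR1 : QIso (R2 X) (R2 X) u1 := by
    let φ : R2 X ≃g dir X X := mkIso Ψ0.toEquiv (by
      intro a b
      show (X.Adj (Ψ0 a).1 (Ψ0 b).1 ∧ X.Adj (Ψ0 a).2 (Ψ0 b).2) ↔ _
      rw [hsp, hsp]
      exact Iff.rfl)
    have h := hdir.transport φ φ
    rw [hu1e]; exact h
  obtain ⟨Y1, Y2, Y3, Y4⟩ := t_Y ι P X
  have Y5 := Y4 hneX
  -- the classes of indices
  let S : Setoid ι :=
    { r := fun i i' => ∀ C, Spl X.Adj C → (i ∈ C ↔ i' ∈ C)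
      iseqv := ⟨fun i C _ => Iff.rfl, fun h C hC => (h C hC).symm,
        fun h h' C hC => (h C hC).trans (h' C hC)⟩ }
  let ι' : Type := Quotient S
  let π : ι → ι' := fun i => Quotient.mk S i
  have hπeq : ∀ i i', π i = π i' ↔ ∀ C, Spl X.Adj C → (i ∈ C ↔ i' ∈ C) := by
    intro i i'
    exact Quotient.eq (r := S)
  have hπs : Function.Surjective π := fun q => Quotient.exists_rep q
  have hatom : ∀ q : ι', Spl X.Adj {i | π i = q} := by
    intro q
    obtain ⟨i0, rfl⟩ := hπs q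
    have hfin : ∀ T : Finset (Set ι), (∀ C ∈ T, Spl X.Adj C) → Spl X.Adj {i | ∀ C ∈ T, i ∈ C} := by
      intro T
      induction T using Finset.induction_on with
      | empty =>
        intro _
        have : {i : ι | ∀ C ∈ (∅ : Finset (Set ι)), i ∈ C} = Set.univ := by
          ext i; simp
        rw [this]
        exact Y1
      | insert C T _ ih =>
        intro hT
        have h1 := ih fun D hD => hT D (Finset.mem_insert_of_mem hD)
        have h2 := hT C (Finset.mem_insert_self _ _)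
        have : {i : ι | ∀ D ∈ insert C T, i ∈ D} = C ∩ {i | ∀ D ∈ T, i ∈ D} := by
          ext i
          simp
        rw [this]
        exact Y3 _ _ h2 h1
    have h1 := hfin (Finset.univ.filter fun C : Set ι => Spl X.Adj C ∧ i0 ∈ C)
      (fun C hC => (Finset.mem_filter.1 hC).2.1)
    have h2 : {i | ∀ C ∈ (Finset.univ.filter fun C : Set ι => Spl X.Adj C ∧ i0 ∈ C), i ∈ C} =
        {i | π i = π i0} := by
      ext i
      simp only [Finset.mem_filter, Finset.mem_univ, true_and]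
      constructor
      · intro h
        refine (hπeq i i0).2 fun C hC => ⟨fun hi => ?_, fun hi => h C ⟨hC, hi⟩⟩
        by_contra hn
        exact h Cᶜ ⟨Y2 C hC, hn⟩ hi
      · intro h C hC
        exact ((hπeq i i0).1 h C hC.1).2 hC.2
    rw [← h2]; exact h1
  have hempty : Spl X.Adj (∅ : Set ι) := by
    have := Y2 _ Y1
    rwa [Set.compl_univ] at this
  let ρ : ι × Bool → ι' × Bool := fun k => (π k.1, k.2)
  have hρ : ∀ α : ι' × Bool, Spl (R2 X).Adj (ρ ⁻¹' {α}) := by
    rintro ⟨q, b⟩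
    rw [Y5]
    have h1 : ∀ b', Spl X.Adj {i | (i, b') ∈ ρ ⁻¹' {(q, b)}} := by
      intro b'
      by_cases hb : b' = b
      · have : {i | (i, b') ∈ ρ ⁻¹' {(q, b)}} = {i | π i = q} := by
          ext i
          show (π i, b') = (q, b) ↔ π i = q
          rw [Prod.mk.injEq]
          exact ⟨fun h => h.1, fun h => ⟨h, hb⟩⟩
        rw [this]; exact hatom q
      · have : {i | (i, b') ∈ ρ ⁻¹' {(q, b)}} = ∅ := by
          ext i
          show (π i, b') = (q, b) ↔ i ∈ (∅ : Set ι)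
          rw [Prod.mk.injEq]
          exact ⟨fun h => absurd h.2 hb, fun h => absurd h (Set.notMem_empty i)⟩
        rw [this]; exact hempty
    exact ⟨h1 false, h1 true⟩
  by_contra hne
  have hx : u x0 y0 * u z0 w0 - u z0 w0 * u x0 y0 ≠ 0 := sub_ne_zero.2 hne
  obtain ⟨e, σ, he1, he2, he3, he5, hσ⟩ := coarse_exists (fun k : ι × Bool => G k.1)
    (fun k => hG k.1) (fun k => hP k.1) (fun k => hprime k.1) u1 hq1 (R2 X) hR1 ρ hρ
    (fun l => no_alt X hXc hX2 hXt l) _ hx
  have he0 : e ≠ 0 := by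
    rintro rfl
    exact he5 (zero_mul _)
  have hUp : ∀ D : Set (ι' × Bool), Spl (R2 X).Adj (ρ ⁻¹' D) → Spl (R2 X).Adj (σ ⁻¹' D) :=
    fun D hD => t_U' (fun k : ι × Bool => G k.1) (fun k => hG k.1) u1 (R2 X) hq1 hR1 e he0 he2 he3
      ρ σ hσ D hD
  have hfac : ∀ k k', ρ k = ρ k' → σ k = σ k' := by
    rintro ⟨i, b⟩ ⟨i', b'⟩ hk
    have hb : b = b' := congrArg Prod.snd hk
    subst hb
    have hi : π i = π i' := congrArg Prod.fst hk
    have h1 := (Y5 _).1 (hUp {σ (i, b)} (hρ _))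
    have h2 : Spl X.Adj {j | (j, b) ∈ σ ⁻¹' {σ (i, b)}} := by
      cases b
      · exact h1.1
      · exact h1.2
    exact (((hπeq i i').1 hi _ h2).1 rfl).symm
  have hρs : Function.Surjective ρ := by
    rintro ⟨q, b⟩
    obtain ⟨i, rfl⟩ := hπs q
    exact ⟨(i, b), rfl⟩
  let σ' : ι' × Bool → ι' × Bool := fun q => σ (Classical.choose (hρs q))
  have hσ' : ∀ k, σ' (ρ k) = σ k := fun k => hfac _ _ (Classical.choose_spec (hρs (ρ k)))
  -- merged graphs
  have : ∀ q, Fintype (PP P π q) := fun q => by unfold PP; infer_instance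
  have hG' : ∀ q, (GG π G q).Connected := fun q => boxPi_connected _ fun i => hG i.1
  have hP' : ∀ q, 2 ≤ Fintype.card (PP P π q) := by
    intro q
    obtain ⟨i, rfl⟩ := hπs q
    apply Fintype.one_lt_card_iff_nontrivial.2
    obtain ⟨o⟩ := (hG' (π i)).nonempty
    have : Nontrivial (P i) := Fintype.one_lt_card_iff_nontrivial.1 (hP i)
    obtain ⟨p, hp⟩ := exists_ne (o ⟨i, rfl⟩)
    have e1 := Function.update_self (β := fun j : {j // π j = π i} => P j.1) ⟨i, rfl⟩ p o
    exact ⟨⟨Function.update (β := fun j : {j // π j = π i} => P j.1) o ⟨i, rfl⟩ p, o,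
      fun h => hp (e1.symm.trans (congrFun h _))⟩⟩
  let Θ := mergeIso π G
  let X' : SimpleGraph (∀ q, PP P π q) := X.comap Θ
  let f : X' ≃g X :=
    { toEquiv := Θ.toEquiv
      map_rel_iff' := by
        intro a b
        rfl }
  have hX' : NoQuantumSymmetry X' := noqs_of_iso f.symm hNQ
  have k1 := h0.transport (prodCongr Θ Θ) (prodCongr Θ Θ)
  have k2 := hdir.transport (dirCongr f f) (dirCongr f f)
  have hneX' : ∃ a b, X'.Adj a b := by
    obtain ⟨a, b, hab⟩ := hneX
    refine ⟨Θ.symm a, Θ.symm b, ?_⟩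
    show X.Adj (Θ (Θ.symm a)) (Θ (Θ.symm b))
    rw [Θ.apply_symm_apply, Θ.apply_symm_apply]
    exact hab
  have hcom : ∀ a w, e * u a w = u a w * e := by
    intro a w
    have h1 : ∀ p : (∀ i, P i) × (∀ i, P i), ∃ z : ∀ k : ι × Bool, P k.1, sp z = p := by
      intro p
      refine ⟨fun k => if k.2 then p.2 k.1 else p.1 k.1, ?_⟩
      unfold sp
      simp
    obtain ⟨z, rfl⟩ := h1 a
    obtain ⟨z', rfl⟩ := h1 w
    rw [← hu1]
    exact he3 z z'
  have hend := part2 (GG π G) hG' hP' X' hneX' hX'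
    (fun a w => u (prodCongr Θ Θ a) (prodCongr Θ Θ w)) k1 k2 e he0 he1 he2
    (fun a w => hcom _ _) σ' (by
      intro k a b w v hab hwv
      obtain ⟨k', hk', hd⟩ := (dir_merge2 G k a b).1 hab
      have hk'' : ρ k' = k := hk'
      have e1 : ∀ a : ∀ k : ι' × Bool, PP P π k.1,
          prodCongr Θ Θ (sp a) = sp (fine2 a) := fun a => rfl
      show u (prodCongr Θ Θ (sp a)) (prodCongr Θ Θ (sp w)) *
        u (prodCongr Θ Θ (sp b)) (prodCongr Θ Θ (sp v)) * e = 0
      rw [e1, e1, e1, e1, ← hu1, ← hu1]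
      apply hσ k' _ _ _ _ hd
      intro l hl hd'
      apply hwv
      rw [← hk'', hσ', ← hl]
      exact (dir_merge2 G (ρ l) w v).2 ⟨l, rfl, hd'⟩)
  apply he5
  have hinv : ∀ a : (∀ i, P i) × (∀ i, P i),
      prodCongr Θ Θ (prodCongr Θ.symm Θ.symm a) = a := by
    rintro ⟨a, b⟩
    show (Θ (Θ.symm a), Θ (Θ.symm b)) = (a, b)
    rw [Θ.apply_symm_apply, Θ.apply_symm_apply]
  have hfin := hend (prodCongr Θ.symm Θ.symm x0) (prodCongr Θ.symm Θ.symm y0)
    (prodCongr Θ.symm Θ.symm z0) (prodCongr Θ.symm Θ.symm w0)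
  simp only [hinv] at hfin
  rw [mul_sub, sub_eq_zero]
  exact hfin

end Pool.Agent.L0h60.QS
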