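import Pool.Agent.L0h60.QS.Uprime

/-! Assembly, for a given permutation of the directions on a central projection. -/

set_option autoImplicit false
set_option linter.unusedSectionVars false
set_option linter.unusedVariables false

namespace Pool.Agent.L0h60.QS

open Pool.Agent.H741.QS Pool.Agent.H767R3.DS Pool.Agent.H767R3.DS.Waux

/-- the two copies -/
def sp {ι : Type} {P : ι → Type} (z : ∀ k : ι × Bool, P k.1) : (∀ i, P i) × (∀ i, P i) :=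
  (fun i => z (i, false), fun i => z (i, true))

theorem part2 {ι : Type} [Fintype ι] [DecidableEq ι] {P : ι → Type} [∀ i, Fintype (P i)]
    (G : ∀ i, SimpleGraph (P i)) (hG : ∀ i, (G i).Connected)
    (hP : ∀ i, 2 ≤ Fintype.card (P i)) (X : SimpleGraph (∀ i, P i))
    (hneX : ∃ a b, X.Adj a b) (hNQ : NoQuantumSymmetry X) {A : Type} [CStarAlgebra A]
    (u : ((∀ i, P i) × (∀ i, P i)) → ((∀ i, P i) × (∀ i, P i)) → A)
    (h0 : QIso (boxPi G □ boxPi G) (boxPi G □ boxPi G) u)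
    (hdir : QIso (dir X X) (dir X X) u) (e : A) (he0 : e ≠ 0) (he1 : star e = e)
    (he2 : e * e = e) (he3 : ∀ a w, e * u a w = u a w * e) (σ : ι × Bool → ι × Bool)
    (hσ0 : ∀ k a b w v, DirAdj (fun k : ι × Bool => G k.1) k a b →
      ¬ DirAdj (fun k : ι × Bool => G k.1) (σ k) w v →
      u (sp a) (sp w) * u (sp b) (sp v) * e = 0) :
    ∀ x0 y0 z0 w0, e * (u x0 y0 * u z0 w0) = e * (u z0 w0 * u x0 y0) := by
  classical
  intro x0 y0 z0 w0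
  have hF := t_F
  have hU := t_U
  have hZ := t_Z
  have hY := t_Y
  have hV := t_V
  obtain ⟨Ψ0, hΨ0⟩ := exists_iso_split G (fun i => (i, false)) (fun i => (i, true))
    Function.bijective_id Function.bijective_id bij_const
  obtain ⟨u1, hu1⟩ : ∃ u1 : (∀ k : ι × Bool, P k.1) → (∀ k : ι × Bool, P k.1) → A,
      ∀ z w, u1 z w = u (Ψ0 z) (Ψ0 w) := ⟨fun z w => u (Ψ0 z) (Ψ0 w), fun _ _ => rfl⟩
  have hu1e : u1 = fun a w => u (Ψ0 a) (Ψ0 w) := by funext a w; exact hu1 a w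
  have hq1 : QIso (boxPi (fun k : ι × Bool => G k.1)) (boxPi (fun k : ι × Bool => G k.1)) u1 := by
    have h := h0.transport Ψ0 Ψ0
    rw [hu1e]; exact h
  have hΨ01 : ∀ a, (Ψ0 a).1 = fun i => a (i, false) := fun a => funext fun i => (hΨ0 a i).1
  have hΨ02 : ∀ a, (Ψ0 a).2 = fun i => a (i, true) := fun a => funext fun i => (hΨ0 a i).2
  have hR1 : QIso (R2 X) (R2 X) u1 := by
    let φ : R2 X ≃g dir X X := mkIso Ψ0.toEquiv (by
      intro a b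
      show (X.Adj (Ψ0 a).1 (Ψ0 b).1 ∧ X.Adj (Ψ0 a).2 (Ψ0 b).2) ↔ _
      rw [hΨ01, hΨ01, hΨ02, hΨ02]
      exact Iff.rfl)
    have h := hdir.transport φ φ
    rw [hu1e]; exact h
  have he3' : ∀ a w, e * u1 a w = u1 a w * e := fun a w => by rw [hu1]; exact he3 _ _
  have hsp : ∀ a, Ψ0 a = sp a := by
    intro a
    apply Prod.ext
    · exact hΨ01 a
    · exact hΨ02 a
  have hσ : ∀ k a b w v, DirAdj (fun k : ι × Bool => G k.1) k a b →
      ¬ DirAdj (fun k : ι × Bool => G k.1) (σ k) w v → u1 a w * u1 b v * e = 0 := by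
    intro k a b w v hd hn
    rw [hu1, hu1, hsp, hsp, hsp, hsp]
    exact hσ0 k a b w v hd hn
  have hbij : Function.Bijective σ := sigma_bijective (fun k : ι × Bool => G k.1)
    (fun k => hG k.1) (fun k => hP k.1) u1 hq1 e he0 he2 he3' σ hσ
  have hU' := hU (ι × Bool) (fun k => P k.1) (fun k => G k.1) (fun k => hG k.1) A u1 (R2 X) hq1 hR1
    e he0 he1 he2 he3' σ hbij hσ
  obtain ⟨Y1, Y2, Y3, Y4⟩ := hY ι P X
  have Y5 := Y4 hneX
  obtain ⟨κ, κ', hκ1, hκ2, hk1, hk2, hB1, hB2⟩ := hZ ι (Equiv.ofBijective σ hbij)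
    {C | Spl X.Adj C} Y1 Y2 (fun C hC D hD => Y3 C D hC hD)
    (fun C h1 h2 => (Y5 (σ ⁻¹' C)).1 (hU' C ((Y5 C).2 ⟨h1, h2⟩)))
  have hκ1' : Function.Bijective (fun i => (σ (i, κ i)).1) := hκ1
  have hκ2' : Function.Bijective (fun i => (σ (i, !κ i)).1) := hκ2
  have hk1' : ∀ i, (σ (i, κ i)).2 = κ' (σ (i, κ i)).1 := hk1
  have hk2' : ∀ i, (σ (i, !κ i)).2 = !κ' (σ (i, !κ i)).1 := hk2
  have hB1' : Spl X.Adj {i | κ i = false} := hB1
  have hB2' : Spl X.Adj {i | κ' i = false} := hB2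
  have hs := bij_kappa κ
  have hs' : Function.Bijective (Sum.elim (fun i : ι => σ (i, κ i)) (fun i : ι => σ (i, !κ i))) := by
    have h : Sum.elim (fun i : ι => σ (i, κ i)) (fun i : ι => σ (i, !κ i)) =
        σ ∘ Sum.elim (fun i : ι => (i, κ i)) (fun i : ι => (i, !κ i)) := by
      funext s; rcases s with s | s <;> rfl
    rw [h]
    exact hbij.comp hs
  obtain ⟨Φ, hΦ⟩ := exists_iso_split G (fun i => (i, κ i)) (fun i => (i, !κ i))
    Function.bijective_id Function.bijective_id hs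
  obtain ⟨Ψ, hΨ⟩ := exists_iso_split G (fun i => σ (i, κ i)) (fun i => σ (i, !κ i)) hκ1' hκ2' hs'
  have hΦ1 : ∀ (a : (∀ i, P i) × (∀ i, P i)) i, a.1 i = Φ.symm a (i, κ i) := by
    intro a i
    have h := (hΦ (Φ.symm a) i).1
    rwa [Φ.apply_symm_apply] at h
  have hΦ2 : ∀ (a : (∀ i, P i) × (∀ i, P i)) i, a.2 i = Φ.symm a (i, !κ i) := by
    intro a i
    have h := (hΦ (Φ.symm a) i).2
    rwa [Φ.apply_symm_apply] at h
  have hΨ1 : ∀ (a : (∀ i, P i) × (∀ i, P i)) i, a.1 (σ (i, κ i)).1 = Ψ.symm a (σ (i, κ i)) := by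
    intro a i
    have h := (hΨ (Ψ.symm a) i).1
    rwa [Ψ.apply_symm_apply] at h
  have hΨ2 : ∀ (a : (∀ i, P i) × (∀ i, P i)) i, a.2 (σ (i, !κ i)).1 = Ψ.symm a (σ (i, !κ i)) := by
    intro a i
    have h := (hΨ (Ψ.symm a) i).2
    rwa [Ψ.apply_symm_apply] at h
  have hΨ1' : ∀ (a : (∀ i, P i) × (∀ i, P i)), a.1 = fun j => Ψ.symm a (j, κ' j) := by
    intro a
    funext j
    obtain ⟨i, hi⟩ := hκ1'.2 j
    simp only at hi
    subst hi
    rw [hΨ1 a i]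
    exact snd_eq (P := P) (Ψ.symm a) (σ (i, κ i)) _ (hk1' i)
  have hΨ2' : ∀ (a : (∀ i, P i) × (∀ i, P i)), a.2 = fun j => Ψ.symm a (j, !κ' j) := by
    intro a
    funext j
    obtain ⟨i, hi⟩ := hκ2'.2 j
    simp only at hi
    subst hi
    rw [hΨ2 a i]
    exact snd_eq (P := P) (Ψ.symm a) (σ (i, !κ i)) _ (hk2' i)
  have hΦ1' : ∀ (a : (∀ i, P i) × (∀ i, P i)), a.1 = fun j => Φ.symm a (j, κ j) :=
    fun a => funext (hΦ1 a)
  have hΦ2' : ∀ (a : (∀ i, P i) × (∀ i, P i)), a.2 = fun j => Φ.symm a (j, !κ j) :=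
    fun a => funext (hΦ2 a)
  have hX : (boxPi G).Connected := boxPi_connected G hG
  have : Nonempty (∀ i, P i) := hX.nonempty
  have hut := hq1.transport Φ.symm Ψ.symm
  have hdt : QIso (dir X X) (dir X X) (fun a w => u1 (Φ.symm a) (Ψ.symm w)) := by
    let φ : dir X X ≃g R2 X := mkIso Φ.symm.toEquiv (by
      intro a b
      show (R2 X).Adj (Φ.symm a) (Φ.symm b) ↔ (X.Adj a.1 b.1 ∧ X.Adj a.2 b.2)
      rw [hV ι P X κ hB1' (Φ.symm a) (Φ.symm b), ← hΦ1' a, ← hΦ1' b, ← hΦ2' a, ← hΦ2' b])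
    let ψ : dir X X ≃g R2 X := mkIso Ψ.symm.toEquiv (by
      intro a b
      show (R2 X).Adj (Ψ.symm a) (Ψ.symm b) ↔ (X.Adj a.1 b.1 ∧ X.Adj a.2 b.2)
      rw [hV ι P X κ' hB2' (Ψ.symm a) (Ψ.symm b), ← hΨ1' a, ← hΨ1' b, ← hΨ2' a, ← hΨ2' b])
    exact hR1.transport φ ψ
  have hend := hF (∀ i, P i) X (boxPi G) hX hneX hNQ A (fun a w => u1 (Φ.symm a) (Ψ.symm w)) hut
    hdt e he1 he2
    (fun a w => he3' _ _) (by
      intro a b w v hab1 hab2 hwv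
      obtain ⟨i0, hi0⟩ := hab1
      refine hσ (i0, κ i0) _ _ _ _ ?_ ?_
      · exact (split_core G (fun i => (i, κ i)) (fun i => (i, !κ i)) Function.bijective_id
          Function.bijective_id hs (Φ.symm a) (Φ.symm b) a.1 b.1 a.2 b.2 (hΦ1 a) (hΦ1 b)
          (hΦ2 a) (hΦ2 b) i0).2 ⟨hi0, hab2⟩
      · intro hd
        obtain ⟨d1, d2⟩ := (split_core G (fun i => σ (i, κ i)) (fun i => σ (i, !κ i)) hκ1' hκ2' hs'
          (Ψ.symm w) (Ψ.symm v) w.1 v.1 w.2 v.2 (hΨ1 w) (hΨ1 v) (hΨ2 w) (hΨ2 v) i0).1 hd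
        exact hwv ⟨⟨_, d1⟩, d2⟩) (by
      intro a b w v hab1 hab2 hwv
      obtain ⟨i0, hi0⟩ := hab2
      refine hσ (i0, !κ i0) _ _ _ _ ?_ ?_
      · exact (split_core G (fun i => (i, !κ i)) (fun i => (i, κ i)) Function.bijective_id
          Function.bijective_id (bij_swap hs) (Φ.symm a) (Φ.symm b) a.2 b.2 a.1 b.1 (hΦ2 a) (hΦ2 b)
          (hΦ1 a) (hΦ1 b) i0).2 ⟨hi0, hab1⟩
      · intro hd
        obtain ⟨d1, d2⟩ := (split_core G (fun i => σ (i, !κ i)) (fun i => σ (i, κ i)) hκ2' hκ1'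
          (bij_swap hs')
          (Ψ.symm w) (Ψ.symm v) w.2 v.2 w.1 v.1 (hΨ2 w) (hΨ2 v) (hΨ1 w) (hΨ1 v) i0).1 hd
        exact hwv ⟨d2, ⟨_, d1⟩⟩)
  have hut' : ∀ a w, u a w = u1 (Φ.symm (Φ (Ψ0.symm a))) (Ψ.symm (Ψ (Ψ0.symm w))) := by
    intro a w
    rw [Φ.symm_apply_apply, Ψ.symm_apply_apply, hu1, Ψ0.apply_symm_apply, Ψ0.apply_symm_apply]
  rw [hut' x0 y0, hut' z0 w0]
  exact hend _ _ _ _

end Pool.Agent.L0h60.QS
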