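import Pool.Agent.L0h60.QS.KeyRing

/-! The key theorem for C*-algebras, by passing to a quotient. -/

set_option autoImplicit false
set_option linter.unusedSectionVars false

namespace Pool.Agent.L0h60.QS

open Pool.Agent.H741.QS

section

variable {A1 A2 V I : Type} [Fintype V] [Fintype I] [DecidableEq I]
  [Ring A1] [Algebra ℝ A1] [Ring A2] [Algebra ℝ A2]

theorem al_map (φ : A1 →ₐ[ℝ] A2) (u : V → V → A1) (F : V → ℝ) (a : V) :
    al (fun a w => φ (u a w)) F a = φ (al u F a) := by
  simp [al]

theorem ww_map [Nonempty V] (c : Cube V I) (φ : A1 →ₐ[ℝ] A2) (u : V → V → A1) (k l : I) :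
    ww c (fun a w => φ (u a w)) k l = φ (ww c u k l) := by
  simp only [ww, wv, Tl, al_map, map_smul, map_sub]

end

section

variable {V I A : Type} [Fintype V] [Fintype I] [DecidableEq I] [CStarAlgebra A]
variable {c : Cube V I} {G : SimpleGraph V} {u : V → V → A}

/-- commutes with all entries of `u` -/
def Cm (u : V → V → A) (x : A) : Prop := ∀ a v, x * u a v = u a v * x

theorem Cm.mul {x y : A} (hx : Cm u x) (hy : Cm u y) : Cm u (x * y) := by
  intro a v
  rw [mul_assoc, hy, ← mul_assoc, hx, mul_assoc]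

theorem Cm.star (h : QIso G G u) {x : A} (hx : Cm u x) : Cm u (star x) := by
  intro a v
  have := congrArg Star.star (hx a v)
  rw [star_mul, star_mul, h.star_eq] at this
  exact this.symm

/-- the bicommutant of the entries -/
noncomputable def SS (u : V → V → A) : StarSubalgebra ℝ A := StarSubalgebra.centralizer ℝ {x | Cm u x}

theorem mem_SS {z : A} : z ∈ SS u ↔ ∀ g, Cm u g → g * z = z * g ∧ star g * z = z * star g :=
  StarSubalgebra.mem_centralizer_iff ℝ

theorem SS_comm {z g : A} (hz : z ∈ SS u) (hg : Cm u g) : g * z = z * g := (mem_SS.1 hz g hg).1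

theorem u_mem (h : QIso G G u) (a v : V) : u a v ∈ SS u :=
  mem_SS.2 fun _ hg => ⟨hg a v, hg.star h a v⟩

theorem star_kill {d e : A} (hd : d ∈ SS u) (he : Cm u e) (h0 : d * e = 0) :
    star d * e = 0 := by
  apply CStarRing.star_mul_self_eq_zero_iff _ |>.1
  rw [star_mul, star_star, ← SS_comm (star_mem hd) he, ← mul_assoc, mul_assoc (star e), h0,
    mul_zero, zero_mul]

/-- the congruence given by the annihilator of `e` -/
noncomputable def con (u : V → V → A) {e : A} (he : Cm u e) : RingCon (SS u) where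
  r x y := ((x : A) - y) * e = 0
  iseqv := by
    refine ⟨fun x => by simp, fun {x y} h => ?_, fun {x y z} h h' => ?_⟩
    · rw [← neg_sub, neg_mul, h, neg_zero]
    · rw [← sub_add_sub_cancel (x : A) y z, add_mul, h, h', add_zero]
  mul' := by
    intro x y z w h h'
    have e1 : ((x * z : SS u) : A) - ((y * w : SS u) : A) = (x : A) * (z - w) + (x - y) * w := by
      push_cast
      noncomm_ring
    show (((x * z : SS u) : A) - ((y * w : SS u) : A)) * e = 0
    rw [e1, add_mul, mul_assoc, h', mul_zero, zero_add, mul_assoc, ← SS_comm w.2 he,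
      ← mul_assoc, h, zero_mul]
  add' := by
    intro x y z w h h'
    have e1 : ((x + z : SS u) : A) - ((y + w : SS u) : A) = ((x : A) - y) + (z - w) := by
      push_cast
      abel
    show (((x + z : SS u) : A) - ((y + w : SS u) : A)) * e = 0
    rw [e1, add_mul, h, h', add_zero]

/-- the quotient -/
abbrev Bq (u : V → V → A) {e : A} (he : Cm u e) : Type := (con u he).Quotient

variable {e : A} (he : Cm u e)

theorem bq_eq {x y : SS u} : ((x : Bq u he) = (y : Bq u he)) ↔ ((x : A) - y) * e = 0 :=
  RingCon.eq _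

noncomputable instance : Star (Bq u he) where
  star := Quotient.map' Star.star fun x y h => by
    show (((star x : SS u) : A) - ((star y : SS u) : A)) * e = 0
    have h' : ((x : A) - y) * e = 0 := h
    have := star_kill (sub_mem x.2 y.2) he h'
    rwa [star_sub] at this

theorem bq_star (x : SS u) : star (x : Bq u he) = ((star x : SS u) : Bq u he) := rfl

noncomputable instance : StarRing (Bq u he) where
  star_involutive := by
    rintro ⟨x⟩
    show ((star (star x) : SS u) : Bq u he) = x
    rw [star_star]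
  star_mul := by
    rintro ⟨x⟩ ⟨y⟩
    show ((star (x * y) : SS u) : Bq u he) = ((star y * star x : SS u) : Bq u he)
    rw [star_mul]
  star_add := by
    rintro ⟨x⟩ ⟨y⟩
    show ((star (x + y) : SS u) : Bq u he) = ((star x + star y : SS u) : Bq u he)
    rw [star_add]

instance : StarModule ℝ (Bq u he) where
  star_smul := by
    rintro r ⟨x⟩
    show ((star (r • x) : SS u) : Bq u he) = ((star r • star x : SS u) : Bq u he)
    rw [star_smul]

/-- the quotient map -/
noncomputable def qm : SS u →ₐ[ℝ] Bq u he := RingCon.mkₐ ℝ (con u he)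

theorem qm_eq_zero {x : SS u} : qm he x = 0 ↔ (x : A) * e = 0 := by
  have h1 : qm he x = (x : Bq u he) := rfl
  have h2 : (0 : Bq u he) = ((0 : SS u) : Bq u he) := rfl
  rw [h1, h2, bq_eq]
  simp

theorem qm_surj (y : Bq u he) : ∃ x : SS u, qm he x = y := RingCon.mkₐ_surjective _ y

theorem qm_star (x : SS u) : star (qm he x) = qm he (star x) := rfl

/-- the entries in the subalgebra -/
def us (h : QIso G G u) (a v : V) : SS u := ⟨u a v, u_mem h a v⟩

theorem QC.bq (h : QC c G u) : QC c G (fun a v => qm he (us h.q a v)) := by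
  have hz : ∀ {a b w v}, qm he (us h.q a w) * qm he (us h.q b v) ≠ 0 → u a w * u b v ≠ 0 := by
    intro a b w v hne h0
    apply hne
    rw [← map_mul, qm_eq_zero]
    show u a w * u b v * e = 0
    rw [h0, zero_mul]
  refine ⟨⟨?_, ?_, ?_, ?_, ?_, ?_, ?_⟩, ?_, ?_, ?_, ?_⟩
  · intro a w
    rw [qm_star]
    congr 1
    exact Subtype.ext (h.q.star_eq a w)
  · intro a w
    rw [← map_mul]
    congr 1
    exact Subtype.ext (h.q.idem a w)
  · intro a w w' hw
    by_contra hne
    exact hz hne (h.q.rowOrth a w w' hw)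
  · intro a b w hw
    by_contra hne
    exact hz hne (h.q.colOrth a b w hw)
  · intro a
    rw [← map_sum, ← map_one (qm he)]
    congr 1
    apply Subtype.ext
    push_cast
    exact h.q.rowSum a
  · intro w
    rw [← map_sum, ← map_one (qm he)]
    congr 1
    apply Subtype.ext
    push_cast
    exact h.q.colSum w
  · intro a b w v hn
    by_contra hne
    exact hz hne (h.q.adj a b w v hn)
  · intro a w i v hne
    exact h.h1 a w i v (hz hne)
  · intro a w b l hne
    exact h.h1' a w b l (hz hne)
  · intro a b w v hab hne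
    exact h.h2 a b w v hab (hz hne)
  · intro a b w v hab hne
    exact h.h2' a b w v hab (hz hne)

theorem hz' (h : QC c G u) {a b w v : V}
    (hne : qm he (us h.q a w) * qm he (us h.q b v) ≠ 0) : u a w * u b v ≠ 0 := by
  intro h0
  apply hne
  rw [← map_mul, qm_eq_zero]
  show u a w * u b v * e = 0
  rw [h0, zero_mul]

variable [Nonempty V]

theorem ww_us (h : QC c G u) (k l : I) : ((ww c (us h.q) k l : SS u) : A) = ww c u k l := by
  have := ww_map c (SS u).toSubalgebra.val (us h.q) k l
  exact this.symm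

theorem ww_bq (h : QC c G u) (k l : I) :
    ww c (fun a v => qm he (us h.q a v)) k l = qm he (ww c (us h.q) k l) :=
  ww_map c (qm he) (us h.q) k l

theorem sq_cm (h : QC c G u) (k l : I) : Cm u (ww c u k l * ww c u k l) :=
  fun a v => h.sq_central k l a v

/-- the choice of the element `e` -/
theorem exists_e (h : QC c G u) {e0 : A} (he0 : Cm u e0) (hne : e0 ≠ 0)
    (P : Finset (I × I)) :
    ∃ e f0 : A, Cm u e ∧ e ≠ 0 ∧ Cm u f0 ∧ e = e0 * f0 ∧ e = f0 * e0 ∧
      ∀ p ∈ P, (ww c u p.1 p.2 * ww c u p.1 p.2) * e = 0 ∨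
        ∃ f, Cm u f ∧ e = (ww c u p.1 p.2 * ww c u p.1 p.2) * f := by
  classical
  induction P using Finset.induction_on with
  | empty =>
    refine ⟨e0, 1, he0, hne, fun a v => by simp, by simp, by simp, by simp⟩
  | insert p P hp ih =>
    obtain ⟨e, f0, he, hne, hf0, h1, h1', h2⟩ := ih
    by_cases h0 : (ww c u p.1 p.2 * ww c u p.1 p.2) * e = 0
    · refine ⟨e, f0, he, hne, hf0, h1, h1', ?_⟩
      intro q hq
      rcases Finset.mem_insert.1 hq with h3 | h3
      · subst h3; exact Or.inl h0
      · exact h2 q h3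
    · have hcm := sq_cm h p.1 p.2
      have hS : ∀ q : I × I, ww c u q.1 q.2 * ww c u q.1 q.2 ∈ SS u := by
        intro q
        have := ww_us h q.1 q.2
        rw [← this]
        exact mul_mem (ww c (us h.q) q.1 q.2).2 (ww c (us h.q) q.1 q.2).2
      refine ⟨(ww c u p.1 p.2 * ww c u p.1 p.2) * e, (ww c u p.1 p.2 * ww c u p.1 p.2) * f0,
        hcm.mul he, h0, hcm.mul hf0, ?_, ?_, ?_⟩
      · rw [h1, ← mul_assoc, ← mul_assoc, ← SS_comm (hS p) he0, mul_assoc e0]
      · rw [h1']; simp only [mul_assoc]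
      · intro q hq
        rcases Finset.mem_insert.1 hq with h3 | h3
        · subst h3; exact Or.inr ⟨e, he, rfl⟩
        · rcases h2 q h3 with h4 | ⟨f, hf, h4⟩
          · left
            rw [← mul_assoc, SS_comm (hS p) (sq_cm h q.1 q.2), mul_assoc, h4, mul_zero]
          · right
            refine ⟨(ww c u p.1 p.2 * ww c u p.1 p.2) * f, hcm.mul hf, ?_⟩
            rw [← mul_assoc (ww c u q.1 q.2 * ww c u q.1 q.2),
              SS_comm (hS p) (sq_cm h q.1 q.2), h4]
            simp only [mul_assoc]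

/-- **the key theorem** -/
theorem QC.key (h : QC c G u) {M : V → V → Prop}
    (hM : ∀ a b w v, u a w * u b v ≠ 0 → (M a b ↔ M w v)) {D : I → Prop} [DecidablePred D]
    {mx : V → V → V} (hx : MixS c D mx M)
    (halt : ∀ l, D l → ¬ ((∀ w v, M w v → c.t l w = c.t l v) ∨
      (∀ w v, M w v → c.t l w = - c.t l v) ∨ (∀ w v, M w v → M w (c.F l v))))
    {k0 l0 l1 : I} (hD0 : D l0) (hD1 : ¬ D l1) : ww c u k0 l0 * ww c u k0 l1 = 0 := by
  by_contra hne
  have h01 : l0 ≠ l1 := by rintro rfl; exact hD1 hD0
  have hS : ∀ k l, ww c u k l ∈ SS u := by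
    intro k l
    rw [← ww_us h k l]
    exact (ww c (us h.q) k l).2
  have hS2 : ∀ k l, ww c u k l * ww c u k l ∈ SS u := fun k l => mul_mem (hS k l) (hS k l)
  set c0 := ww c u k0 l0 * ww c u k0 l0 with hc0
  set c1 := ww c u k0 l1 * ww c u k0 l1 with hc1
  have hcc : c0 * c1 ≠ 0 := by
    intro h0
    apply hne
    apply CStarRing.star_mul_self_eq_zero_iff _ |>.1
    rw [star_mul, h.star_ww, h.star_ww]
    calc ww c u k0 l1 * ww c u k0 l0 * (ww c u k0 l0 * ww c u k0 l1)
        = ww c u k0 l1 * c0 * ww c u k0 l1 := by rw [hc0]; simp only [mul_assoc]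
      _ = c0 * c1 := by
          rw [← SS_comm (hS k0 l1) (sq_cm h k0 l0), mul_assoc]
      _ = 0 := h0
  obtain ⟨e, f0, he, hene, hf0, h1, h1', h2⟩ :=
    exists_e h ((sq_cm h k0 l0).mul (sq_cm h k0 l1)) hcc Finset.univ
  have hq := h.bq he
  have : Nontrivial (Bq u he) := by
    refine ⟨⟨1, 0, fun h3 => hene ?_⟩⟩
    have : qm he 1 = 0 := by rw [map_one]; exact h3
    rw [qm_eq_zero] at this
    simpa using this
  -- cancellation
  have cancel : ∀ {k l : I} {f : A}, Cm u f → e = (ww c u k l * ww c u k l) * f →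
      ∀ z : Bq u he, ww c (fun a v => qm he (us h.q a v)) k l * z = 0 → z = 0 := by
    intro k l f hf hef z hz
    obtain ⟨x, rfl⟩ := qm_surj he z
    rw [ww_bq he h, ← map_mul, qm_eq_zero] at hz
    rw [qm_eq_zero]
    have hz1 : ww c u k l * (x : A) * e = 0 := by
      rw [← ww_us h k l]; exact hz
    set w := ww c u k l with hw
    have hww : Cm u (w * w) := sq_cm h k l
    have hz2 : w * w * ((x : A) * e) = 0 := by
      calc w * w * ((x : A) * e) = w * (w * x * e) := by simp only [mul_assoc]
        _ = 0 := by rw [hz1, mul_zero]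
    -- now `z c f f* c z*`
    apply CStarRing.mul_star_self_eq_zero_iff _ |>.1
    have e1 : (x : A) * e = w * w * (x * f) := by
      rw [hef]
      rw [← mul_assoc, ← SS_comm x.2 hww, mul_assoc]
    have e2 : star ((x : A) * e) = star (x * f) * (w * w) := by
      rw [e1, star_mul, star_mul w w, h.star_ww]
    rw [e2]
    have e3 : w * w * (star ((x : A) * f)) = star ((x : A) * f) * (w * w) := by
      rw [star_mul]
      have a1 : star f * (w * w) = (w * w) * star f := SS_comm (hS2 k l) (hf.star h.q)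
      have a2 : (w * w) * star (x : A) = star (x : A) * (w * w) := SS_comm (star_mem x.2) hww
      rw [← mul_assoc, ← a1, mul_assoc (star f), a2, mul_assoc]
    have e4 : (x : A) * e * (w * w) = (w * w) * (x * e) := by
      rw [mul_assoc, SS_comm (hS2 k l) he, ← mul_assoc, ← SS_comm x.2 hww, mul_assoc]
    rw [← e3, ← mul_assoc, e4, hz2, zero_mul]
  have hcanc : Canc c (fun a v => qm he (us h.q a v)) := by
    intro k l
    rcases h2 (k, l) (Finset.mem_univ _) with h3 | ⟨f, hf, h3⟩
    · left
      rw [ww_bq he h, qm_eq_zero, ww_us h]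
      apply CStarRing.star_mul_self_eq_zero_iff _ |>.1
      rw [star_mul, h.star_ww, mul_assoc, ← mul_assoc (ww c u k l)]
      have h3' : ww c u k l * ww c u k l * e = 0 := h3
      rw [h3', mul_zero]
    · right
      exact cancel hf h3
  have hM' : ∀ a b w v, qm he (us h.q a w) * qm he (us h.q b v) ≠ 0 → (M a b ↔ M w v) :=
    fun a b w v hne => hM a b w v (hz' he h hne)
  have hn0 : ww c (fun a v => qm he (us h.q a v)) k0 l0 ≠ 0 := by
    intro h3
    have hf : Cm u (c1 * f0) := (sq_cm h k0 l1).mul hf0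
    have : (1 : Bq u he) = 0 := cancel (k := k0) (l := l0) hf
      (by simp only [hc1, h1, mul_assoc]) 1 (by rw [h3, zero_mul])
    exact one_ne_zero this
  have hn1 : ww c (fun a v => qm he (us h.q a v)) k0 l1 ≠ 0 := by
    intro h3
    have hf : Cm u (c0 * f0) := (sq_cm h k0 l0).mul hf0
    have hcomm : c0 * c1 = c1 * c0 := SS_comm (hS2 k0 l1) (sq_cm h k0 l0)
    have : (1 : Bq u he) = 0 := cancel (k := k0) (l := l1) hf
      (by rw [h1, hcomm]; simp only [hc0, hc1, mul_assoc]) 1 (by rw [h3, zero_mul])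
    exact one_ne_zero this
  exact halt l0 hD0 (hq.key_ring hcanc hM' hx hn0 hn1 hD0 hD1)

end

end Pool.Agent.L0h60.QS
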