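import Pool.Agent.L0h60.QS.K2Cube
import Pool.Agent.L0h60.QS.Quo

/-! Separation of the coordinates with two values by splittings. -/

set_option autoImplicit false
set_option linter.unusedSectionVars false
set_option linter.unusedVariables false

namespace Pool.Agent.L0h60.QS

open Pool.Agent.H741.QS Pool.Agent.H767R3.DS

section

variable {J : Type} [Fintype J] [DecidableEq J] {P : J → Type} [∀ k, Fintype (P k)]

open Classical in
theorem mixS (H : SimpleGraph (∀ k, P k)) (D : Set J) (hD : Spl H.Adj D) :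
    MixS (cubeP P) (fun i : I2 P => i.1 ∈ D) (mix D) H.Adj where
  self := by
    intro a; funext k; unfold mix; split_ifs <;> rfl
  left := by
    intro a b d; funext k; unfold mix; split_ifs <;> rfl
  right := by
    intro a b d; funext k; unfold mix; split_ifs <;> rfl
  fs := by
    intro S S' a b
    funext j
    show mix D (fsP S a) (fsP S' b) j = fsP _ (mix D a b) j
    unfold mix fsP
    by_cases hj : j ∈ D
    · by_cases h2 : Fintype.card (P j) = 2
      · by_cases h3 : (⟨j, h2⟩ : I2 P) ∈ S <;> simp [hj, h2, h3]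
      · simp [hj, h2]
    · by_cases h2 : Fintype.card (P j) = 2
      · by_cases h3 : (⟨j, h2⟩ : I2 P) ∈ S' <;> simp [hj, h2, h3]
      · simp [hj, h2]
  t := by
    intro l a b
    by_cases hl : l.1 ∈ D
    · rw [if_pos hl, cubeP_t_iff]
      unfold mix
      rw [if_pos hl]
    · rw [if_neg hl, cubeP_t_iff]
      unfold mix
      rw [if_neg hl]
  rel := by
    intro a b a' b' h1 h2
    exact hD a b a' b' h1 h2

theorem sep (G : ∀ k, SimpleGraph (P k)) (hG : ∀ k, (G k).Connected)
    (hP : ∀ k, 2 ≤ Fintype.card (P k)) (hprime : ∀ k, PrimeGraph (G k))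
    {A : Type} [CStarAlgebra A] (u : (∀ k, P k) → (∀ k, P k) → A)
    (h : QIso (boxPi G) (boxPi G) u) (H : SimpleGraph (∀ k, P k)) (hH : QIso H H u)
    [Nonempty (∀ k, P k)] (D : Set J) (hD : Spl H.Adj D)
    (halt : ∀ l : I2 P, ¬ ((∀ w v, H.Adj w v → (cubeP P).t l w = (cubeP P).t l v) ∨
      (∀ w v, H.Adj w v → (cubeP P).t l w = - (cubeP P).t l v) ∨
      (∀ w v, H.Adj w v → H.Adj w ((cubeP P).F l v))))
    (k l0 l1 : I2 P) (h0 : l0.1 ∈ D) (h1 : l1.1 ∉ D) :
    ww (cubeP P) u k l0 * ww (cubeP P) u k l1 = 0 := by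
  classical
  have hB : ∀ x : A, star x * x = 0 → x = 0 :=
    fun x hx => CStarRing.star_mul_self_eq_zero_iff x |>.1 hx
  have hq := qc_of G hG hP hprime hB u h
  refine hq.key (M := H.Adj) ?_ (mixS H D hD) (fun l _ => halt l) h0 h1
  intro a b w v hne
  by_contra hn
  exact hne (hH.adj a b w v hn)

end

section

variable {ι : Type} [Fintype ι] [DecidableEq ι] {P : ι → Type} [∀ i, Fintype (P i)]

/-- two vertices of `X` as a vertex of the square, the first one in the copy `β` -/
def jn (β : Bool) (x x' : ∀ i, P i) : ∀ k : ι × Bool, P k.1 :=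
  fun k => if k.2 = β then x k.1 else x' k.1

theorem jn_adj (X : SimpleGraph (∀ i, P i)) (β : Bool) (x x' y y' : ∀ i, P i)
    (h : X.Adj x y) (h' : X.Adj x' y') : (R2 X).Adj (jn β x x') (jn β y y') := by
  cases β
  · exact ⟨h, h'⟩
  · exact ⟨h', h⟩

theorem jn_adj' (X : SimpleGraph (∀ i, P i)) (β : Bool) (x x' y y' : ∀ i, P i)
    (h : (R2 X).Adj (jn β x x') (jn β y y')) : X.Adj x y := by
  cases β
  · exact h.1
  · exact h.2

theorem no_alt (X : SimpleGraph (∀ i, P i)) (hX : X.Connected) (h2 : ¬ X.Colorable 2)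
    (ht : TwinFree X) (l : I2 (fun k : ι × Bool => P k.1)) :
    ¬ ((∀ w v, (R2 X).Adj w v → (cubeP (fun k : ι × Bool => P k.1)).t l w =
        (cubeP (fun k : ι × Bool => P k.1)).t l v) ∨
      (∀ w v, (R2 X).Adj w v → (cubeP (fun k : ι × Bool => P k.1)).t l w =
        - (cubeP (fun k : ι × Bool => P k.1)).t l v) ∨
      (∀ w v, (R2 X).Adj w v → (R2 X).Adj w ((cubeP (fun k : ι × Bool => P k.1)).F l v))) := by
  classical
  obtain ⟨⟨i, β⟩, hl⟩ := l
  obtain ⟨o⟩ := hX.nonempty
  have hcard : Fintype.card (P i) = 2 := hl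
  obtain ⟨p, hp⟩ : ∃ p : P i, p ≠ o i := by
    have : Nontrivial (P i) := Fintype.one_lt_card_iff_nontrivial.1 (by rw [hcard]; norm_num)
    exact exists_ne (o i)
  set o' := Function.update o i p with ho'
  have hoo : o' i ≠ o i := by rw [ho']; simpa using hp
  have hnt : Nontrivial (∀ i, P i) := ⟨⟨o', o, fun h => hoo (by rw [h])⟩⟩
  obtain ⟨z, hz⟩ := hX.preconnected.exists_adj_of_nontrivial o
  have hjn : ∀ x x' : ∀ i, P i, jn β x x' (i, β) = x i := by
    intro x x'; unfold jn; simp
  rintro (h | h | h)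
  · have h1 : ∀ x y, X.Adj x y → x i = y i := by
      intro x y hxy
      have := (cubeP_t_iff _ _ _).1 (h _ _ (jn_adj X β x o y z hxy hz))
      rw [hjn, hjn] at this
      exact this
    have h3 : ∀ x y, X.Reachable x y → x i = y i := by
      rintro x y ⟨w⟩
      induction w with
      | nil => rfl
      | cons hadj _ ih => rw [h1 _ _ hadj, ih]
    exact hoo (h3 o' o (hX.preconnected o' o))
  · apply h2
    have h1 : ∀ x y, X.Adj x y → eqB (P := fun k : ι × Bool => P k.1) ⟨(i, β), hl⟩ (x i) ≠
        eqB (P := fun k : ι × Bool => P k.1) ⟨(i, β), hl⟩ (y i) := by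
      intro x y hxy heq
      have h4 := h _ _ (jn_adj X β x o y z hxy hz)
      have h5 : (cubeP (fun k : ι × Bool => P k.1)).t ⟨(i, β), hl⟩ (jn β x o) =
          (cubeP (fun k : ι × Bool => P k.1)).t ⟨(i, β), hl⟩ (jn β y z) := by
        rw [cubeP_t_iff, hjn, hjn]
        exact (eqB (P := fun k : ι × Bool => P k.1) ⟨(i, β), hl⟩).injective heq
      rw [h5] at h4
      have h6 := (cubeP (fun k : ι × Bool => P k.1)).t_ne_zero ⟨(i, β), hl⟩ (jn β y z)
      exact h6 (by linarith)
    have c : X.Coloring Bool := SimpleGraph.Coloring.mk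
      (fun x => eqB (P := fun k : ι × Bool => P k.1) ⟨(i, β), hl⟩ (x i))
      (fun {x y} hxy => h1 x y hxy)
    have := c.colorable
    simpa using this
  · let fl : (∀ i, P i) → (∀ i, P i) := fun y => Function.update y i
      (flipP (P := fun k : ι × Bool => P k.1) ⟨(i, β), hl⟩ (y i))
    have hfl : ∀ y y' : ∀ i, P i,
        (cubeP (fun k : ι × Bool => P k.1)).F ⟨(i, β), hl⟩ (jn β y y') = jn β (fl y) y' := by
      intro y y'
      funext k
      by_cases hk : k = (i, β)
      · subst hk
        rw [cubeP_F_self, hjn, hjn]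
        simp [fl]
      · rw [cubeP_F_ne _ _ hk]
        unfold jn
        by_cases hk2 : k.2 = β
        · rw [if_pos hk2, if_pos hk2]
          have : k.1 ≠ i := by
            intro h0
            exact hk (Prod.ext h0 hk2)
          simp [fl, Function.update_of_ne this]
        · rw [if_neg hk2, if_neg hk2]
    have hff : ∀ y, fl (fl y) = y := by
      intro y
      simp only [fl, Function.update_self, Function.update_idem]
      rw [flipP_flipP]
      exact Function.update_eq_self i y
    have h1 : ∀ x y, X.Adj x y → X.Adj x (fl y) := by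
      intro x y hxy
      have := h _ _ (jn_adj X β x o y z hxy hz)
      rw [hfl] at this
      exact jn_adj' X β _ _ _ _ this
    have h3 : fl o = o := by
      apply ht
      intro x
      constructor
      · intro hx
        have := h1 _ _ hx.symm
        rw [hff] at this
        exact this.symm
      · intro hx
        exact (h1 _ _ hx.symm).symm
    have h4 : fl o i = o i := by rw [h3]
    simp only [fl, Function.update_self] at h4
    exact flipP_ne _ _ h4

end

end Pool.Agent.L0h60.QS
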