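import Pool.Agent.L0h60.QS.Coarse

/-! The coarse permutation of directions respects splittings. -/

set_option autoImplicit false
set_option linter.unusedSectionVars false
set_option linter.unusedVariables false

namespace Pool.Agent.L0h60.QS

open Pool.Agent.H741.QS Pool.Agent.H767R3.DS Pool.Agent.H767R3.DS.Uaux

open Classical in
theorem t_U' {J K : Type} [Fintype J] [DecidableEq J] {P : J → Type} [∀ k, Fintype (P k)]
    (G : ∀ k, SimpleGraph (P k)) (hG : ∀ k, (G k).Connected) {A : Type} [CStarAlgebra A]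
    (u : (∀ k, P k) → (∀ k, P k) → A) (H : SimpleGraph (∀ k, P k))
    (hq : QIso (boxPi G) (boxPi G) u) (hH : QIso H H u) (e : A) (he0 : e ≠ 0)
    (hee : e * e = e) (hec : ∀ a w, e * u a w = u a w * e) (π σ : J → K)
    (hdir : ∀ k a b w v, DirAdj G k a b → (∀ l, π l = σ k → ¬ DirAdj G l w v) →
      u a w * u b v * e = 0) (D : Set K) (hC : Spl H.Adj (π ⁻¹' D)) :
    Spl H.Adj (σ ⁻¹' D) := by
  intro a b a' b' hab hab'
  -- absorb e
  set U : (∀ k, P k) → (∀ k, P k) → A := fun x y => u x y * e with hU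
  have hUdef : ∀ x y, U x y = u x y * e := fun x y => rfl
  have hmul : ∀ x y z w, U x y * U z w = u x y * u z w * e := by
    intro x y z w
    rw [hUdef, hUdef, mul_assoc, ← mul_assoc e, hec, mul_assoc (u z w), hee, ← mul_assoc]
  have hid : ∀ x w, U x w * U x w = U x w := by
    intro x w
    rw [hmul, hq.idem]
  have hrow : ∀ x w w', w ≠ w' → U x w * U x w' = 0 := by
    intro x w w' h
    rw [hmul, hq.rowOrth x w w' h, zero_mul]
  have hsum : ∀ x, ∑ w, U x w = e := by
    intro x
    simp only [hUdef]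
    rw [← Finset.sum_mul, hq.rowSum, one_mul]
  have he1 : ∀ x w, U x w * e = U x w := by
    intro x w
    rw [hUdef, mul_assoc, hee]
  have he2 : ∀ x w, e * U x w = U x w := by
    intro x w
    rw [hUdef, ← mul_assoc, hec, mul_assoc, hee]
  have hne : ∀ x y z w, U x y * U z w ≠ 0 → u x y * u z w ≠ 0 := by
    intro x y z w h h0
    exact h (by rw [hmul, h0, zero_mul])
  have hHadj : ∀ x y z w, U x y * U z w ≠ 0 → (H.Adj x z ↔ H.Adj y w) := by
    intro x y z w h
    by_contra hn
    exact hne x y z w h (hH.adj x z y w hn)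
  have hstep : ∀ j x z y w, DirAdj G j x z → U x y * U z w ≠ 0 →
      ∃ l, π l = σ j ∧ DirAdj G l y w := by
    intro j x z y w h h0
    by_contra hn
    push Not at hn
    exact h0 (by rw [hmul, hdir j x z y w h hn])
  have hstar : ∀ (D' : Set K) (x z : ∀ k, P k), (∀ k, σ k ∈ D' → x k = z k) →
      ∀ w v, U x w * U z v ≠ 0 → ∀ l, π l ∈ D' → w l = v l := by
    intro D' x z hxz
    have hp := path_set' G hG {j | σ j ∉ D'} x z (fun j hj => hxz j (not_not.1 hj))
    clear hxz
    induction hp with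
    | refl =>
      intro w v h l _
      by_contra hn
      refine h (hrow x w v ?_)
      rintro rfl
      exact hn rfl
    | @tail c z hxc hcz ih =>
      intro w v h l hl
      have h1 : U x w * U z v = ∑ y, U x w * U c y * U z v := by
        rw [← Finset.sum_mul, ← Finset.mul_sum, hsum, he1]
      have h2 : ∃ y, U x w * U c y * U z v ≠ 0 := by
        by_contra hn
        push Not at hn
        exact h (by rw [h1, Finset.sum_eq_zero fun y _ => hn y])
      obtain ⟨y, hy⟩ := h2
      have h3 : U x w * U c y ≠ 0 := by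
        intro h0; exact hy (by rw [h0, zero_mul])
      have h4 : U c y * U z v ≠ 0 := by
        intro h0; exact hy (by rw [mul_assoc, h0, mul_zero])
      obtain ⟨j, hjk, hj⟩ := hcz
      obtain ⟨m, hm, hd⟩ := hstep j c z y v hj h4
      rw [ih w y h3 l hl]
      apply hd.2
      rintro rfl
      rw [hm] at hl
      exact hjk hl
  -- the elements p D x w
  set F : Set J → (∀ k, P k) → Finset (∀ k, P k) := fun D w =>
    Finset.univ.filter (fun x => ∀ l ∈ D, x l = w l) with hF
  have hFmem : ∀ D w x, x ∈ F D w ↔ ∀ l ∈ D, x l = w l := by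
    intro D w x
    simp [hF]
  set p : Set J → (∀ k, P k) → (∀ k, P k) → A := fun D x w => ∑ y ∈ F D w, U x y with hp
  have hpw : ∀ D x w w', (∀ l ∈ D, w l = w' l) → p D x w = p D x w' := by
    intro D x w w' h
    have : F D w = F D w' := by
      ext y
      rw [hFmem, hFmem]
      exact ⟨fun h' l hl => (h' l hl).trans (h l hl), fun h' l hl => (h' l hl).trans (h l hl).symm⟩
    show ∑ y ∈ F D w, U x y = ∑ y ∈ F D w', U x y
    rw [this]
  have hpx : ∀ (D' : Set K) x z w, (∀ k, σ k ∈ D' → x k = z k) →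
      p (π ⁻¹' D') x w = p (π ⁻¹' D') z w := by
    intro D' x z w h
    refine sumEq hsum he1 he2 x z (F (π ⁻¹' D') w) ?_ ?_
    · intro y hy v hv
      rw [hFmem] at hy hv
      push Not at hv
      obtain ⟨l, hl, hvl⟩ := hv
      by_contra hn
      have h1 := hstar D' x z h y v hn l hl
      exact hvl (by rw [← h1, hy _ hl])
    · intro y hy v hv
      rw [hFmem] at hy hv
      push Not at hy
      obtain ⟨l, hl, hvl⟩ := hy
      by_contra hn
      have h1 := hstar D' x z h y v hn l hl
      exact hvl (by rw [h1, hv _ hl])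
  have hpp : ∀ (C : Set J) x w, p C x w * p Cᶜ x w = U x w := by
    intro C x w
    show (∑ y ∈ F C w, U x y) * (∑ y ∈ F Cᶜ w, U x y) = U x w
    rw [mulAB hid hrow]
    have : F C w ∩ F Cᶜ w = {w} := by
      ext y
      rw [Finset.mem_inter, hFmem, hFmem, Finset.mem_singleton]
      constructor
      · rintro ⟨h1, h2⟩
        funext l
        by_cases hl : l ∈ C
        · exact h1 l hl
        · exact h2 l hl
      · rintro rfl
        exact ⟨fun _ _ => rfl, fun _ _ => rfl⟩
    rw [this, Finset.sum_singleton]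
  obtain ⟨C, hCdef⟩ : ∃ C, C = π ⁻¹' D := ⟨_, rfl⟩
  have hCc : Cᶜ = π ⁻¹' Dᶜ := by rw [hCdef]; rfl
  have hpx1 : ∀ x z w, (∀ k, k ∈ σ ⁻¹' D → x k = z k) → p C x w = p C z w := by
    intro x z w h
    rw [hCdef]; exact hpx D x z w h
  have hpx2 : ∀ x z w, (∀ k, k ∉ σ ⁻¹' D → x k = z k) → p Cᶜ x w = p Cᶜ z w := by
    intro x z w h
    rw [hCc]; exact hpx Dᶜ x z w h
  have hC' : Spl H.Adj C := by rw [hCdef]; exact hC
  have hcomm : ∀ x w z v, p C x w * p Cᶜ z v = p Cᶜ z v * p C x w := by
    intro x w z v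
    have h1 : p C x w = p C (mix (σ ⁻¹' D) x z) w := by
      refine hpx1 _ _ w fun k hk => ?_
      unfold mix
      rw [if_pos hk]
    have h2 : p Cᶜ z v = p Cᶜ (mix (σ ⁻¹' D) x z) v := by
      refine hpx2 _ _ v fun k hk => ?_
      unfold mix
      rw [if_neg hk]
    rw [h1, h2]
    exact commAB hid hrow _ _ _
  have hmix : ∀ x w z v, p C x w * p Cᶜ z v = U (mix (σ ⁻¹' D) x z) (mix C w v) := by
    intro x w z v
    have h1 : p C x w = p C (mix (σ ⁻¹' D) x z) (mix C w v) := by
      rw [hpw C x w (mix C w v) (fun l hl => by unfold mix; rw [if_pos hl])]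
      refine hpx1 _ _ _ fun k hk => ?_
      unfold mix
      rw [if_pos hk]
    have h2 : p Cᶜ z v = p Cᶜ (mix (σ ⁻¹' D) x z) (mix C w v) := by
      rw [hpw Cᶜ z v (mix C w v) (fun l hl => by unfold mix; rw [if_neg hl])]
      refine hpx2 _ _ _ fun k hk => ?_
      unfold mix
      rw [if_neg hk]
    rw [h1, h2]
    exact hpp _ _ _
  -- a nonzero term
  have hex : ∀ (z : A) (x : ∀ k, P k), z ≠ 0 → z * e = z → ∃ w, z * U x w ≠ 0 := by
    intro z x hz hze
    by_contra hn
    push Not at hn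
    apply hz
    rw [← hze, ← hsum x, Finset.mul_sum]
    exact Finset.sum_eq_zero fun w _ => hn w
  obtain ⟨w, hw0⟩ := hex e a he0 hee
  have hw1 : U a w ≠ 0 := by rwa [he2] at hw0
  obtain ⟨v, hv1⟩ := hex (U a w) b hw1 (he1 _ _)
  obtain ⟨w', hw'1⟩ := hex (U a w * U b v) a' hv1 (by rw [mul_assoc, he1])
  obtain ⟨v', hT⟩ := hex (U a w * U b v * U a' w') b' hw'1 (by rw [mul_assoc, he1])
  have hwv : H.Adj w v := by
    refine (hHadj a w b v ?_).1 hab
    intro h0
    exact hT (by rw [h0, zero_mul, zero_mul])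
  have hwv' : H.Adj w' v' := by
    refine (hHadj a' w' b' v' ?_).1 hab'
    intro h0
    exact hT (by rw [mul_assoc, h0, mul_zero])
  have hspl := hC' w v w' v' hwv hwv'
  refine (hHadj (mix (σ ⁻¹' D) a a') (mix C w w') (mix (σ ⁻¹' D) b b') (mix C v v') ?_).2 hspl
  rw [← hmix, ← hmix]
  intro h0
  apply hT
  have c' : ∀ (x w z v : ∀ k, P k) (y : A), p C x w * (p Cᶜ z v * y) =
      p Cᶜ z v * (p C x w * y) := by
    intro x w z v y
    rw [← mul_assoc, hcomm, mul_assoc]
  have hT' : U a w * U b v * U a' w' * U b' v' = p Cᶜ a w * p Cᶜ b v *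
      (p C a w * p Cᶜ a' w' * (p C b v * p Cᶜ b' v')) * (p C a' w' * p C b' v') := by
    rw [← hpp C a w, ← hpp C b v, ← hpp C a' w', ← hpp C b' v']
    simp only [mul_assoc, hcomm, c']
  rw [hT', h0, mul_zero, zero_mul]

end Pool.Agent.L0h60.QS
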