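import Pool.Agent.L0h60.QS.Cube

/-! The matrix `w` of a magic unitary that preserves sign coordinates, and its relations. -/

set_option autoImplicit false
set_option linter.unusedSectionVars false

namespace Pool.Agent.L0h60.QS

open Pool.Agent.H741.QS

namespace Cube

variable {V I : Type} [DecidableEq I] (c : Cube V I)

theorem fs_insert {i : I} {S : Finset I} (h : i ∉ S) (a : V) :
    c.fs (insert i S) a = c.F i (c.fs S a) := by
  unfold F
  rw [c.fs_fs]
  congr 1
  ext j
  simp only [Finset.mem_insert, Finset.mem_symmDiff, Finset.mem_singleton]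
  constructor
  · rintro (rfl | hj)
    · exact Or.inl ⟨rfl, h⟩
    · exact Or.inr ⟨hj, by rintro rfl; exact h hj⟩
  · rintro (⟨h1, -⟩ | ⟨h1, -⟩)
    · exact Or.inl h1
    · exact Or.inr h1

theorem t_cases (i : I) (a b : V) : c.t i a = c.t i b ∨ c.t i a = - c.t i b := by
  have h1 := c.t_sq i a
  have h2 := c.t_sq i b
  have h3 : (c.t i a - c.t i b) * (c.t i a + c.t i b) = 0 := by ring_nf; nlinarith
  rcases mul_eq_zero.1 h3 with h | h
  · left; linarith
  · right; linarith

theorem t_one (i : I) (a : V) : c.t i a = 1 ∨ c.t i a = -1 := by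
  have h1 := c.t_sq i a
  have h3 : (c.t i a - 1) * (c.t i a + 1) = 0 := by ring_nf; nlinarith
  rcases mul_eq_zero.1 h3 with h | h
  · left; linarith
  · right; linarith

/-- flips induction -/
theorem fs_induct (p : V → Prop) (S : Finset I) (a : V) (h0 : p a)
    (h : ∀ i ∈ S, ∀ b, p b → p (c.F i b)) : p (c.fs S a) := by
  induction S using Finset.induction_on with
  | empty => rwa [c.fs_empty]
  | insert i S hi ih =>
    rw [c.fs_insert hi]
    exact h i (Finset.mem_insert_self _ _) _ (ih fun j hj => h j (Finset.mem_insert_of_mem hj))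

theorem exists_fs [Fintype I] (a b : V) : ∃ S : Finset I, ∀ i, c.t i (c.fs S a) = c.t i b := by
  classical
  refine ⟨Finset.univ.filter fun i => c.t i a ≠ c.t i b, fun i => ?_⟩
  rw [c.t_fs]
  simp only [Finset.mem_filter, Finset.mem_univ, true_and]
  split_ifs with h
  · rcases c.t_cases i a b with h1 | h1
    · exact absurd h1 h
    · rw [h1]; ring
  · push Not at h; exact h

end Cube

section

variable {V I A : Type} [Fintype V] [Fintype I] [DecidableEq I]
  [Ring A] [StarRing A] [Algebra ℝ A] [StarModule ℝ A]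
variable {c : Cube V I} {G : SimpleGraph V} {u : V → V → A}

/-- the matrix `w`, at the vertex `a` -/
noncomputable def wv (c : Cube V I) (u : V → V → A) (k l : I) (a : V) : A :=
  (1 / 2 * c.t k a) • (Tl c u l a - Tl c u l (c.F k a))

namespace QC

theorem Tl_congr (h : QC c G u) (l : I) {a b : V} (hab : ∀ i, c.t i a = c.t i b) :
    Tl c u l a = Tl c u l b := by
  apply h.q.eq_of a b
  intro w v
  unfold Tl
  rw [h.q.u_mul_al, smul_mul_assoc, mul_assoc, h.q.al_mul_u, mul_smul_comm]
  by_cases hX : u a w * u b v = 0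
  · rw [hX, smul_zero, smul_zero]
  · rw [h.h2 a b w v hab hX l]

theorem wv_F (h : QC c G u) (k l j : I) (a : V) : wv c u k l (c.F j a) = wv c u k l a := by
  unfold wv
  by_cases hjk : k = j
  · subst hjk
    rw [c.t_F_self, c.F_F, ← neg_sub (Tl c u l a), smul_neg, ← neg_smul]
    congr 1; ring
  · rw [c.t_F_ne hjk]
    congr 1
    have := h.second_sum l a (j := j) (k := k) (Ne.symm hjk)
    rw [c.F_comm k j]
    rw [sub_eq_sub_iff_add_eq_add, add_comm, this, add_comm]

theorem wv_const (h : QC c G u) (k l : I) (a b : V) : wv c u k l a = wv c u k l b := by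
  obtain ⟨S, hS⟩ := c.exists_fs a b
  have h1 : wv c u k l (c.fs S a) = wv c u k l a :=
    c.fs_induct (fun x => wv c u k l x = wv c u k l a) S a rfl
      fun i _ x hx => by rw [h.wv_F]; exact hx
  rw [← h1]
  unfold wv
  have h2 : ∀ i, c.t i (c.F k (c.fs S a)) = c.t i (c.F k b) := by
    intro i
    rw [c.t_F, c.t_F, hS]
  rw [hS, h.Tl_congr l hS, h.Tl_congr l h2]

end QC

/-- the matrix `w` -/
noncomputable def ww [Nonempty V] (c : Cube V I) (u : V → V → A) (k l : I) : A :=
  wv c u k l (Classical.arbitrary V)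

namespace QC

variable [Nonempty V]

theorem ww_eq (h : QC c G u) (k l : I) (a : V) :
    ww c u k l = (1 / 2 * c.t k a) • (Tl c u l a - Tl c u l (c.F k a)) :=
  h.wv_const k l _ a

theorem star_ww (h : QC c G u) (k l : I) : star (ww c u k l) = ww c u k l := by
  rw [h.ww_eq k l (Classical.arbitrary V), star_smul, star_sub, h.star_Tl, h.star_Tl]
  simp

theorem ww_mul_u (h : QC c G u) (k l : I) (a v : V) :
    ww c u k l * u a v = (c.t k a * c.t l v) • (u (c.F k a) (c.F l v) * u a v) := by
  have e1 : Tl c u l a * u a v = c.t l v • u a v := h.q.al_mul_u _ _ _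
  have e2 : Tl c u l (c.F k a) * u a v = c.t l v • u a v -
      (2 * c.t l v) • (u (c.F k a) (c.F l v) * u a v) := by
    classical
    have e3 : ∀ z, c.t l z • (u (c.F k a) z * u a v) =
        c.t l v • (u (c.F k a) z * u a v) -
          if z = c.F l v then (2 * c.t l v) • (u (c.F k a) (c.F l v) * u a v) else 0 := by
      intro z
      by_cases hX : u (c.F k a) z * u a v = 0
      · rw [hX, smul_zero, smul_zero]
        split_ifs with hz
        · rw [← hz, hX, smul_zero, sub_zero]
        · rw [sub_zero]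
      · have hX' : u a v * u (c.F k a) z ≠ 0 := fun h0 => hX (h.q.star_mul_eq_zero h0)
        obtain ⟨m, hm⟩ := h.h1 _ _ _ _ hX'
        by_cases hml : m = l
        · subst hml
          rw [if_pos hm, hm, c.t_F_self, ← sub_smul]
          congr 1; ring
        · have hz : z ≠ c.F l v := fun h0 => hml (c.F_inj (hm.symm.trans h0))
          rw [if_neg hz, sub_zero, hm, c.t_F_ne (Ne.symm hml)]
    calc Tl c u l (c.F k a) * u a v = ∑ z, c.t l z • (u (c.F k a) z * u a v) := by
          unfold Tl al
          rw [Finset.sum_mul]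
          exact Finset.sum_congr rfl fun z _ => smul_mul_assoc _ _ _
      _ = _ := by
          classical
          rw [Finset.sum_congr rfl fun z _ => e3 z, Finset.sum_sub_distrib, ← Finset.smul_sum,
            ← Finset.sum_mul, h.q.rowSum, one_mul, Finset.sum_ite_eq' Finset.univ (c.F l v),
            if_pos (Finset.mem_univ _)]
  rw [h.ww_eq k l a, smul_mul_assoc, sub_mul, e1, e2, sub_sub_cancel, smul_smul]
  congr 1; ring

theorem u_mul_ww (h : QC c G u) (k l : I) (a v : V) :
    u a v * ww c u k l = (c.t k a * c.t l v) • (u a v * u (c.F k a) (c.F l v)) := by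
  have h1 := congrArg star (h.ww_mul_u k l a v)
  have h2 : ∀ (r : ℝ) (z : A), star (r • z) = r • star z := fun r z => by
    rw [star_smul, star_trivial]
  rw [h2, star_mul, star_mul, h.star_ww, h.q.star_eq, h.q.star_eq] at h1
  exact h1

/-- the basic commutation rule -/
theorem ww_u (h : QC c G u) (k l : I) (a v : V) :
    ww c u k l * u a v = u (c.F k a) (c.F l v) * ww c u k l := by
  rw [h.ww_mul_u, h.u_mul_ww, c.F_F, c.F_F, c.t_F_self, c.t_F_self]
  congr 1; ring

theorem ww_Tl (h : QC c G u) (k l m : I) (a : V) :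
    ww c u k l * Tl c u m a = (if m = l then (-1 : ℝ) else 1) • (Tl c u m (c.F k a) * ww c u k l) := by
  unfold Tl al
  rw [Finset.mul_sum, Finset.sum_mul, Finset.smul_sum]
  refine Fintype.sum_bijective (c.F l) (c.F_bij l) _ _ fun v => ?_
  rw [mul_smul_comm, h.ww_u, smul_mul_assoc, smul_smul, c.t_F]
  congr 1
  split_ifs <;> ring

theorem ww_ww (h : QC c G u) (k l j m : I) :
    ww c u k l * ww c u j m = ((if m = l then (-1 : ℝ) else 1) * (if j = k then -1 else 1)) •
      (ww c u j m * ww c u k l) := by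
  set a : V := Classical.arbitrary V
  rw [h.ww_eq j m a, mul_smul_comm, mul_sub, h.ww_Tl, h.ww_Tl, ← h.ww_eq j m a,
    h.ww_eq j m (c.F k a), ← smul_sub, ← sub_mul, smul_mul_assoc, smul_smul, smul_smul,
    c.F_comm j k, c.t_F]
  congr 1
  split_ifs <;> ring

theorem ww_row (h : QC c G u) (k : I) {l m : I} (hlm : l ≠ m) :
    ww c u k l * ww c u k m = - (ww c u k m * ww c u k l) := by
  rw [h.ww_ww, if_neg (Ne.symm hlm), if_pos rfl, one_mul, neg_one_smul]

theorem ww_col (h : QC c G u) (l : I) {k j : I} (hkj : k ≠ j) :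
    ww c u k l * ww c u j l = - (ww c u j l * ww c u k l) := by
  rw [h.ww_ww, if_neg (Ne.symm hkj), if_pos rfl, mul_one, neg_one_smul]

theorem ww_comm (h : QC c G u) {k j l m : I} (hkj : k ≠ j) (hlm : l ≠ m) :
    ww c u k l * ww c u j m = ww c u j m * ww c u k l := by
  rw [h.ww_ww, if_neg (Ne.symm hkj), if_neg (Ne.symm hlm), mul_one, one_smul]

/-- expansion of the sign functions -/
theorem Tl_eq (h : QC c G u) (l : I) (a : V) : Tl c u l a = ∑ k, c.t k a • ww c u k l := by
  have h1 := h.sum_Tl l a
  have h2 : ∀ k, c.t k a • ww c u k l = (1 / 2 : ℝ) • (Tl c u l a - Tl c u l (c.F k a)) := by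
    intro k
    rw [h.ww_eq k l a, smul_smul]
    congr 1
    have := c.t_sq k a
    linear_combination (1 / 2) * this
  rw [Finset.sum_congr rfl fun k _ => h2 k, ← Finset.smul_sum, Finset.sum_sub_distrib, h1,
    Finset.sum_const, Finset.card_univ, ← Nat.cast_smul_eq_nsmul ℝ, ← sub_smul, smul_smul]
  have : (1 / 2 : ℝ) * ((Fintype.card I : ℝ) - ((Fintype.card I : ℝ) - 2)) = 1 := by ring
  rw [this, one_smul]

theorem col_sq (h : QC c G u) (l : I) : ∑ k, ww c u k l * ww c u k l = 1 := by
  set a : V := Classical.arbitrary V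
  have h1 := h.Tl_sq l a
  rw [h.Tl_eq l a, Finset.sum_mul_sum] at h1
  have h2 : ∑ k, ∑ j, (c.t k a • ww c u k l) * (c.t j a • ww c u j l) =
      ∑ k, ww c u k l * ww c u k l := by
    have e : ∀ k j, (c.t k a • ww c u k l) * (c.t j a • ww c u j l) +
        (c.t j a • ww c u j l) * (c.t k a • ww c u k l) =
        if k = j then (2 : ℝ) • (ww c u k l * ww c u k l) else 0 := by
      intro k j
      simp only [smul_mul_assoc, mul_smul_comm, smul_smul]
      by_cases hkj : k = j
      · subst hkj
        rw [if_pos rfl, c.t_sq, one_smul, two_smul]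
      · rw [if_neg hkj, h.ww_col l hkj, mul_comm (c.t j a), smul_neg, neg_add_cancel]
    have e2 : (2 : ℝ) • ∑ k, ∑ j, (c.t k a • ww c u k l) * (c.t j a • ww c u j l) =
        (2 : ℝ) • ∑ k, ww c u k l * ww c u k l := by
      rw [two_smul]
      nth_rw 2 [Finset.sum_comm]
      rw [← Finset.sum_add_distrib, Finset.smul_sum]
      refine Finset.sum_congr rfl fun k _ => ?_
      rw [← Finset.sum_add_distrib, Finset.sum_congr rfl fun j _ => e k j,
        Finset.sum_ite_eq Finset.univ k, if_pos (Finset.mem_univ _)]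
    exact smul_right_injective A (two_ne_zero' ℝ) e2
  rw [← h2, h1]

theorem col_orth (h : QC c G u) {l m : I} (hlm : l ≠ m) : ∑ k, ww c u k l * ww c u k m = 0 := by
  set a : V := Classical.arbitrary V
  have h1 := h.Tl_comm l m a
  rw [h.Tl_eq l a, h.Tl_eq m a, Finset.sum_mul_sum, Finset.sum_mul_sum] at h1
  nth_rw 2 [Finset.sum_comm] at h1
  rw [← sub_eq_zero, ← Finset.sum_sub_distrib] at h1
  have e : ∀ k, ∑ j, (c.t k a • ww c u k l) * (c.t j a • ww c u j m) -
      ∑ j, (c.t j a • ww c u j m) * (c.t k a • ww c u k l) =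
      (2 : ℝ) • (ww c u k l * ww c u k m) := by
    intro k
    rw [← Finset.sum_sub_distrib, Finset.sum_eq_single k]
    · simp only [smul_mul_assoc, mul_smul_comm, smul_smul]
      rw [c.t_sq, one_smul, one_smul, h.ww_row k (Ne.symm hlm), sub_neg_eq_add, two_smul]
    · intro j _ hj
      simp only [smul_mul_assoc, mul_smul_comm, smul_smul]
      rw [h.ww_comm (Ne.symm hj) hlm, mul_comm (c.t j a), sub_self]
    · intro hk; exact absurd (Finset.mem_univ _) hk
  rw [Finset.sum_congr rfl fun k _ => e k, ← Finset.smul_sum] at h1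
  rcases smul_eq_zero.1 h1 with h2 | h2
  · norm_num at h2
  · exact h2

theorem ww_transpose (h : QC c G u) (k l : I) : ww c (fun w a => u a w) l k = ww c u k l := by
  have key : ww c (fun w a => u a w) l k - ww c u k l = 0 := by
    apply h.q.eq_zero_right (Classical.arbitrary V)
    intro v
    rw [sub_mul, h.ww_mul_u]
    have := h.transpose.ww_mul_u l k v (Classical.arbitrary V)
    rw [this, mul_comm, sub_self]
  exact sub_eq_zero.1 key

theorem row_sq (h : QC c G u) (k : I) : ∑ l, ww c u k l * ww c u k l = 1 := by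
  have := h.transpose.col_sq k
  simpa only [h.ww_transpose] using this

theorem row_orth (h : QC c G u) {k j : I} (hkj : k ≠ j) : ∑ l, ww c u k l * ww c u j l = 0 := by
  have := h.transpose.col_orth hkj
  simpa only [h.ww_transpose] using this

/-- the squares are central -/
theorem sq_central (h : QC c G u) (k l : I) (a v : V) :
    ww c u k l * ww c u k l * u a v = u a v * (ww c u k l * ww c u k l) := by
  rw [mul_assoc, h.ww_u, ← mul_assoc, h.ww_u, c.F_F, c.F_F, mul_assoc]

end QC

end

end Pool.Agent.L0h60.QS
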